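import Pool.Agent.Helper26K9.XO.Kap

/-!
# The residues of the twisted sums in all weight classes
-/

set_option autoImplicit false
set_option linter.unusedSectionVars false
set_option linter.unusedSimpArgs false
set_option linter.unusedVariables false

open scoped PeriodPair

namespace Pool.Agent.Helper26K9.XO

open H667R3 Pool.Agent.TH936.CW Pool.Agent.Y690.NV Pool.Agent.Y690.AW Pool.Agent.W192.HK
open Pool.Agent.TH936.CM (IsLat out_sub)
open Complex (I)

variable {R : Subring ℂ} (hR : ∀ z : ℂ, z ∈ R ↔ ∃ x y : ℤ, z = x + y * I)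

/-- the norm modulo eight -/
noncomputable def zn (p : R) : ZMod 2 := if Nat.card (R ⧸ sp p) % 8 = 5 then 1 else 0

include hR in
lemma zn_eq {p : R} (hbasic : H_BASIC) (h : Pri p) {a b : ℤ}
    (hab : (p : ℂ) = 1 + (2 + 2 * I) * ((a : ℂ) + b * I)) :
    zn p = ((a + b : ℤ) : ZMod 2) ∧
    zn p = ((a - b + (a - b) ^ 2 + (a + b) ^ 2 : ℤ) : ZMod 2) := by
  have h1 := card_form hR hbasic h hab
  set N := Nat.card (R ⧸ sp p) with hN
  have h3 : ((a - b + (a - b) ^ 2 + (a + b) ^ 2 : ℤ) : ZMod 2) = ((a + b : ℤ) : ZMod 2) := by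
    rw [ZMod.intCast_eq_intCast_iff_dvd_sub]
    have e : (a + b) - (a - b + (a - b) ^ 2 + (a + b) ^ 2) = 2 * (b - a ^ 2 - b ^ 2) := by ring
    rw [e]
    exact ⟨b - a ^ 2 - b ^ 2, by push_cast; ring⟩
  rw [h3, and_self]
  have e : (1 : ℤ) + 4 * (a - b + (a - b) ^ 2 + (a + b) ^ 2) =
      1 + 4 * (a + b) + 8 * (a ^ 2 + b ^ 2 - b) := by ring
  rw [e] at h1
  unfold zn
  rw [← hN]
  rcases Int.even_or_odd' (a + b) with ⟨c, hc | hc⟩
  · rw [if_neg (by omega), hc]
    push_cast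
    have : (2 : ZMod 2) = 0 := by decide
    rw [this, zero_mul]
  · rw [if_pos (by omega), hc]
    push_cast
    have : (2 : ZMod 2) = 0 := by decide
    rw [this, zero_mul, zero_add]

section val

variable {Γ : Type*} [LinearOrderedCommGroupWithZero Γ] {v : Valuation ℂ Γ} {ρ : ℂ}
  (hρ : ρ ^ 4 = 2) (hr : v ρ < 1)

lemma pow_two_sub {c s : ℂ} (hc : v c ≤ 1) (hs : v s ≤ 1) (n : ℕ) :
    v ((1 + c * s) ^ n - 1 - n * (c * s)) ≤ v (c ^ 2) := by
  induction n with
  | zero =>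
    have e : (1 + c * s) ^ 0 - 1 - ((0 : ℕ) : ℂ) * (c * s) = 0 := by push_cast; ring
    rw [e, map_zero]
    exact zero_le
  | succ n ih =>
    have e : (1 + c * s) ^ (n + 1) - 1 - ((n + 1 : ℕ) : ℂ) * (c * s) =
        ((1 + c * s) ^ n - 1 - n * (c * s)) * (1 + c * s) + c ^ 2 * (n * s ^ 2) := by
      rw [pow_succ]; push_cast; ring
    rw [e]
    have h1 : v (1 + c * s) ≤ 1 :=
      v_add_le (by rw [map_one]) (v_mul_le hc hs)
    refine v_add_le ?_ ?_
    · rw [map_mul]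
      exact (mul_le_of_le_one_right' h1).trans ih
    · rw [map_mul]
      refine mul_le_of_le_one_right' (v_mul_le (v_nat v n) ?_)
      rw [map_pow]
      exact pow_le_one' hs 2

include hρ hr in
lemma N1_I : N1 v I := by
  have h2 := two_lt hρ hr
  have hI : v (1 + I) < 1 := v_one_add_j h2 Complex.I_sq
  unfold N1
  have e : I - 1 = I * (1 + I) := by linear_combination -Complex.I_sq
  rw [e, map_mul, v_I, one_mul]
  exact hI

include hρ hr in
lemma N1_root : N1 v ((1 + I) / ρ ^ 2) := by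
  have h2 := two_lt hρ hr
  have hρ0 := rho_ne hρ
  refine N1.of_sq h2 ?_
  have e : ((1 + I) / ρ ^ 2) ^ 2 = I := by
    have h4 : (ρ ^ 2) ^ 2 = 2 := by rw [← hρ]; ring
    rw [div_pow, h4]
    linear_combination (1 / 2 : ℂ) * Complex.I_sq
  rw [e]
  exact N1_I hρ hr

include hρ hr in
lemma scale_ff : v ((2 + 2 * I) - 2 * ρ ^ 2) < v (2 + 2 * I) := by
  have hρ0 := rho_ne hρ
  have hN := N1_root (v := v) hρ hr
  have h2 := v2_pos (v := v)
  have h1 : v (1 + I) = v (ρ ^ 2) := by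
    have h3 := hN.val
    rw [map_div₀, div_eq_one_iff_eq] at h3
    · exact h3
    · rw [Ne, map_eq_zero]
      exact pow_ne_zero _ hρ0
  have e1 : (2 + 2 * I) - 2 * ρ ^ 2 = 2 * ρ ^ 2 * ((1 + I) / ρ ^ 2 - 1) := by
    field_simp
  have e2 : (2 + 2 * I : ℂ) = 2 * (1 + I) := by ring
  rw [e1, e2, map_mul, map_mul, map_mul, h1]
  calc v 2 * v (ρ ^ 2) * v ((1 + I) / ρ ^ 2 - 1) < v 2 * v (ρ ^ 2) * 1 := by
        refine mul_lt_mul_of_pos_left hN (mul_pos h2 ?_)
        rw [zero_lt_iff, Ne, map_eq_zero]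
        exact pow_ne_zero _ hρ0
    _ = _ := mul_one _

include hρ hr hR in
/-- the residue of the factor of the distribution relation -/
lemma gm_par (hbasic : H_BASIC) {p : R} (h : Pri p) (n : ℕ) :
    Pq v (2 * ρ ^ 2) (gm n (p : ℂ) - 1) (zn p) := by
  have h2 := two_lt hρ hr
  have hI : v (1 + I) < 1 := v_one_add_j h2 Complex.I_sq
  have hf0 : (2 + 2 * I : ℂ) ≠ 0 := one_ne
  have hfpos : 0 < v (2 + 2 * I) := by rwa [zero_lt_iff, Ne, map_eq_zero]
  have hc : v (2 + 2 * I) < v 2 := by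
    rw [show (2 + 2 * I : ℂ) = 2 * (1 + I) by ring, map_mul]
    calc v 2 * v (1 + I) < v 2 * 1 := mul_lt_mul_of_pos_left hI v2_pos
      _ = _ := mul_one _
  have hc1' : v (2 + 2 * I) < 1 := hc.trans h2
  obtain ⟨a, b, hab⟩ := h.coe hR
  have hz := (zn_eq hR hbasic h hab).1
  set f : ℂ := 2 + 2 * I with hf
  set α : ℂ := (a : ℂ) + b * I with hα
  set β : ℂ := (-I) * ((a : ℂ) + (-b : ℤ) * I) with hβ
  have hsα : v α ≤ 1 := v_gauss a b
  have hsβ : v β ≤ 1 := by
    rw [hβ, map_mul, Valuation.map_neg, v_I, one_mul]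
    exact v_gauss a (-b)
  have hcj : (starRingEnd ℂ) (p : ℂ) = 1 + f * β := by
    rw [hab, hf, hα, hβ]
    simp only [map_add, map_mul, map_one, map_ofNat, map_intCast, Complex.conj_I]
    push_cast
    linear_combination (2 * ((a : ℂ) - b * I)) * Complex.I_sq
  have hvc : v ((starRingEnd ℂ) (p : ℂ)) = 1 := by
    have h1 : (starRingEnd ℂ) (p : ℂ) = ((1 + 2 * a - 2 * b : ℤ) : ℂ) +
        ((-(2 * a + 2 * b) : ℤ) : ℂ) * I := by
      rw [hab, hf, hα]
      simp only [map_add, map_mul, map_one, map_ofNat, map_intCast, Complex.conj_I]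
      push_cast
      linear_combination (2 * (b : ℂ)) * Complex.I_sq
    rw [h1]
    exact v_gauss_odd h2 (by omega)
  have hc1 : (starRingEnd ℂ) (p : ℂ) ≠ 0 := by
    intro h
    rw [h, map_zero] at hvc
    exact zero_ne_one hvc
  have hP := pow_two_sub (v := v) hc1'.le hsα (n + 1)
  have hQ := pow_two_sub (v := v) hc1'.le hsβ n
  have hQ1 := pow_one_sub (v := v) hc1'.le hsβ n
  rw [← hcj] at hQ hQ1
  rw [← hab] at hP
  have hlt : v (f ^ 2) < v f := by
    rw [map_pow, pow_two]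
    calc v f * v f < 1 * v f := mul_lt_mul_of_pos_right hc1' hfpos
      _ = _ := one_mul _
  set P : ℂ := (p : ℂ) ^ (n + 1) with hPd
  set Q : ℂ := (starRingEnd ℂ) (p : ℂ) ^ n with hQd
  have hQv : v Q = 1 := by rw [hQd, map_pow, hvc, one_pow]
  have hQ0 : Q ≠ 0 := pow_ne_zero _ hc1
  have hgm : gm n (p : ℂ) - 1 = (P - Q) / Q := by
    rw [gm_eq, ← hPd, ← hQd]
    field_simp
  have hPQ : v (P - Q) ≤ v f := by
    have e : P - Q = (P - 1) - (Q - 1) := by ring
    rw [e]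
    refine (v.map_sub _ _).trans (max_le ?_ hQ1)
    rw [hPd, hab]
    exact pow_one_sub hc1'.le hsα _
  have key : Pq v f (gm n (p : ℂ) - 1) (zn p) := by
    refine ⟨a + b, hz.symm, ?_⟩
    have e : gm n (p : ℂ) - 1 - f * ((a + b : ℤ) : ℂ) = (P - Q) * (1 - Q) / Q +
        ((P - 1 - ((n + 1 : ℕ) : ℂ) * (f * α)) - (Q - 1 - n * (f * β))) +
        f * (((n + 1 : ℕ) : ℂ) * α - n * β - ((a + b : ℤ) : ℂ)) := by
      rw [hgm]
      field_simp
      ring
    rw [e]
    refine v_add_lt (v_add_lt ?_ ?_) ?_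
    · rw [map_div₀, hQv, div_one, map_mul, v.map_sub_swap 1 Q]
      refine lt_of_le_of_lt ?_ hlt
      rw [map_pow, pow_two]
      exact mul_le_mul' hPQ hQ1
    · exact ((v.map_sub _ _).trans (max_le hP hQ)).trans_lt hlt
    · have e2 : ((n + 1 : ℕ) : ℂ) * α - n * β - ((a + b : ℤ) : ℂ) =
          (((n + 1 : ℕ) * b + (n : ℕ) * a : ℤ) : ℂ) * (1 + I) + 2 * ((-b : ℤ) : ℂ) := by
        rw [hα, hβ]
        push_cast
        linear_combination (-(n : ℂ) * b) * Complex.I_sq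
      rw [map_mul]
      calc v f * v (((n + 1 : ℕ) : ℂ) * α - n * β - ((a + b : ℤ) : ℂ)) < v f * 1 := by
            refine mul_lt_mul_of_pos_left ?_ hfpos
            rw [e2]
            refine v_add_lt ?_ ?_
            · rw [map_mul]
              exact (mul_le_of_le_one_left' (v_int v _)).trans_lt hI
            · rw [map_mul]
              exact (mul_le_of_le_one_right' (v_int v _)).trans_lt h2
        _ = _ := mul_one _
  exact key.scale (scale_ff hρ hr)

include hR in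
lemma card_par (hbasic : H_BASIC) {p : R} (h : Pri p) :
    Pq v (2 * 2) ((Nat.card (R ⧸ sp p) : ℂ) - 1) (zn p) := by
  obtain ⟨a, b, hab⟩ := h.coe hR
  have hz := (zn_eq hR hbasic h hab).2
  have h1 := card_form hR hbasic h hab
  refine ⟨_, hz.symm, ?_⟩
  have h3 : (Nat.card (R ⧸ sp p) : ℂ) =
      ((1 + 4 * (a - b + (a - b) ^ 2 + (a + b) ^ 2) : ℤ) : ℂ) := by
    rw [← h1]
    push_cast
    rfl
  rw [h3]
  have e : ((1 + 4 * (a - b + (a - b) ^ 2 + (a + b) ^ 2) : ℤ) : ℂ) - 1 -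
      2 * 2 * ((a - b + (a - b) ^ 2 + (a + b) ^ 2 : ℤ) : ℂ) = 0 := by push_cast; ring
  rw [e, map_zero, map_mul]
  exact mul_pos v2_pos v2_pos

end val

section main

variable {L : PeriodPair} {q Ω : ℂ} (hL : IsLat L R Ω) (hCM : H667R3.CM L) (g2 : L.g₂ = -1)
  (hq : ∀ l ∈ L.lattice, eta L l = 0 * l + q * (starRingEnd ℂ) l)
  (hT : TP L q 1 (Ω / (2 + 2 * I)))
  {Γ : Type*} [LinearOrderedCommGroupWithZero Γ] {v : Valuation ℂ Γ} {ρ : ℂ}
  (hρ : ρ ^ 4 = 2) (hr : v ρ < 1)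

include hR in
lemma TT_empty {G : R → R → ℂ} {c : R → ℂ} (h : DS G c) {x : ℂ}
    (hG : ∀ D r : R, Pri D → r ∈ sp D → G D r = x) : TT G ∅ = x := by
  have hod : Pri (dd (∅ : Finset R)) := dd_od hR (by simp)
  have := h.fin _ hod
  have := Fintype.ofFinite (R ⧸ sp (dd (∅ : Finset R)))
  have h1 : sp (dd (∅ : Finset R)) = ⊤ := by
    unfold dd
    rw [Finset.prod_empty]
    exact Ideal.span_singleton_one
  have hsub : ∀ w : R ⧸ sp (dd (∅ : Finset R)), w = 0 := by
    intro w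
    refine eq_of_out ?_
    generalize w.out - (0 : R ⧸ sp (dd (∅ : Finset R))).out = x
    rw [h1]
    exact Submodule.mem_top
  unfold TT Ts
  rw [rs_eq, Fintype.sum_eq_single (0 : R ⧸ sp (dd (∅ : Finset R)))
    (fun w hw => absurd (hsub w) hw)]
  have e1 : ((ch (∅ : Finset R) (0 : R ⧸ sp (dd (∅ : Finset R))).out : ℤ) : ℂ) = 1 := by
    unfold ch
    rw [Finset.prod_empty, Int.cast_one]
  beta_reduce
  rw [e1, one_mul, hG _ _ hod zero_out]

include hR hL hCM g2 hq hT hρ hr in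
open Classical in
/-- **the residues of the twisted sums in all weight classes** -/
theorem TT_res (hbasic : H_BASIC) (hfp : H_FP) (hcnt : H_CNT) (hdec : H_DEC) (hafe : H_AFE)
    (e : ℕ) {S : Finset R} (hS : ∀ p ∈ S, QC p) (hd : Dst S) :
    ∃ K β : ℂ, K ≠ 0 ∧ β ≠ 0 ∧ ∀ W ⊆ S, W.Nonempty →
      Pq v (2 ^ W.card * β) (TT (fun D r : R => Gx K L q Ω e D r) W) (tz aa zn W) := by
  have h2 := two_lt hρ hr
  have hρ0 := rho_ne hρ
  have hp := rho_pos (v := v) hρ
  have hc : ∀ p ∈ S, v (gm e (p : ℂ) - 1) < v 2 := fun p hp => gm_one hR hρ hr (hS p hp).od e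
  have h2' : v 2 = v ρ ^ 4 := v_two hρ
  have hcases : (∃ m, e = 4 * m ∨ e = 4 * m + 1) ∨ ∃ m, e = 4 * m + 2 ∨ e = 4 * m + 3 := by
    have := Nat.div_add_mod e 4
    have h4 := Nat.mod_lt e (show 4 > 0 by norm_num)
    rcases Nat.lt_or_ge (e % 4) 2 with h | h
    · exact Or.inl ⟨e / 4, by omega⟩
    · exact Or.inr ⟨e / 4, by omega⟩
  rcases hcases with ⟨m, hm⟩ | ⟨m, hm⟩
  · obtain ⟨K, hK, hK1, hK2⟩ := Gx_A hR hL hCM hq hT g2 hρ hr m e hm
    have hDS := ds_Gx hR hL hCM hq hT hbasic K e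
    have hneg : ∀ D r : R, Pri D → Gx K L q Ω e D (-r) = Gx K L q Ω e D r := fun D r hD =>
      Gx_neg hR hL hCM hT K e hD r
    have hem : TT (fun D r : R => Gx K L q Ω e D r) ∅ = 1 := TT_empty hR hDS hK1
    have hbA : ∀ W ⊆ S, W.Nonempty → v (Ts (fun D r : R => Gx K L q Ω e D r) (dd W) (kap W)) ≤
        v ρ ^ (4 + 4 * W.card) := by
      intro W hW hne
      have h3 := bigA (v := v) hDS hR hneg (fun D r hD => (hK2 D r hD).val.le)
        (fun p hp => hS p (hW hp)) hne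
      rwa [h2', ← pow_mul, ← pow_add] at h3
    refine ⟨K, ρ ^ 2, hK, pow_ne_zero _ hρ0, half_par h2 hDS hR hS hd (pow_ne_zero _ hρ0) hc ?_ ?_⟩
    · intro p hpS
      rw [hem, mul_one]
      have h3 := gm_par (v := v) hR hρ hr hbasic (hS p hpS).od e
      have h4 : Pq v (2 * ρ ^ 2) (Ts (fun D r : R => Gx K L q Ω e D r) (dd {p}) (kap {p})) 0 := by
        refine Pq.zero ((hbA {p} (Finset.singleton_subset_iff.mpr hpS)
          (Finset.singleton_nonempty p)).trans_lt ?_)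
        rw [Finset.card_singleton, map_mul, h2', map_pow, ← pow_add]
        exact lt_pow hρ hr (by norm_num)
      have h5 := h4.sub h3
      rwa [zero_add] at h5
    · intro W hW hcard
      rw [hem, mul_one, map_mul, map_pow, map_pow, h2', ← pow_mul, ← pow_add]
      refine lt_of_le_of_lt (v.map_sub _ _) (max_lt ?_ ?_)
      · refine (hbA W hW (Finset.card_pos.mp (by omega))).trans_lt (lt_pow hρ hr (by omega))
      · have h6 : v (∏ p ∈ W, (gm e (p : ℂ) - 1)) ≤ v ρ ^ (6 * W.card) := by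
          rw [map_prod]
          calc ∏ p ∈ W, v (gm e (p : ℂ) - 1) ≤ ∏ _p ∈ W, v ρ ^ 6 := by
                refine Finset.prod_le_prod' fun p hpW => ?_
                have h3 := (gm_par (v := v) hR hρ hr hbasic (hS p (hW hpW)).od e).le
                rwa [map_mul, h2', map_pow, ← pow_add] at h3
            _ = v ρ ^ (6 * W.card) := by rw [Finset.prod_const, ← pow_mul]
        exact h6.trans_lt (lt_pow hρ hr (by omega))
  · obtain ⟨K, hK, hK1, hK2⟩ := Gx_B hR hL hCM hq hT g2 hρ hr hbasic hfp hcnt hdec hafe m e hm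
    have hDS := ds_Gx hR hL hCM hq hT hbasic K e
    have hneg : ∀ D r : R, Pri D → Gx K L q Ω e D (-r) = Gx K L q Ω e D r := fun D r hD =>
      Gx_neg hR hL hCM hT K e hD r
    have hem : TT (fun D r : R => Gx K L q Ω e D r) ∅ = 0 := TT_empty hR hDS hK1
    have hbB : ∀ W ⊆ S, W.Nonempty → v (Ts (fun D r : R => Gx K L q Ω e D r) (dd W) (kap W) -
        ∏ p ∈ W, ((Nat.card (R ⧸ sp p) : ℂ) - 1)) < v 2 * v 2 ^ W.card := by
      intro W hW hne
      have h3 := bigB (v := v) hDS hR hneg hK2 (fun p hp => hS p (hW hp)) hne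
      rwa [rs_kap hR hbasic hDS.fin W (fun p hp => hS p (hW hp))
        (fun p hp s hs => hd p (hW hp) s (hW hs))] at h3
    refine ⟨K, 2, hK, two_ne_zero, half_par h2 hDS hR hS hd two_ne_zero hc ?_ ?_⟩
    · intro p hpS
      rw [hem, mul_zero, sub_zero]
      have h3 := card_par (v := v) hR hbasic (hS p hpS).od
      refine h3.congr ?_
      have h4 := hbB {p} (Finset.singleton_subset_iff.mpr hpS) (Finset.singleton_nonempty p)
      rwa [Finset.prod_singleton, Finset.card_singleton, pow_one, ← map_mul] at h4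
    · intro W hW hcard
      rw [hem, mul_zero, sub_zero, map_mul, map_pow]
      have e1 : Ts (fun D r : R => Gx K L q Ω e D r) (dd W) (kap W) =
          (Ts (fun D r : R => Gx K L q Ω e D r) (dd W) (kap W) -
            ∏ p ∈ W, ((Nat.card (R ⧸ sp p) : ℂ) - 1)) +
            ∏ p ∈ W, ((Nat.card (R ⧸ sp p) : ℂ) - 1) := by ring
      rw [e1]
      refine v_add_lt ?_ ?_
      · rw [mul_comm (v 2 ^ _) (v 2)]
        exact hbB W hW (Finset.card_pos.mp (by omega))
      · have h6 : v (∏ p ∈ W, ((Nat.card (R ⧸ sp p) : ℂ) - 1)) ≤ v ρ ^ (8 * W.card) := by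
          rw [map_prod]
          calc ∏ p ∈ W, v ((Nat.card (R ⧸ sp p) : ℂ) - 1) ≤ ∏ _p ∈ W, v ρ ^ 8 := by
                refine Finset.prod_le_prod' fun p hpW => ?_
                have h3 := (card_par (v := v) hR hbasic (hS p (hW hpW)).od).le
                rwa [map_mul, h2', ← pow_add] at h3
            _ = v ρ ^ (8 * W.card) := by rw [Finset.prod_const, ← pow_mul]
        refine h6.trans_lt ?_
        rw [h2', ← pow_mul, ← pow_add]
        exact lt_pow hρ hr (by omega)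

include hR hL hCM g2 hq hT in
open Classical in
/-- the character sum is not zero -/
theorem sum_ne0 (hbasic : H_BASIC) (hfp : H_FP) (hcnt : H_CNT) (hdec : H_DEC) (hafe : H_AFE)
    (e : ℕ) {S : Finset R} (hS : ∀ p ∈ S, QC p) (hd : Dst S) (hne : S.Nonempty)
    (htz : tz aa zn S = 1) :
    rs (dd S) (fun r => ((ch S r : ℤ) : ℂ) *
      ek L 0 q e (Ω / (2 + 2 * I) + Ω * r / dd S)) ≠ 0 := by
  obtain ⟨V, hV⟩ := exists_V
  obtain ⟨ρ, hρ, hr⟩ := exists_rho hV
  obtain ⟨K, β, hK, hβ, hres⟩ := TT_res hR hL hCM g2 hq hT hρ hr hbasic hfp hcnt hdec hafe e hS hd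
  have h1 := hres S (Finset.Subset.refl S) hne
  rw [htz] at h1
  have h3 := h1.ne_zero hV
  intro h4
  apply h3
  have hod := dd_od hR hS
  obtain ⟨b1, -⟩ := hbasic R I (qr hR)
  have := b1 (sp (dd S)) (by rw [Ne, Ideal.span_singleton_eq_bot]; exact hod.ne hR)
  have := Fintype.ofFinite (R ⧸ sp (dd S))
  unfold TT Ts
  rw [rs_eq] at h4 ⊢
  have hchn : ∀ w : R ⧸ sp (dd S), ch S (-w).out = ch S w.out := by
    intro w
    rw [ch_per hS (neg_out w)]
    unfold ch
    refine Finset.prod_congr rfl fun p hp => ?_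
    have h5 := (hS p hp).mul (-1) w.out
    rwa [(hS p hp).neg, one_mul, neg_one_mul] at h5
  have h5 : ∑ w : R ⧸ sp (dd S), ((ch S w.out : ℤ) : ℂ) *
      ek L 0 q e (Ω / (2 + 2 * I) - Ω * w.out / dd S) = 0 := by
    refine Eq.trans ?_ h4
    rw [← Equiv.sum_comp (Equiv.neg (R ⧸ sp (dd S))) (fun w => ((ch S w.out : ℤ) : ℂ) *
      ek L 0 q e (Ω / (2 + 2 * I) - Ω * w.out / dd S))]
    refine Finset.sum_congr rfl fun w _ => ?_
    rw [Equiv.neg_apply, hchn]
    congr 1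
    refine ek_per hq e (TD_notMem hR hL hod hT w.out) ?_
    have h6 := (lat_dm_iff hL (dd S) (hod.ne hR) _).2 ((sp (dd S)).neg_mem (neg_out w))
    convert h6 using 1
    push_cast
    ring
  have e : ∑ w : R ⧸ sp (dd S), ((ch S w.out : ℤ) : ℂ) * Gx K L q Ω e (dd S) w.out =
      K * (∑ w : R ⧸ sp (dd S), ((ch S w.out : ℤ) : ℂ) *
        ek L 0 q e (Ω / (2 + 2 * I) + Ω * w.out / dd S) + ∑ w : R ⧸ sp (dd S),
        ((ch S w.out : ℤ) : ℂ) * ek L 0 q e (Ω / (2 + 2 * I) - Ω * w.out / dd S)) := by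
    rw [← Finset.sum_add_distrib, Finset.mul_sum]
    refine Finset.sum_congr rfl fun w _ => ?_
    rw [Gx_pair hR hL hCM hT K e hod]
    ring
  beta_reduce
  rw [e, h4, h5, add_zero, mul_zero]

end main

end Pool.Agent.Helper26K9.XO
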