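import Pool.Agent.Helper26K9.XO.Hc0
import Pool.Agent.Y690.PP.Tr
import Pool.Agent.Y901.PP.Rec

/-!
# The criterion in terms of residue symbols, and finite families
-/

set_option autoImplicit false
set_option linter.unusedSectionVars false
set_option linter.unusedVariables false

open Filter IsDedekindDomain

namespace Pool.Agent.Helper26K9.XO

open H667R3 Pool.Agent.TH936.CW Pool.Agent.Y690.NV Pool.Agent.Y690.AW Pool.Agent.W192.HK
open Pool.Agent.TH936.CM (IsLat out_sub)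
open Complex (I)

section det

variable {α : Type*} [DecidableEq α] {a : α → α → ZMod 2}

/-- the criterion for one root -/
theorem kd_one {U : Finset α} (hsym : ∀ p ∈ U, ∀ l ∈ U, p ≠ l → a p l = a l p)
    (h : ∀ V ⊆ U, V.Nonempty → V ≠ U →
      (∃ p ∈ V, ∑ l ∈ U \ V, a p l = 1) ∨ (∃ p ∈ U \ V, ∑ l ∈ V, a p l = 1)) {p0 : α}
    (hp0 : p0 ∈ U) : kd a p0 U = 1 := by
  unfold kd
  refine det_one _ _ fun V hV hne => ?_
  by_contra hcon
  push Not at hcon
  obtain ⟨h1, h2⟩ := hcon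
  have key : ∀ y : ZMod 2, y ≠ 1 → y = 0 := by decide
  have h1' : ∀ p ∈ V, rt p0 p + ∑ l ∈ U \ V, a p l = 0 := fun p hp => key _ (h1 p hp)
  have h2' : ∀ p ∈ U \ V, ∑ l ∈ V, a p l = 0 := fun p hp => key _ (h2 p hp)
  have h3 : ∑ p ∈ V, rt p0 p + ∑ p ∈ V, ∑ l ∈ U \ V, a p l = 0 := by
    rw [← Finset.sum_add_distrib]
    exact Finset.sum_eq_zero h1'
  have h4 : ∑ p ∈ V, ∑ l ∈ U \ V, a p l = 0 := by
    rw [Finset.sum_comm, ← Finset.sum_eq_zero h2']
    refine Finset.sum_congr rfl fun p hp => Finset.sum_congr rfl fun l hl => ?_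
    rw [Finset.mem_sdiff] at hp
    exact hsym l (hV hl) p hp.1 fun h => hp.2 (h ▸ hl)
  rw [h4, add_zero] at h3
  have h5 : p0 ∉ V := by
    intro h5
    unfold rt at h3
    rw [Finset.sum_ite_eq' V p0, if_pos h5] at h3
    exact one_ne_zero h3
  have h6 : V ≠ U := fun h => h5 (h ▸ hp0)
  rcases h V hV hne h6 with ⟨p, hp, h7⟩ | ⟨p, hp, h7⟩
  · have h8 := h1' p hp
    have h9 : rt p0 p = 0 := by
      unfold rt
      rw [if_neg (fun h : p = p0 => h5 (h ▸ hp))]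
    rw [h9, h7, zero_add] at h8
    exact one_ne_zero h8
  · rw [h2' p hp] at h7
    exact zero_ne_one h7

/-- the criterion for the weighted number of spanning trees -/
theorem tz_one {U : Finset α} (z : α → ZMod 2)
    (hsym : ∀ p ∈ U, ∀ l ∈ U, p ≠ l → a p l = a l p)
    (h : ∀ V ⊆ U, V.Nonempty → V ≠ U →
      (∃ p ∈ V, ∑ l ∈ U \ V, a p l = 1) ∨ (∃ p ∈ U \ V, ∑ l ∈ V, a p l = 1))
    (hz : ∑ p ∈ U, z p = 1) : tz a z U = 1 := by
  unfold tz
  rw [← hz]
  refine Finset.sum_congr rfl fun p hp => ?_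
  rw [kd_one hsym h hp, mul_one]

end det

variable {R : Subring ℂ} (hR : ∀ z : ℂ, z ∈ R ↔ ∃ x y : ℤ, z = x + y * I)

include hR in
/-- quadratic reciprocity -/
lemma qs_symm {p l : R} (hp : Prime p ∧ Pri p) (hl : Prime l ∧ Pri l) : qs p l = qs l p := by
  obtain ⟨P, rfl⟩ := (Pool.Agent.Y690.PP.phi hR).surjective p
  obtain ⟨Q, rfl⟩ := (Pool.Agent.Y690.PP.phi hR).surjective l
  have h1 := (MulEquiv.prime_iff (Pool.Agent.Y690.PP.phi hR).toMulEquiv).mp hp.1
  have h2 := (MulEquiv.prime_iff (Pool.Agent.Y690.PP.phi hR).toMulEquiv).mp hl.1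
  have h3 := (Pool.Agent.Y690.PP.phi_pri hR P).mp hp.2
  have h4 := (Pool.Agent.Y690.PP.phi_pri hR Q).mp hl.2
  rw [Pool.Agent.Y690.PP.phi_qs, Pool.Agent.Y690.PP.phi_qs]
  exact Pool.Agent.Y901.PP.Rec.t_REC P Q h1 h3 h2 h4

/-- the norm of a product -/
lemma zmod_iff (n : ℕ) (h : n % 4 = 1) : n % 8 = 5 ∨ n % 8 = 1 := by omega

include hR in
open Classical in
lemma norm_prod (hbasic : H_BASIC) {S : Finset R} (hS : ∀ p ∈ S, Pri p) :
    ((∏ p ∈ S, Nat.card (R ⧸ sp p)) % 8 = 5 ∧ ∑ p ∈ S, zn p = 1) ∨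
    ((∏ p ∈ S, Nat.card (R ⧸ sp p)) % 8 = 1 ∧ ∑ p ∈ S, zn p = 0) := by
  induction S using Finset.induction_on with
  | empty =>
    right
    rw [Finset.prod_empty, Finset.sum_empty]
    exact ⟨rfl, rfl⟩
  | insert p S hp ih =>
    have h1 := ih fun x hx => hS x (Finset.mem_insert_of_mem hx)
    have hpp := hS p (Finset.mem_insert_self _ _)
    obtain ⟨a, b, hab⟩ := hpp.coe hR
    have h2 := card_form hR hbasic hpp hab
    have h3 : Nat.card (R ⧸ sp p) % 4 = 1 := by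
      set N := Nat.card (R ⧸ sp p) with hN
      have : (N : ℤ) % 4 = 1 := by rw [h2]; omega
      omega
    rw [Finset.prod_insert hp, Finset.sum_insert hp]
    rcases zmod_iff _ h3 with h4 | h4
    · have h5 : zn p = 1 := by unfold zn; rw [if_pos h4]
      rcases h1 with ⟨h6, h7⟩ | ⟨h6, h7⟩
      · right
        rw [Nat.mul_mod, h4, h6, h5, h7]
        exact ⟨rfl, by decide⟩
      · left
        rw [Nat.mul_mod, h4, h6, h5, h7]
        exact ⟨rfl, by decide⟩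
    · have h5 : zn p = 0 := by unfold zn; rw [if_neg (by omega)]
      rcases h1 with ⟨h6, h7⟩ | ⟨h6, h7⟩
      · left
        rw [Nat.mul_mod, h4, h6, h5, h7]
        exact ⟨rfl, by decide⟩
      · right
        rw [Nat.mul_mod, h4, h6, h5, h7]
        exact ⟨rfl, by decide⟩

include hR in
/-- the norm of the product of a set -/
lemma card_prod (hbasic : H_BASIC) (S : Finset R) :
    Nat.card (R ⧸ Ideal.span {∏ p ∈ S, p}) = ∏ p ∈ S, Nat.card (R ⧸ sp p) := by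
  obtain ⟨-, -, -, -, b5, -⟩ := hbasic R I (qr hR)
  have h1 : ((Nat.card (R ⧸ Ideal.span {∏ p ∈ S, p}) : ℕ) : ℝ) =
      ((∏ p ∈ S, Nat.card (R ⧸ sp p) : ℕ) : ℝ) := by
    have h2 : ((Nat.card (R ⧸ Ideal.span {∏ p ∈ S, p}) : ℕ) : ℝ) =
        Complex.normSq ((∏ p ∈ S, p : R) : ℂ) := b5 _
    rw [h2]
    push_cast
    rw [map_prod]
    exact Finset.prod_congr rfl fun p _ => (b5 p).symm
  exact_mod_cast h1

open Classical in
lemma prod_sum {S T : Finset R} (hT : T ⊆ S) {p : R} (hp : p ∈ S) (hpT : p ∉ T) (hd : Dst S)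
    (hQ : ∀ p ∈ S, QC p) (h : ∏ l ∈ T, qs l p = -1) : ∑ l ∈ T, aa p l = 1 := by
  have h2 := prod_sign T (fun l => qs l p) (fun l hl =>
    (hQ l (hT hl)).pm p (hd p hp l (hT hl) fun hpl => hpT (hpl ▸ hl)))
  rw [h2] at h
  have e : ∑ l ∈ T, aa p l = ∑ l ∈ T, (if qs l p = -1 then (1 : ZMod 2) else 0) := by
    refine Finset.sum_congr rfl fun l _ => ?_
    unfold aa
    split_ifs <;> rfl
  rw [e]
  by_contra hcon
  rw [if_neg hcon] at h
  norm_num at h

include hR in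
open Classical in
/-- the criterion in terms of symbols -/
theorem adm0_of (hbasic : H_BASIC) {S : Finset R} (hS : ∀ p ∈ S, Prime p ∧ Pri p)
    (hN : (∏ p ∈ S, Nat.card (R ⧸ sp p)) % 8 = 5)
    (h : ∀ V ⊆ S, V.Nonempty → V ≠ S → (∃ p ∈ V, ∏ l ∈ S \ V, qs l p = -1) ∨
      (∃ p ∈ S \ V, ∏ l ∈ V, qs l p = -1)) : Adm0 S := by
  have hd := dst_of hR hS
  have hQ : ∀ p ∈ S, QC p := fun p hp => mkQC hR hbasic (hS p hp).1 (hS p hp).2
  have hz : ∑ p ∈ S, zn p = 1 := by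
    rcases norm_prod hR hbasic (S := S) (fun p hp => (hS p hp).2) with h1 | h1
    · exact h1.2
    · omega
  refine ⟨hS, ?_, ?_⟩
  · rw [Finset.nonempty_iff_ne_empty]
    rintro rfl
    rw [Finset.sum_empty] at hz
    exact zero_ne_one hz
  · refine tz_one zn (fun p hp l hl hpl => ?_) (fun V hV hne hVS => ?_) hz
    · unfold aa
      rw [qs_symm hR (hS p hp) (hS l hl)]
    · rcases h V hV hne hVS with ⟨p, hp, h1⟩ | ⟨p, hp, h1⟩
      · left
        exact ⟨p, hp, prod_sum Finset.sdiff_subset (hV hp) (fun h2 =>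
          (Finset.mem_sdiff.mp h2).2 hp) hd hQ h1⟩
      · right
        rw [Finset.mem_sdiff] at hp
        exact ⟨p, Finset.mem_sdiff.mpr hp, prod_sum hV hp.1 hp.2 hd hQ h1⟩

/-! ### the characters `ψ ^ a * conj ψ ^ b` -/

lemma ch_odd (S : Finset R) (α : R) {n : ℕ} (hn : Odd n) : ch S α ^ n = ch S α := by
  unfold ch
  rw [← Finset.prod_pow]
  refine Finset.prod_congr rfl fun p _ => ?_
  rcases qs_three p α with h | h | h
  · rw [h, zero_pow hn.pos.ne']
  · rw [h, one_pow]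
  · rw [h, hn.neg_one_pow]

/-- relation of the two descriptions -/
lemma tw0_rel (hbasic : H_BASIC) {S : Finset R} {a b : ℕ}
    (hab : b ≤ a) (hodd : Odd (a + b)) (J : Ideal R) :
    tw0 hR 1 S J ^ a * (starRingEnd ℂ) (tw0 hR 1 S J) ^ b =
      tw0 hR (a - b) S J * (nm J : ℂ) ^ b := by
  by_cases hJ : ∃ α : R, α - 1 ∈ sp (ff hR) ∧ J = sp α
  · obtain ⟨α, hα, rfl⟩ := hJ
    obtain ⟨b1, b2, b3, b4, b5, b6, b7, -⟩ := hbasic R I (qr hR)
    rw [tw0_gen hR 1 S hα, tw0_gen hR _ S hα, b5, ← Complex.mul_conj, pow_one,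
      map_mul, map_intCast, mul_pow, mul_pow, mul_pow (α : ℂ)]
    have h1 : ((ch S α : ℤ) : ℂ) ^ a * ((ch S α : ℤ) : ℂ) ^ b = ((ch S α : ℤ) : ℂ) := by
      rw [← pow_add, ← Int.cast_pow, ch_odd S α hodd]
    have h2 : (α : ℂ) ^ a = (α : ℂ) ^ (a - b) * (α : ℂ) ^ b := by
      rw [← pow_add, Nat.sub_add_cancel hab]
    rw [h2]
    linear_combination ((α : ℂ) ^ (a - b) * (α : ℂ) ^ b * (starRingEnd ℂ) (α : ℂ) ^ b) * h1
  · rw [tw0_zero hR S 1 hJ, tw0_zero hR S _ hJ, zero_mul]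
    have ha : a ≠ 0 := by
      rintro rfl
      have : b = 0 := by omega
      subst this
      simp at hodd
    rw [zero_pow ha, zero_mul]

theorem single0 (hbasic : H_BASIC) (hfp : H_FP) (hcnt : H_CNT) (hdec : H_DEC) (hafe : H_AFE)
    {S : Finset R} (hS : Adm0 S) (k a b : ℕ)
    (h1 : a + b = 2 * k - 1) (hk : 1 ≤ k) : Sg1 (tw0 hR 1 S) k a b := by
  have key : ∀ a b e : ℕ, a + b = 2 * k - 1 → a = b + (2 * e + 1) → Sg1 (tw0 hR 1 S) k a b := by
    intro a b e h1 h2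
    obtain ⟨hHC, F, hF1, hF2, hF3⟩ := tw0_main hR hbasic hfp hcnt hdec hafe hS (dst_of hR hS.1) e
    have hke : k = e + 1 + b := by omega
    have hodd : Odd (a + b) := ⟨k - 1, by omega⟩
    have hab : a - b = 2 * e + 1 := by omega
    obtain ⟨b1, b2, b3, b4, b5, b6, b7, -⟩ := hbasic R I (qr hR)
    have hbot : tw0 hR (2 * e + 1) S ⊥ = 0 := (hHC.zero ⊥).2 (Or.inl rfl)
    refine ⟨fun s => F (s - b), by fun_prop, fun s hs => ?_, ?_⟩
    · have hz' : ((e + 1 : ℕ) : ℝ) + 1 / 2 < (s - b).re := by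
        rw [Complex.sub_re, Complex.natCast_re]
        rw [hke] at hs
        push_cast at hs ⊢
        linarith
      have h6 : (fun J : Ideal R => tw0 hR 1 S J ^ a * (starRingEnd ℂ) (tw0 hR 1 S J) ^ b *
          (nm J : ℂ) ^ (-s)) = fun J : Ideal R => tw0 hR (2 * e + 1) S J *
          (nm J : ℂ) ^ (-(s - b)) := by
        funext J
        rw [tw0_rel hR hbasic (by omega) hodd, hab]
        by_cases hI : J = ⊥
        · rw [hI, hbot, zero_mul, zero_mul, zero_mul]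
        · have h7 : (nm J : ℂ) ≠ 0 := by
            have h8 := b3 J hI
            have : nm J ≠ 0 := by linarith
            exact_mod_cast this
          have h8 : (nm J : ℂ) ^ (-(s - b)) = (nm J : ℂ) ^ (-s) * (nm J : ℂ) ^ b := by
            rw [show -(s - (b : ℂ)) = -s + b by ring, Complex.cpow_add _ _ h7,
              Complex.cpow_natCast]
          rw [h8]
          ring
      rw [h6]
      exact hF2 (s - b) hz'
    · have h7 : (k : ℂ) - b = ((e + 1 : ℕ) : ℂ) := by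
        rw [hke]
        push_cast
        ring
      simp only
      rw [h7]
      exact hF3
  rcases lt_or_ge b a with h2 | h2
  · obtain ⟨e, he⟩ : ∃ e, a = b + (2 * e + 1) := ⟨(a - b - 1) / 2, by omega⟩
    exact key a b e h1 he
  · obtain ⟨e, he⟩ : ∃ e, b = a + (2 * e + 1) := ⟨(b - a - 1) / 2, by omega⟩
    exact (key b a e (by omega) he).swap

/-- **Finite direct sums.** -/
theorem family0 (hbasic : H_BASIC) (hfp : H_FP) (hcnt : H_CNT) (hdec : H_DEC) (hafe : H_AFE)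
    (n : ℕ) {S : Fin n → Finset R} (hS : ∀ i, Adm0 (S i)) (k : ℕ) (hk : 1 ≤ k)
    (a b : Fin n → ℕ) (hab : ∀ i, a i + b i = 2 * k - 1) :
    ∃ L : ℂ → ℂ, Differentiable ℂ L ∧
      (∀ s : ℂ, (k : ℝ) + 1 / 2 < s.re → HasProd (fun v : HeightOneSpectrum R =>
        ∏ i, (1 - tw0 hR 1 (S i) v.asIdeal ^ a i * (starRingEnd ℂ) (tw0 hR 1 (S i) v.asIdeal) ^ b i *
          (nm v.asIdeal : ℂ) ^ (-s))⁻¹) (L s)) ∧
      L (k : ℂ) ≠ 0 := by
  have h1 : ∀ i, Sg1 (tw0 hR 1 (S i)) k (a i) (b i) := fun i =>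
    single0 hR hbasic hfp hcnt hdec hafe (hS i) k (a i) (b i) (hab i) hk
  choose F hF1 hF2 hF3 using h1
  have hHC := fun i => (tw0_main hR hbasic hfp hcnt hdec hafe (hS i) (dst_of hR (hS i).1) 0).1
  have hbot : ∀ i, tw0 hR 1 (S i) ⊥ = 0 := fun i => ((hHC i).zero ⊥).2 (Or.inl rfl)
  have htop : ∀ i, tw0 hR 1 (S i) ⊤ = 1 := by
    intro i
    have h3 := (hHC i).princ 1 one_ne_zero (by
      rw [sub_self]; exact (sp (ff hR * dd (S i))).zero_mem)
    rwa [sp, Ideal.span_singleton_one, Subring.coe_one, one_pow] at h3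
  refine ⟨fun s => ∏ i, F i s, ?_, fun s hs => ?_, ?_⟩
  · exact Differentiable.fun_finsetProd fun i _ => hF1 i
  · refine hasProd_prod fun i _ => ?_
    refine euler_one hbasic (qr hR) (hbot i) (htop i) (hHC i).mul ?_ s _ (hF2 i s hs)
    have := hab i
    omega
  · exact Finset.prod_ne_zero_iff.mpr fun i _ => hF3 i

end Pool.Agent.Helper26K9.XO
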