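import Pool.Agent.Y690.W.Near
import Pool.Agent.Y690.X.Val2

/-!
# Residues of the coordinates of the points of odd order
-/

set_option autoImplicit false
set_option linter.unusedSectionVars false

open scoped PeriodPair

namespace Pool.Agent.Helper26K9.XO

open H667R3 Pool.Agent.TH936.CW Pool.Agent.Y690.NV
open Pool.Agent.Y690.AW (N1 two_lt)

lemma N1_inv {Γ : Type*} [LinearOrderedCommGroupWithZero Γ] {v : Valuation ℂ Γ} {a : ℂ}
    (h : N1 v a) : N1 v a⁻¹ := by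
  have h1 := h.val
  have ha : a ≠ 0 := by
    rintro rfl
    rw [map_zero] at h1
    exact zero_ne_one h1
  unfold N1
  have e : a⁻¹ - 1 = -(a - 1) * a⁻¹ := by
    field_simp
    ring
  rw [e, map_mul, Valuation.map_neg, map_inv₀, h1, inv_one, mul_one]
  exact h

variable {L : PeriodPair} (hL : CM L) (g2 : L.g₂ = -1) {Γ : Type*}
  [LinearOrderedCommGroupWithZero Γ] {v : Valuation ℂ Γ} {ρ : ℂ} (hρ : ρ ^ 4 = 2) (hr : v ρ < 1)

include hL g2 hρ hr in
theorem N1_eta {z : ℂ} (hz : OT L z) : N1 v (℘'[L] z) := by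
  have h2 := two_lt hρ hr
  have hp := rho_pos (v := v) hρ
  have hρ0 : ρ ≠ 0 := by
    rintro rfl
    norm_num at hρ
  have hs := Xi_sub (v := v) hL g2 hρ hr hz
  have hc := curve hL g2 hz.1
  have hw : v ((Xi L z - 1) / ρ ^ 3) = 1 := by
    rw [map_div₀, map_pow, hs, div_self (pow_ne_zero _ hp.ne')]
  set w : ℂ := (Xi L z - 1) / ρ ^ 3 with hwd
  have hX : Xi L z = 1 + ρ ^ 3 * w := by
    rw [hwd]
    field_simp
    ring
  refine N1.of_sq h2 ?_
  unfold N1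
  have e : ℘'[L] z ^ 2 - 1 = ρ ^ 2 * (w * (ρ ^ 3 * w ^ 2 + 3 * w + ρ ^ 5)) := by
    rw [hX] at hc
    have h3 : (2 : ℂ) * (℘'[L] z ^ 2 - 1) = 2 * (ρ ^ 2 * (w * (ρ ^ 3 * w ^ 2 + 3 * w + ρ ^ 5))) := by
      linear_combination hc + (ρ ^ 5 * w ^ 3 + 3 * ρ ^ 2 * w ^ 2 - 2 * ρ ^ 3 * w) * hρ
    exact mul_left_cancel₀ two_ne_zero h3
  have h31 : v (3 : ℂ) ≤ 1 := by exact_mod_cast v_nat v 3
  have hρk : ∀ k : ℕ, v (ρ ^ k) ≤ 1 := fun k => by rw [map_pow]; exact pow_le_one' hr.le k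
  rw [e, map_mul, map_mul, hw, one_mul]
  refine mul_lt_one_of_lt_of_le ?_ ?_
  · rw [map_pow]; exact pow_lt_one' hr two_ne_zero
  · refine (v.map_add _ _).trans (max_le ((v.map_add _ _).trans (max_le ?_ ?_)) (hρk 5))
    · rw [map_mul, map_pow v w, hw, one_pow, mul_one]; exact hρk 3
    · rw [map_mul, hw, mul_one]; exact h31

include hL g2 hρ hr in
theorem N1_sig {z : ℂ} (hz : OT L z) : N1 v (ρ ^ 3 / (Xi L z - 1)) := by
  have h2 := two_lt hρ hr
  have hp := rho_pos (v := v) hρ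
  have hρ0 : ρ ≠ 0 := by
    rintro rfl
    norm_num at hρ
  have hs := Xi_sub (v := v) hL g2 hρ hr hz
  have hs2 := Xi_sub (v := v) hL g2 hρ hr hz.two
  have hc := curve hL g2 hz.1
  have hd := dup hL g2 hz.two.1
  have hη := N1_eta hL g2 hρ hr hz
  have hw : v ((Xi L z - 1) / ρ ^ 3) = 1 := by
    rw [map_div₀, map_pow, hs, div_self (pow_ne_zero _ hp.ne')]
  set w : ℂ := (Xi L z - 1) / ρ ^ 3 with hwd
  have hX : Xi L z = 1 + ρ ^ 3 * w := by
    rw [hwd]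
    field_simp
    ring
  have hX2 : N1 v (Xi L (2 * z)) := by
    unfold N1
    rw [hs2]
    exact pow_lt_one' hr (by norm_num)
  have e1 : (w * (w + ρ)) ^ 2 = Xi L (2 * z) * ℘'[L] z ^ 2 := by
    have h3 : (8 : ℂ) * (w * (w + ρ)) ^ 2 = 8 * (Xi L (2 * z) * ℘'[L] z ^ 2) := by
      have h4 : Xi L (2 * z) * (8 * ℘'[L] z ^ 2) = (Xi L z ^ 2 - 1) ^ 2 := by
        rw [← hd]
        linear_combination 4 * Xi L (2 * z) * hc
      rw [hX] at h4
      have h5 : (1 + ρ ^ 3 * w) ^ 2 - 1 = ρ ^ 6 * (w * (w + ρ)) := by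
        linear_combination (-(ρ ^ 3 * w)) * hρ
      rw [h5] at h4
      have h6 : ρ ^ 12 = 8 := by
        have : ρ ^ 12 = (ρ ^ 4) ^ 3 := by ring
        rw [this, hρ]; norm_num
      linear_combination -h4 - (w * (w + ρ)) ^ 2 * h6
    exact mul_left_cancel₀ (by norm_num) h3
  have h3 : N1 v (w * (w + ρ)) := by
    refine N1.of_sq h2 ?_
    rw [e1]
    exact hX2.mul (hη.pow 2)
  have h4 : N1 v (w ^ 2) := by
    have e : w ^ 2 = w * (w + ρ) + -(ρ * w) := by ring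
    rw [e]
    refine h3.add ?_
    rw [Valuation.map_neg, map_mul, hw, mul_one]
    exact hr
  have h5 := N1_inv (N1.of_sq h2 h4)
  have e : ρ ^ 3 / (Xi L z - 1) = w⁻¹ := by
    rw [hwd, inv_div]
  rw [e]
  exact h5

end Pool.Agent.Helper26K9.XO
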