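import Pool.Agent.Y690.X.Main

/-!
# The root number of the powers of the Hecke character of `y² = x³ - x`
-/

set_option autoImplicit false
set_option linter.unusedSectionVars false

open Filter
open scoped Topology PeriodPair

namespace Pool.Agent.Helper26K9.XO

open H667R3 Pool.Agent.TH936.CW Pool.Agent.W192.HK Pool.Agent.Y690.NV
open Pool.Agent.TH936.CM (IsLat out_sub)
open Pool.Agent.W192.CM (ez nu)
open Pool.Agent.W192.CY (Vk)

open Complex (I)

variable {R : Subring ℂ} (hR : ∀ z : ℂ, z ∈ R ↔ ∃ x y : ℤ, z = x + y * I)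

/-! ### complex conjugation on the ring and its ideals -/

include hR in
lemma conj_mem {z : ℂ} (hz : z ∈ R) : (starRingEnd ℂ) z ∈ R := by
  obtain ⟨x, y, rfl⟩ := (hR z).mp hz
  refine (hR _).mpr ⟨x, -y, ?_⟩
  simp only [map_add, map_mul, map_intCast, Complex.conj_I]
  push_cast
  ring

/-- complex conjugation on `R` -/
noncomputable def cj (r : R) : R := ⟨(starRingEnd ℂ) (r : ℂ), conj_mem hR r.2⟩

lemma cj_coe (r : R) : ((cj hR r : R) : ℂ) = (starRingEnd ℂ) (r : ℂ) := rfl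

lemma cj_cj (r : R) : cj hR (cj hR r) = r := Subtype.ext (by
  rw [cj_coe, cj_coe, Complex.conj_conj])

/-- complex conjugation as a ring isomorphism -/
noncomputable def cjE : R ≃+* R where
  toFun := cj hR
  invFun := cj hR
  left_inv := cj_cj hR
  right_inv := cj_cj hR
  map_mul' a b := Subtype.ext (by
    rw [cj_coe]
    push_cast
    rw [map_mul]
    rfl)
  map_add' a b := Subtype.ext (by
    rw [cj_coe]
    push_cast
    rw [map_add]
    rfl)

lemma cjE_apply (r : R) : cjE hR r = cj hR r := rfl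

/-- complex conjugation on ideals -/
noncomputable def cI (J : Ideal R) : Ideal R := J.map (cjE hR : R →+* R)

lemma cI_sp (α : R) : cI hR (sp α) = sp (cj hR α) := by
  unfold cI
  rw [Ideal.map_span, Set.image_singleton]
  rfl

lemma cI_cI (J : Ideal R) : cI hR (cI hR J) = J := by
  unfold cI
  rw [Ideal.map_map]
  have : ((cjE hR : R →+* R).comp (cjE hR : R →+* R)) = RingHom.id R := by
    ext r
    exact congrArg Subtype.val (cj_cj hR r)
  rw [this, Ideal.map_id]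

/-- complex conjugation on ideals as an equivalence -/
noncomputable def cIE : Ideal R ≃ Ideal R where
  toFun := cI hR
  invFun := cI hR
  left_inv := cI_cI hR
  right_inv := cI_cI hR

lemma nm_cI (J : Ideal R) : nm (cI hR J) = nm J := by
  unfold nm
  congr 1
  exact Nat.card_congr (Ideal.quotientEquiv J (cI hR J) (cjE hR) rfl).toEquiv.symm

lemma cj_ff {α : R} (h : α - 1 ∈ sp (ff hR)) : cj hR α - 1 ∈ sp (ff hR) := by
  rw [Ideal.mem_span_singleton'] at h ⊢
  obtain ⟨c, hc⟩ := h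
  refine ⟨-(ii hR) * cj hR c, Subtype.ext ?_⟩
  have h1 : (starRingEnd ℂ) ((c * ff hR : R) : ℂ) = (starRingEnd ℂ) ((α - 1 : R) : ℂ) :=
    congrArg (fun r : R => (starRingEnd ℂ) (r : ℂ)) hc
  push_cast at h1 ⊢
  rw [cj_coe, cj_coe, ff_coe, ii_coe]
  rw [ff_coe] at h1
  simp only [map_mul, map_add, map_sub, map_one, map_ofNat, Complex.conj_I] at h1
  linear_combination h1 - 2 * (starRingEnd ℂ) (c : ℂ) * Complex.I_sq

lemma th0_cI (n : ℕ) (J : Ideal R) : th0 hR n (cI hR J) = (starRingEnd ℂ) (th0 hR n J) := by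
  by_cases h : ∃ α : R, J = sp α ∧ α - 1 ∈ sp (ff hR)
  · obtain ⟨α, rfl, hα⟩ := h
    rw [cI_sp, th0_gen hR n hα, th0_gen hR n (cj_ff hR hα), cj_coe, map_pow]
  · have h' : ¬ ∃ α : R, cI hR J = sp α ∧ α - 1 ∈ sp (ff hR) := by
      rintro ⟨α, h1, h2⟩
      refine h ⟨cj hR α, ?_, cj_ff hR h2⟩
      rw [← cI_sp, ← h1, cI_cI]
    rw [th0_zero hR n (fun h1 => h ((gen_iff hR J).mpr h1)),
      th0_zero hR n (fun h1 => h' ((gen_iff hR _).mpr h1)), map_zero]

/-- the sums are real -/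
lemma real_sum (n m : ℕ) (X : ℝ) :
    (starRingEnd ℂ) (∑' J : Ideal R, th0 hR n J / (nm J : ℂ) ^ m * (Vk m (nm J / X) : ℂ)) =
      ∑' J : Ideal R, th0 hR n J / (nm J : ℂ) ^ m * (Vk m (nm J / X) : ℂ) := by
  rw [Complex.conj_tsum, ← (cIE hR).tsum_eq]
  refine tsum_congr fun J => ?_
  have e1 : (cIE hR) J = cI hR J := rfl
  rw [e1, th0_cI, nm_cI, map_mul, map_div₀, map_pow, Complex.conj_ofReal, Complex.conj_ofReal,
    Complex.conj_conj]

/-! ### the Gauss sum -/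

lemma ez_per {x y : R} (h : x - y ∈ sp (ff hR)) :
    ez I ((x : ℂ) / ((ff hR : R) : ℂ)) = ez I ((y : ℂ) / ((ff hR : R) : ℂ)) := by
  rw [Ideal.mem_span_singleton'] at h
  obtain ⟨c, hc⟩ := h
  obtain ⟨a, b, rfl⟩ := exists_xy hR c
  have h0 : ((ff hR : R) : ℂ) ≠ 0 := by rw [ff_coe]; exact one_ne
  have h1 : (x : ℂ) / ((ff hR : R) : ℂ) = (y : ℂ) / ((ff hR : R) : ℂ) + ((a : ℂ) + b * I) := by
    have h2 : ((mkz hR a b * ff hR : R) : ℂ) = ((x - y : R) : ℂ) :=
      congrArg (fun r : R => (r : ℂ)) hc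
    push_cast at h2
    rw [mkz_coe] at h2
    field_simp
    linear_combination -h2
  rw [h1]
  unfold ez
  rw [Complex.exp_eq_exp_iff_exists_int]
  refine ⟨b, ?_⟩
  simp only [Complex.add_im, Complex.intCast_im, Complex.mul_im, Complex.intCast_re,
    Complex.I_im, Complex.I_re]
  push_cast
  ring

lemma ez_val {z : ℂ} (h : z.im = -1 / 4) : ez I z = -I := by
  unfold ez
  rw [h, Complex.I_im]
  have : (2 : ℂ) * Real.pi * I * (((-1 / 4 : ℝ) / 1 : ℝ) : ℂ) = -(Real.pi / 2 * I) := by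
    push_cast; ring
  rw [this, Complex.exp_neg, Complex.exp_pi_div_two_mul_I, Complex.inv_I]

lemma ez_val' {z : ℂ} (h : z.im = 1 / 4) : ez I z = I := by
  unfold ez
  rw [h, Complex.I_im]
  have : (2 : ℂ) * Real.pi * I * (((1 / 4 : ℝ) / 1 : ℝ) : ℂ) = Real.pi / 2 * I := by
    push_cast; ring
  rw [this, Complex.exp_pi_div_two_mul_I]

lemma inv_ff : (1 : ℂ) / (2 + 2 * I) = 1 / 4 - 1 / 4 * I := by
  rw [div_eq_iff one_ne]
  linear_combination (1 / 2 : ℂ) * Complex.I_sq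

lemma ez_unit : ez I (((1 : R) : ℂ) / ((ff hR : R) : ℂ)) = -I ∧
    ez I (((ii hR : R) : ℂ) / ((ff hR : R) : ℂ)) = I ∧
    ez I (((ii hR ^ 2 : R) : ℂ) / ((ff hR : R) : ℂ)) = I ∧
    ez I (((ii hR ^ 3 : R) : ℂ) / ((ff hR : R) : ℂ)) = -I := by
  have e1 : ∀ z : ℂ, z / ((ff hR : R) : ℂ) = z * (1 / 4 - 1 / 4 * I) := by
    intro z
    rw [ff_coe, ← inv_ff]
    ring
  refine ⟨ez_val ?_, ez_val' ?_, ez_val' ?_, ez_val ?_⟩
  · rw [e1]
    have : ((1 : R) : ℂ) * (1 / 4 - 1 / 4 * I) = ((1 / 4 : ℝ) : ℂ) + ((-1 / 4 : ℝ) : ℂ) * I := by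
      push_cast; ring
    rw [this]
    simp
  · rw [e1, ii_coe]
    have : I * (1 / 4 - 1 / 4 * I) = ((1 / 4 : ℝ) : ℂ) + ((1 / 4 : ℝ) : ℂ) * I := by
      push_cast; linear_combination (-1 / 4 : ℂ) * Complex.I_sq
    rw [this]
    simp
  · rw [e1]
    have : ((ii hR ^ 2 : R) : ℂ) * (1 / 4 - 1 / 4 * I) =
        ((-1 / 4 : ℝ) : ℂ) + ((1 / 4 : ℝ) : ℂ) * I := by
      push_cast
      rw [ii_coe, Complex.I_sq]; ring
    rw [this]
    simp
  · rw [e1]
    have : ((ii hR ^ 3 : R) : ℂ) * (1 / 4 - 1 / 4 * I) =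
        ((-1 / 4 : ℝ) : ℂ) + ((-1 / 4 : ℝ) : ℂ) * I := by
      push_cast
      rw [ii_coe, Complex.I_pow_three]
      linear_combination (1 / 4 : ℂ) * Complex.I_sq
    rw [this]
    simp

/-- sums over a system of representatives -/
lemma sum_units {T : Finset R} (hT : Rp (sp (ff hR)) ⊤ T) {f : R → ℂ}
    (hper : ∀ a b : R, a - b ∈ sp (ff hR) → f a = f b)
    (h0 : ∀ r, ¬ IsCoprime (sp r) (sp (ff hR)) → f r = 0) :
    ∑ x ∈ T, f x = f 1 + f (ii hR) + f (ii hR ^ 2) + f (ii hR ^ 3) := by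
  have hex : ∀ j : Fin 4, ∃ x, x ∈ T ∧ ii hR ^ (j : ℕ) - x ∈ sp (ff hR) := fun j =>
    (hT.uni (ii hR ^ (j : ℕ))).exists
  choose g hg1 hg2 using hex
  have key : ∑ j : Fin 4, f (ii hR ^ (j : ℕ)) = ∑ x ∈ T, f x := by
    refine Finset.sum_of_injOn g ?_ (fun j _ => Finset.mem_coe.mpr (hg1 j)) ?_ ?_
    · intro j _ k _ hjk
      have h1 := (sp (ff hR)).sub_mem (hg2 j) (hg2 k)
      rw [hjk, sub_sub_sub_cancel_right] at h1
      have h4 : ii hR ^ (((j : ℕ) + (4 - (k : ℕ))) % 4) - 1 ∈ sp (ff hR) := by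
        have h5 := (sp (ff hR)).mul_mem_left (ii hR ^ (4 - (k : ℕ))) h1
        rw [← ii_pow_mod]
        convert h5 using 1
        rw [mul_sub, ← pow_add, ← pow_add, add_comm, show 4 - (k : ℕ) + (k : ℕ) = 4 by
          have := k.2; omega, ii4]
      have h5 := ii_pow_eq hR (Nat.mod_lt _ (by norm_num)) h4
      apply Fin.ext
      have := j.2
      have := k.2
      omega
    · intro x hx hxr
      by_contra hf
      have hc : IsCoprime (sp (x : R)) (sp (ff hR)) := by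
        by_contra h
        exact hf (h0 _ h)
      obtain ⟨j, hj, hj2⟩ := cop_unit hR hc
      apply hxr
      refine ⟨⟨(4 - j) % 4, Nat.mod_lt _ (by norm_num)⟩, by simp, ?_⟩
      refine (hT.uni (ii hR ^ ((4 - j) % 4))).unique
        ⟨hg1 _, hg2 ⟨(4 - j) % 4, Nat.mod_lt _ (by norm_num)⟩⟩ ⟨hx, ?_⟩
      have h1 := (sp (ff hR)).mul_mem_left (-(ii hR ^ (4 - j))) hj2
      rw [← ii_pow_mod]
      convert h1 using 1
      have h4 : ii hR ^ (4 - j) * ii hR ^ j = 1 := by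
        rw [← pow_add, show 4 - j + j = 4 by omega, ii4]
      linear_combination x * h4
    · intro j _
      exact hper _ _ (hg2 j)
  rw [← key, Fin.sum_univ_four]
  simp

include hR in
/-- the value of the Gauss sum -/
theorem Wc_neg (hbasic : H_BASIC) (hfp : H_FP) {m e : ℕ} (he : e = 4 * m + 2 ∨ e = 4 * m + 3)
    {T : Finset R} (hT : Rp (sp (ff hR)) ⊤ T) :
    Wc I (e + 1) (sp (ff hR)) ⊤ (ff hR) T (th0 hR (2 * e + 1)) = -1 := by
  have hodd : Odd (2 * e + 1) := ⟨e, rfl⟩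
  have h0 := hc_th0 hR hodd
  obtain ⟨b1, b2, b3, b4, b5, b6, b7, -, -⟩ := hbasic R I (qr hR)
  have hqt : sp (ff hR) ≠ ⊤ := fun h => one_notMem hR (by rw [h]; exact Submodule.mem_top)
  obtain ⟨f1, f2, f3, f4, f5⟩ := hfp R I (qr hR) (2 * e + 1) (sp (ff hR)) _ h0 hqt
  have hnm : nm (sp (ff hR)) = 8 := by
    rw [b5, ff_coe, Complex.normSq_apply]
    simp
    norm_num
  have hunit : ∀ j : ℕ, th0 hR (2 * e + 1) (sp (ii hR ^ j)) = 1 := by
    intro j
    have h1 := sp_ii hR j (1 : R)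
    rw [mul_one] at h1
    rw [h1, th0_gen hR _ (by rw [sub_self]; exact (sp _).zero_mem)]
    push_cast
    rw [one_pow]
  have hfj : ∀ j : ℕ, fp (2 * e + 1) (th0 hR (2 * e + 1)) (ii hR ^ j) =
      1 / (I ^ j) ^ (2 * e + 1) := by
    intro j
    unfold fp
    rw [hunit]
    push_cast
    rw [ii_coe]
  obtain ⟨z0, z1, z2, z3⟩ := ez_unit hR
  have hsum : gT I (2 * e + 1) (th0 hR (2 * e + 1)) (ff hR) T =
      2 * I * (1 / I ^ (2 * e + 1) - 1) := by
    unfold gT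
    rw [sum_units hR hT (f := fun x => fp (2 * e + 1) (th0 hR (2 * e + 1)) x *
      ez I ((x : ℂ) / ((ff hR : R) : ℂ)))]
    · have g0 := hfj 0
      have g1 := hfj 1
      have g2 := hfj 2
      have g3 := hfj 3
      rw [pow_zero] at g0
      rw [pow_one] at g1
      rw [g0, g1, g2, g3, z0, z1, z2, z3, Complex.I_sq, Complex.I_pow_three, hodd.neg_one_pow,
        hodd.neg_pow]
      have hI : I ^ (2 * e + 1) ≠ 0 := pow_ne_zero _ Complex.I_ne_zero
      rw [pow_zero, one_pow, pow_one]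
      field_simp
      ring
    · intro a b hab
      rw [f5 a b hab, ez_per hR hab]
    · intro r hr
      rw [(f3 r).mpr hr, zero_mul]
  have htop : th0 hR (2 * e + 1) ⊤ = 1 := by
    have := hunit 0
    rw [pow_zero] at this
    have h2 : sp (1 : R) = ⊤ := Ideal.span_singleton_one
    rwa [h2] at this
  unfold Wc
  rw [show 2 * (e + 1) - 1 = 2 * e + 1 by omega, hsum, htop, hnm, ff_coe, mul_one]
  have h2 : (2 + 2 * I : ℂ) ^ 2 = 8 * I := by linear_combination (4 : ℂ) * Complex.I_sq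
  have h8 : (2 + 2 * I : ℂ) ^ (2 * e + 1) = 8 ^ e * I ^ e * (2 + 2 * I) := by
    rw [pow_succ, pow_mul, h2, mul_pow]
  rw [h8]
  push_cast
  have h80 : (8 : ℂ) ^ e ≠ 0 := pow_ne_zero _ (by norm_num)
  have hI4 : I ^ (4 * m) = 1 := by rw [pow_mul, Complex.I_pow_four, one_pow]
  have hI8 : I ^ (8 * m) = 1 := by
    rw [show 8 * m = 4 * (2 * m) by ring, pow_mul, Complex.I_pow_four, one_pow]
  have hI1 := Complex.I_ne_zero
  rcases he with rfl | rfl
  · have e1 : I ^ (2 * (4 * m + 2) + 1) = I := by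
      rw [show 2 * (4 * m + 2) + 1 = 8 * m + (4 + 1) by ring, pow_add, hI8, pow_add,
        Complex.I_pow_four]
      ring
    have e2 : I ^ (4 * m + 2) = -1 := by
      rw [pow_add, hI4, Complex.I_sq]; ring
    rw [e1, e2, one_div, Complex.inv_I]
    rw [div_eq_iff (pow_ne_zero _ (by norm_num)), pow_succ]
    linear_combination (8 ^ (4 * m + 2) * (8 + 4 * I)) * Complex.I_sq
  · have e1 : I ^ (2 * (4 * m + 3) + 1) = -I := by
      rw [show 2 * (4 * m + 3) + 1 = 8 * m + (4 + 3) by ring, pow_add, hI8, pow_add,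
        Complex.I_pow_four, Complex.I_pow_three]
      ring
    have e2 : I ^ (4 * m + 3) = -I := by
      rw [pow_add, hI4, Complex.I_pow_three]; ring
    rw [e1, e2, one_div, inv_neg, Complex.inv_I]
    rw [div_eq_iff (pow_ne_zero _ (by norm_num)), pow_succ]
    linear_combination (-(8 ^ (4 * m + 3) * (4 * I ^ 2 - 8))) * Complex.I_sq

include hR in
/-- two entire functions with the same Dirichlet series -/
lemma uni_entire {θ : Ideal R → ℂ} {c : ℝ} {F G : ℂ → ℂ} (hF : Differentiable ℂ F)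
    (hG : Differentiable ℂ G)
    (hF2 : ∀ z : ℂ, c < z.re → HasSum (fun J : Ideal R => θ J * (nm J : ℂ) ^ (-z)) (F z))
    (hG2 : ∀ z : ℂ, c < z.re → HasSum (fun J : Ideal R => θ J * (nm J : ℂ) ^ (-z)) (G z)) :
    F = G := by
  have h1 : AnalyticOnNhd ℂ F Set.univ := fun z _ => hF.analyticAt z
  have h2 : AnalyticOnNhd ℂ G Set.univ := fun z _ => hG.analyticAt z
  refine h1.eq_of_eventuallyEq h2 (z₀ := ((c + 1 : ℝ) : ℂ)) ?_
  have h3 : IsOpen {z : ℂ | c < z.re} := isOpen_lt continuous_const Complex.continuous_re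
  refine Filter.eventuallyEq_of_mem (h3.mem_nhds (by
    show c < ((c + 1 : ℝ) : ℂ).re
    rw [Complex.ofReal_re]
    linarith)) fun z hz => ?_
  exact (hF2 z hz).unique (hG2 z hz)

include hR in
/-- **the vanishing of the base value** -/
theorem ek_T_zero (hbasic : H_BASIC) (hfp : H_FP) (hcnt : H_CNT) (hdec : H_DEC) (hafe : H_AFE)
    {L : PeriodPair} {Ω q : ℂ} (hL : IsLat L R Ω) (hCM : CM L)
    (hq : ∀ l ∈ L.lattice, eta L l = 0 * l + q * (starRingEnd ℂ) l)
    (hT : TP L q 1 (Ω / (2 + 2 * I))) {m e : ℕ} (he : e = 4 * m + 2 ∨ e = 4 * m + 3) :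
    ek L 0 q e (Ω / (2 + 2 * I)) = 0 := by
  classical
  by_contra hne
  obtain ⟨b1, b2, b3, b4, b5, b6, b7, -, -⟩ := hbasic R I (qr hR)
  have hodd : Odd (2 * e + 1) := ⟨e, rfl⟩
  have h0 := hc_th0 hR hodd
  have hfin : Finite (R ⧸ sp (1 : R)) := b1 _ (by
    rw [Ne, Ideal.span_singleton_eq_bot]
    exact one_ne_zero)
  have := Fintype.ofFinite (R ⧸ sp (1 : R))
  have hHC : HC (2 * e + 1) (sp (ff hR * 1)) (th0 hR (2 * e + 1)) := by
    rw [mul_one]
    exact h0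
  obtain ⟨F, hF1, hF2, hF3⟩ := nonvan hR hbasic hfp hcnt hdec hafe hL hCM hq one_ne_zero
    (π := 1) (by rw [sub_self]; exact (sp _).zero_mem) hHC (χ := fun _ => 1)
    (fun r hr => by rw [th0_gen hR _ hr, mul_one]) (fun r => map_one _) (by
      have hTL : Ω / (2 + 2 * I) ∉ L.lattice := two_mul_notMem_of L hT.nm
      have h1 : ∀ w : R ⧸ sp (1 : R), (1 : ℂ) * ek L 0 q e (Ω / (2 + 2 * I) + Qw Ω 1 w) =
          ek L 0 q e (Ω / (2 + 2 * I)) := by
        intro w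
        rw [one_mul]
        refine ek_per hq e hTL ?_
        rw [add_sub_cancel_left]
        unfold Qw
        have : Ω * (w.out : R) / ((1 : R) : ℂ) = Ω * (w.out : R) := by
          have h3 : ((1 : R) : ℂ) = 1 := rfl
          rw [h3, div_one]
        rw [this]
        exact hL.mem_mul _
      rw [Finset.sum_congr rfl (fun w _ => h1 w), Finset.sum_const, Finset.card_univ,
        nsmul_eq_mul]
      refine mul_ne_zero ?_ hne
      exact_mod_cast Fintype.card_ne_zero)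
  have := b1 (sp (ff hR)) (by rw [Ne, Ideal.span_singleton_eq_bot]; exact ff_ne hR)
  have := Fintype.ofFinite (R ⧸ sp (ff hR))
  obtain ⟨T, hS⟩ := sys_one hR (ff_ne hR)
  obtain ⟨G, hG1, hG2, hG3⟩ := hafe R I (qr hR) (e + 1) (Nat.succ_le_succ (Nat.zero_le _))
    (sp (ff hR)) (th0 hR (2 * e + 1)) h0 {⊤} ⊤ (ff hR) T hS
  have hFG : F = G := uni_entire hR hF1 hG1 hF2 hG2
  apply hF3
  rw [hFG]
  have hnm : nm (sp (ff hR)) = 8 := by
    rw [b5, ff_coe, Complex.normSq_apply]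
    simp
    norm_num
  have hpi := Real.pi_pos
  have h8 : (0 : ℝ) < Real.sqrt 8 := Real.sqrt_pos.mpr (by norm_num)
  have h1 := hG3 (Real.sqrt 8 / Real.pi) (Real.sqrt 8 / Real.pi) (by positivity) (by positivity)
    (by
      rw [hnm, Complex.I_im, div_mul_div_comm, Real.mul_self_sqrt (by norm_num)]
      ring)
  rw [Wc_neg hR hbasic hfp he hS.rp] at h1
  have h2 : ∑' J : Ideal R, (starRingEnd ℂ) (th0 hR (2 * e + 1) J) / (nm J : ℂ) ^ (e + 1) *
      (Vk (e + 1) (nm J / (Real.sqrt 8 / Real.pi)) : ℂ) =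
      ∑' J : Ideal R, th0 hR (2 * e + 1) J / (nm J : ℂ) ^ (e + 1) *
      (Vk (e + 1) (nm J / (Real.sqrt 8 / Real.pi)) : ℂ) := by
    rw [← real_sum hR, Complex.conj_tsum]
    refine tsum_congr fun J => ?_
    rw [map_mul, map_div₀, map_pow, Complex.conj_ofReal, Complex.conj_ofReal]
  rw [h2] at h1
  rw [h1]
  ring

end Pool.Agent.Helper26K9.XO
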