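import Pool.Agent.Y690.X.Scale

/-!
# The columns of the recursion modulo `(R ^ 4, 2)`
-/

set_option autoImplicit false
set_option linter.unusedSimpArgs false
set_option linter.unusedSectionVars false

namespace Pool.Agent.Helper26K9.XO

open MvPolynomial Finset Pool.Agent.Y690.NV

/-- the ideals `(R ^ n, 2)` -/
noncomputable def Ii (n : ℕ) : Ideal Q5 := Ideal.span {qR ^ n, 2}

lemma mem_Ii {n : ℕ} {p : Q5} : p ∈ Ii n ↔ ∃ a b : Q5, a * qR ^ n + b * 2 = p :=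
  Ideal.mem_span_pair

lemma mem_pow (n : ℕ) (a : Q5) : qR ^ n * a ∈ Ii n :=
  mem_Ii.mpr ⟨a, 0, by ring⟩

lemma mem_two (n : ℕ) (a : Q5) : 2 * a ∈ Ii n :=
  mem_Ii.mpr ⟨0, a, by ring⟩

lemma dq_two : dq 2 = 0 := by
  have h := dq.map_natCast 2
  push_cast at h
  exact h

lemma dq_one : dq 1 = 0 := Derivation.map_one_eq_zero _

lemma dq_mem {n : ℕ} {p : Q5} (h : p ∈ Ii n) : dq p ∈ Ii n := by
  obtain ⟨a, b, rfl⟩ := mem_Ii.mp h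
  refine mem_Ii.mpr ⟨dq a, dq b, ?_⟩
  rw [map_add, Q_mul, Q_mul, Q_pow, dq_R, dq_two]
  ring

lemma Gq_n1 (n : ℕ) : Gq (n + 2) 1 = dq (Gq (n + 1) 1) - qf * Gq (n + 1) 0 +
    (n + 1) ^ 2 * (qθ * Gq n 1) := Gq_ns n 0

lemma Gq_n2 (n : ℕ) : Gq (n + 2) 2 = dq (Gq (n + 1) 2) - qf * Gq (n + 1) 1 +
    (n + 1) ^ 2 * (qθ * Gq n 2) := Gq_ns n 1

lemma Gq_n3 (n : ℕ) : Gq (n + 2) 3 = dq (Gq (n + 1) 3) - qf * Gq (n + 1) 2 +
    (n + 1) ^ 2 * (qθ * Gq n 3) := Gq_ns n 2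

lemma Gq_01 : Gq 0 1 = 0 := Gq_0s 0

/-- `1 + B + B (η + x y) ^ 2` -/
noncomputable def qψ : Q5 := 1 + qB + qB * (qh + qx * qy) ^ 2

lemma dq_f : dq qf - qR ^ 2 * qψ ∈ Ii 4 := by
  refine mem_Ii.mpr ⟨2 * qy * qh + qx + 5 * qB * qx + qB * qx * qy ^ 2 + (-1) * qB ^ 2 * qx +
    qR ^ 2 * qy ^ 2 + 2 * qR ^ 2 * qB * qx * qy * qh + 4 * qR ^ 2 * qB * qx ^ 2 +
    qR ^ 2 * qB ^ 2 * qx ^ 2 + qR ^ 4 * qx * qy ^ 2 + 2 * qR ^ 4 * qB ^ 2 * qx ^ 3,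
    (-1) * qR ^ 2 * qB * qh ^ 2 + qR ^ 2 * qB * qx ^ 2 * qy ^ 2, ?_⟩
  have h1 : dq qf = (1 + qR ^ 2 * qx) * (qB * (qR ^ 2 * dq qx) + qR ^ 2 * qx * dq qB) +
      (1 + qB * (qR ^ 2 * qx)) * (qR ^ 2 * dq qx) + qR ^ 2 * (qy * dq qh + qh * dq qy) := by
    conv_lhs => unfold qf
    rw [map_add, Q_mul (1 + qR ^ 2 * qx), map_add, map_add, dq_one, Q_mul qB, dq_R2, dq_R2,
      Q_mul qy]
    ring
  rw [h1, dq_x, dq_B, dq_y, dq_h]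
  unfold qψ qf
  ring

lemma dq_ψ : dq qψ ∈ Ii 2 := by
  refine mem_Ii.mpr ⟨qB + 3 * qB * qh ^ 2 + 2 * qB * qy ^ 2 * qh ^ 2 + 6 * qB * qx * qy * qh +
    2 * qB * qx * qy ^ 3 * qh + 3 * qB * qx ^ 2 * qy ^ 2 + (-2) * qB ^ 2 + (-2) * qB ^ 2 * qh ^ 2 +
    (-2) * qB ^ 2 * qx * qy * qh + 2 * qR ^ 2 * qB * qy * qh + 2 * qR ^ 2 * qB * qx * qy ^ 2 +
    2 * qR ^ 2 * qB ^ 2 * qx ^ 2 * qy * qh + 2 * qR ^ 2 * qB ^ 2 * qx ^ 3 * qy ^ 2 +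
    2 * qR ^ 4 * qB * qx * qy * qh + 2 * qR ^ 4 * qB * qx ^ 2 * qy ^ 2,
    qB * qy * qh + qB * qx * qy ^ 2 + 2 * qB ^ 2 * qx * qh ^ 2 + 4 * qB ^ 2 * qx ^ 2 * qy * qh +
    2 * qB ^ 2 * qx ^ 3 * qy ^ 2, ?_⟩
  have h1 : dq qψ = dq qB + (qB * (2 * (qh + qx * qy) * (dq qh + (qx * dq qy + qy * dq qx))) +
      (qh + qx * qy) ^ 2 * dq qB) := by
    unfold qψ
    rw [map_add, map_add, dq_one, Q_mul qB, Q_pow, map_add, Q_mul qx]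
    push_cast
    ring
  rw [h1, dq_x, dq_B, dq_y, dq_h]
  unfold qf
  ring

/-- the derivative of a power of `B` -/
lemma dq_Bk (k : ℕ) : dq (qB ^ k) = qR ^ 2 * (k * qB ^ k * (1 - 2 * qB)) := by
  rw [Q_pow, dq_B]
  rcases k with _ | k
  · push_cast; ring
  · rw [Nat.add_sub_cancel]
    ring

/-- the joint statement -/
def St (k : ℕ) : Prop :=
  Gq (2 * k) 0 - qB ^ k ∈ Ii 4 ∧ Gq (2 * k + 1) 0 - k * (qR ^ 2 * qB ^ k) ∈ Ii 4 ∧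
  qB * Gq (2 * k) 1 - k * (qR ^ 2 * (qB ^ k * qψ)) ∈ Ii 4 ∧ dq (Gq (2 * k) 1) ∈ Ii 4 ∧
  Gq (2 * k + 1) 1 - qB ^ k * qf ∈ Ii 4

lemma mem_of {n : ℕ} {p q : Q5} (h : q ∈ Ii n) (e : ∃ a b : Q5, p - q = a * qR ^ n + b * 2) :
    p ∈ Ii n := by
  obtain ⟨a, b, hab⟩ := e
  have h1 : p = q + (a * qR ^ n + b * 2) := by rw [← hab]; ring
  rw [h1]
  exact (Ii n).add_mem h (mem_Ii.mpr ⟨a, b, rfl⟩)

lemma f_one : ∃ w : Q5, qf = 1 + qR ^ 2 * w :=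
  ⟨qx + qB * qx + qB * (qR ^ 2 * qx ^ 2) + qy * qh, by unfold qf; ring⟩

lemma St_all (k : ℕ) : St k := by
  induction k with
  | zero =>
    refine ⟨?_, ?_, ?_, ?_, ?_⟩
    · rw [mul_zero, Gq_00, pow_zero, sub_self]; exact (Ii 4).zero_mem
    · rw [mul_zero, zero_add, Gq_10]
      push_cast
      rw [zero_mul, sub_zero]; exact (Ii 4).zero_mem
    · rw [mul_zero, Gq_01]
      push_cast
      rw [zero_mul, mul_zero, sub_zero]; exact (Ii 4).zero_mem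
    · rw [mul_zero, Gq_01, map_zero]; exact (Ii 4).zero_mem
    · rw [mul_zero, zero_add, Gq_11, pow_zero, one_mul]
      exact mem_Ii.mpr ⟨0, -qf, by ring⟩
  | succ k ih =>
    obtain ⟨i0, i1, i2, i3, i4⟩ := ih
    have hn : ((2 * k : ℕ) : Q5) = 2 * k := by push_cast; ring
    have hn' : ((2 * k + 1 : ℕ) : Q5) = 2 * k + 1 := by push_cast; ring
    obtain ⟨w, hw⟩ := f_one
    -- the first column, even
    have d1 : dq (Gq (2 * k + 1) 0) ∈ Ii 4 := by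
      have h1 := dq_mem i1
      rw [map_sub, Q_mul, dq_R2, dq_Bk, Derivation.map_natCast] at h1
      refine mem_of h1 ⟨k * (k * qB ^ k * (1 - 2 * qB)), 0, by ring⟩
    have j0 : Gq (2 * (k + 1)) 0 - qB ^ (k + 1) ∈ Ii 4 := by
      rw [show 2 * (k + 1) = 2 * k + 2 by ring, Gq_n0, hn]
      refine mem_of ((Ii 4).add_mem d1 ((Ii 4).mul_mem_left qB i0))
        ⟨0, -(qB ^ 2 * Gq (2 * k) 0) + (2 * (k ^ 2 + k)) * (qθ * Gq (2 * k) 0), ?_⟩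
      unfold qθ
      ring
    -- the first column, odd
    have j1 : Gq (2 * (k + 1) + 1) 0 - ((k + 1 : ℕ) : Q5) * (qR ^ 2 * qB ^ (k + 1)) ∈ Ii 4 := by
      have h1 := dq_mem j0
      rw [map_sub, dq_Bk] at h1
      rw [show 2 * (k + 1) + 1 = (2 * k + 1) + 2 by ring, Gq_n0, hn',
        show 2 * k + 1 + 1 = 2 * (k + 1) by ring]
      refine mem_of h1 ⟨0, -(((k + 1 : ℕ) : Q5) * qR ^ 2 * qB ^ (k + 1) * qB) +
        2 * (k + 1) ^ 2 * (qθ * Gq (2 * k + 1) 0), ?_⟩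
      push_cast
      ring
    -- the second column, even
    have d3 : dq (Gq (2 * k + 1) 1) - (qB ^ k * (qR ^ 2 * qψ) + qf * (k * (qR ^ 2 * qB ^ k))) ∈
        Ii 4 := by
      have h1 := dq_mem i4
      rw [map_sub, Q_mul, dq_Bk] at h1
      refine mem_of ((Ii 4).add_mem h1 ((Ii 4).mul_mem_left (qB ^ k) dq_f))
        ⟨0, -(qf * (qR ^ 2 * (k * qB ^ k * qB))), ?_⟩
      ring
    have hG : Gq (2 * (k + 1)) 1 = dq (Gq (2 * k + 1) 1) - qf * Gq (2 * k + 1) 0 +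
        (2 * k + 1) ^ 2 * (qθ * Gq (2 * k) 1) := by
      rw [show 2 * (k + 1) = 2 * k + 2 by ring, Gq_n1, hn]
    have j2' : Gq (2 * (k + 1)) 1 - (qB ^ k * (qR ^ 2 * qψ) + qB * Gq (2 * k) 1) ∈ Ii 4 := by
      rw [hG]
      refine mem_of ((Ii 4).add_mem d3 ((Ii 4).mul_mem_left (-qf) i1))
        ⟨0, -(qB ^ 2 * Gq (2 * k) 1) + (2 * (k ^ 2 + k)) * (qθ * Gq (2 * k) 1), ?_⟩
      unfold qθ
      ring
    have j2 : qB * Gq (2 * (k + 1)) 1 - ((k + 1 : ℕ) : Q5) * (qR ^ 2 * (qB ^ (k + 1) * qψ)) ∈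
        Ii 4 := by
      refine mem_of ((Ii 4).add_mem ((Ii 4).mul_mem_left qB j2') ((Ii 4).mul_mem_left qB i2))
        ⟨0, 0, ?_⟩
      push_cast
      ring
    have j3 : dq (Gq (2 * (k + 1)) 1) ∈ Ii 4 := by
      have h1 := dq_mem j2'
      obtain ⟨a, b, hab⟩ := mem_Ii.mp dq_ψ
      obtain ⟨c, hc⟩ := (col1 (2 * k)).1 (even_two_mul k)
      rw [map_sub, map_add, Q_mul (qB ^ k), dq_R2, dq_Bk, Q_mul qB, dq_B, hc, ← hab] at h1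
      rw [hc] at i3
      refine mem_of ((Ii 4).add_mem h1 ((Ii 4).mul_mem_left qB i3))
        ⟨qB ^ k * a + qψ * (k * qB ^ k * (1 - 2 * qB)) + c * (qB - 2 * qB ^ 2),
          qB ^ k * qR ^ 2 * b, ?_⟩
      ring
    have j4 : Gq (2 * (k + 1) + 1) 1 - qB ^ (k + 1) * qf ∈ Ii 4 := by
      rw [show 2 * (k + 1) + 1 = (2 * k + 1) + 2 by ring, Gq_n1, hn',
        show 2 * k + 1 + 1 = 2 * (k + 1) by ring]
      refine mem_of ((Ii 4).add_mem j3 ((Ii 4).mul_mem_left (-qf) j0))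
        ⟨0, -(qB ^ (k + 1) * qf) + 2 * (k + 1) ^ 2 * (qθ * Gq (2 * k + 1) 1), ?_⟩
      ring
    exact ⟨j0, j1, j2, j3, j4⟩

/-- all entries are constant modulo `(R ^ 2, 2)` -/
lemma dq_all (n : ℕ) : (∀ j, dq (Gq n j) ∈ Ii 2) ∧ ∀ j, dq (Gq (n + 1) j) ∈ Ii 2 := by
  have hf : dq qf ∈ Ii 2 := by
    obtain ⟨w, hw⟩ := dvd_df
    rw [hw]
    exact mem_pow 2 w
  have hθ : dq qθ ∈ Ii 2 := by
    obtain ⟨w, hw⟩ := dvd_dθ
    rw [hw]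
    exact mem_pow 2 w
  induction n with
  | zero =>
    refine ⟨fun j => ?_, fun j => ?_⟩
    · rcases j with _ | j
      · rw [Gq_00, dq_one]; exact (Ii 2).zero_mem
      · rw [Gq_0s, map_zero]; exact (Ii 2).zero_mem
    · rw [zero_add]
      rcases j with _ | _ | j
      · rw [Gq_10, map_zero]; exact (Ii 2).zero_mem
      · rw [Gq_11, map_neg]; exact (Ii 2).neg_mem hf
      · rw [Gq_1s, map_zero]; exact (Ii 2).zero_mem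
  | succ n ih =>
    obtain ⟨h1, h2⟩ := ih
    refine ⟨h2, fun j => ?_⟩
    have e : ∀ x : Q5, ((n : Q5) + 1) ^ 2 * x = (((n + 1) ^ 2 : ℕ) : Q5) * x := by
      intro x; push_cast; ring
    rcases j with _ | j
    · rw [show n + 1 + 1 = n + 2 from rfl, Gq_n0, e, map_add, Q_mul, Derivation.map_natCast,
        mul_zero, add_zero, Q_mul]
      exact (Ii 2).add_mem (dq_mem (h2 0)) ((Ii 2).mul_mem_left _ ((Ii 2).add_mem
        ((Ii 2).mul_mem_left _ (h1 0)) ((Ii 2).mul_mem_left _ hθ)))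
    · rw [show n + 1 + 1 = n + 2 from rfl, Gq_ns, e, map_add, map_sub, Q_mul qf,
        Q_mul (((n + 1) ^ 2 : ℕ) : Q5), Derivation.map_natCast, mul_zero, add_zero, Q_mul qθ]
      exact (Ii 2).add_mem ((Ii 2).sub_mem (dq_mem (h2 (j + 1))) ((Ii 2).add_mem
        ((Ii 2).mul_mem_left _ (h2 j)) ((Ii 2).mul_mem_left _ hf)))
        ((Ii 2).mul_mem_left _ ((Ii 2).add_mem
        ((Ii 2).mul_mem_left _ (h1 (j + 1))) ((Ii 2).mul_mem_left _ hθ)))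

/-- the third column, odd entries -/
lemma col2_odd (m : ℕ) : Gq (2 * m + 1) 2 ∈ Ii 2 := by
  rcases m with _ | m
  · rw [mul_zero, zero_add, Gq_1s]; exact (Ii 2).zero_mem
  · have hn' : ((2 * m + 1 : ℕ) : Q5) = 2 * m + 1 := by push_cast; ring
    obtain ⟨c, hc⟩ := (col1 (2 * m + 2)).1 (by rw [show 2 * m + 2 = 2 * (m + 1) by ring]; exact even_two_mul _)
    rw [show 2 * (m + 1) + 1 = (2 * m + 1) + 2 by ring, Gq_n2, hn',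
      show 2 * m + 1 + 1 = 2 * m + 2 from rfl, hc]
    refine mem_of ((dq_all (2 * m + 2)).1 2) ⟨-(qf * c), 2 * (m + 1) ^ 2 * (qθ * Gq (2 * m + 1) 2), ?_⟩
    ring

/-- the sum of two even entries -/
theorem sum0 (m : ℕ) : ∃ a b : Q5, Gq (4 * m + 2) 0 + Gq (4 * m) 0 = qR ^ 4 * a + 2 * b +
    (1 + qθ) * ((4 * m + 1) ^ 2 * Gq (4 * m) 0) := by
  obtain ⟨-, i1, -, -, -⟩ := St_all (2 * m)
  have h1 := dq_mem i1
  rw [show 2 * (2 * m) + 1 = 4 * m + 1 by ring, map_sub, Q_mul, dq_R2, dq_Bk,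
    Derivation.map_natCast] at h1
  obtain ⟨a, b, hab⟩ := mem_Ii.mp h1
  have hn : ((4 * m : ℕ) : Q5) = 4 * m := by push_cast; ring
  rw [Gq_n0, hn]
  refine ⟨a + ((2 * m : ℕ) : Q5) * (((2 * m : ℕ) : Q5) * qB ^ (2 * m) * (1 - 2 * qB)), b - (4 * m * (2 * m + 1)) * Gq (4 * m) 0, ?_⟩
  linear_combination -hab

theorem sum1 (m : ℕ) : ∃ a b : Q5, Gq (4 * m + 2) 1 + Gq (4 * m) 1 = qR ^ 4 * a + 2 * b +
    (1 + qθ) * ((4 * m + 1) ^ 2 * Gq (4 * m) 1) + qR ^ 2 * (qB ^ (2 * m) * qψ) := by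
  obtain ⟨-, i1, -, -, i4⟩ := St_all (2 * m)
  have h1 := dq_mem i4
  rw [show 2 * (2 * m) + 1 = 4 * m + 1 by ring] at i1 h1
  rw [map_sub, Q_mul, dq_Bk] at h1
  obtain ⟨a, b, hab⟩ := mem_Ii.mp h1
  obtain ⟨a', b', hab'⟩ := mem_Ii.mp i1
  obtain ⟨a2, b2, hab2⟩ := mem_Ii.mp dq_f
  have hn : ((4 * m : ℕ) : Q5) = 4 * m := by push_cast; ring
  rw [Gq_n1, hn]
  refine ⟨a - qf * a' + qB ^ (2 * m) * a2, b - qf * b' + qB ^ (2 * m) * b2 +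
    qf * (qR ^ 2 * (m * qB ^ (2 * m) * (1 - 2 * qB))) - qf * (m * (qR ^ 2 * qB ^ (2 * m))) -
    (4 * m * (2 * m + 1)) * Gq (4 * m) 1, ?_⟩
  push_cast at hab hab'
  linear_combination -hab + qf * hab' - qB ^ (2 * m) * hab2

theorem sum3 (m : ℕ) : ∃ a b : Q5, Gq (4 * m + 2) 3 + Gq (4 * m) 3 = qR ^ 2 * a + 2 * b +
    (1 + qθ) * ((4 * m + 1) ^ 2 * Gq (4 * m) 3) := by
  obtain ⟨a, b, hab⟩ := mem_Ii.mp ((dq_all (4 * m + 1)).1 3)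
  have h2 := col2_odd (2 * m)
  rw [show 2 * (2 * m) + 1 = 4 * m + 1 by ring] at h2
  obtain ⟨a', b', hab'⟩ := mem_Ii.mp h2
  have hn : ((4 * m : ℕ) : Q5) = 4 * m := by push_cast; ring
  rw [Gq_n3, hn]
  refine ⟨a - qf * a', b - qf * b' - (4 * m * (2 * m + 1)) * Gq (4 * m) 3, ?_⟩
  linear_combination -hab + qf * hab'

theorem odd1 (m : ℕ) : ∃ a b : Q5, Gq (2 * m + 1) 1 = qR ^ 2 * a + 2 * b + qB ^ m := by
  obtain ⟨-, -, -, -, i4⟩ := St_all m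
  obtain ⟨a, b, hab⟩ := mem_Ii.mp i4
  obtain ⟨w, hw⟩ := f_one
  refine ⟨qR ^ 2 * a + qB ^ m * w, b, ?_⟩
  rw [hw] at hab
  linear_combination -hab

end Pool.Agent.Helper26K9.XO
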