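import Pool.Agent.Y690.W.Near
import Pool.Agent.Helper26K9.XO.Cols

/-!
# The exact estimate in the weight classes with vanishing base value
-/

set_option autoImplicit false
set_option linter.unusedSimpArgs false
set_option linter.unusedSectionVars false

namespace Pool.Agent.Helper26K9.XO

open MvPolynomial Finset Pool.Agent.Y690.NV
open Pool.Agent.Y690.AW (N1 two_lt)

section est

variable {Γ : Type*} [LinearOrderedCommGroupWithZero Γ] {v : Valuation ℂ Γ} {ρ : ℂ}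
  (hρ : ρ ^ 4 = 2) (hr : v ρ < 1) {ξ η ε : ℂ}

/-- the terms of the scaled solution -/
noncomputable def tm (ρ ξ η ε : ℂ) (n j : ℕ) : ℂ :=
  ρ ^ 2 * ((j.factorial : ℂ) * ((ρ ^ 2 / (ξ - 1)) ^ (j + 1) * eq5 ρ ξ η ε (Gq n j)))

/-- the scaled solution -/
noncomputable def Sn (ρ ξ η ε : ℂ) (n : ℕ) : ℂ := ∑ j ∈ range (n + 1), tm ρ ξ η ε n j

lemma tm_big {n j : ℕ} (h : n < j) : tm ρ ξ η ε n j = 0 := by
  unfold tm
  rw [(Gq_big n).1 j h, map_zero]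
  ring

lemma Sn_split (n : ℕ) : Sn ρ ξ η ε n = (∑ j ∈ range n, tm ρ ξ η ε n (j + 4)) +
    tm ρ ξ η ε n 3 + tm ρ ξ η ε n 2 + tm ρ ξ η ε n 1 + tm ρ ξ η ε n 0 := by
  have h1 : Sn ρ ξ η ε n = ∑ j ∈ range (n + 4), tm ρ ξ η ε n j := by
    unfold Sn
    refine sum_subset (range_mono (by omega)) fun j _ hj => tm_big ?_
    rw [mem_range] at hj
    omega
  rw [h1, sum_range_succ', sum_range_succ', sum_range_succ', sum_range_succ']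

include hρ in
lemma rho_ne : ρ ≠ 0 := by
  rintro rfl
  norm_num at hρ

include hρ hr in
lemma lt_pow {a b : ℕ} (h : a < b) : v ρ ^ b < v ρ ^ a :=
  pow_lt_pow_right_of_lt_one₀ (rho_pos hρ) hr h

lemma le_mul_of {k : ℕ} {x w : ℂ} (h : x = ρ ^ k * w) (hw : v w ≤ 1) : v x ≤ v ρ ^ k := by
  rw [h, map_mul, map_pow]
  exact mul_le_of_le_one_right' hw

variable (hy : v (ρ ^ 2 * ε) ≤ 1) (hη : N1 v η) (h3 : v (ξ - 1) = v ρ ^ 3)
  (hσ : N1 v (ρ ^ 3 / (ξ - 1)))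

include hρ h3 in
lemma xi_ne : ξ - 1 ≠ 0 := by
  intro h
  rw [h, map_zero] at h3
  exact (pow_pos (rho_pos (v := v) hρ) 3).ne h3

include hρ h3 in
lemma tm0 (n : ℕ) : tm ρ ξ η ε n 0 = ρ * ((ρ ^ 3 / (ξ - 1)) * eq5 ρ ξ η ε (Gq n 0)) := by
  have h0 := rho_ne hρ
  have h1 := xi_ne hρ h3
  unfold tm
  rw [Nat.factorial_zero]
  push_cast
  field_simp

include hρ h3 in
lemma tm1 (n : ℕ) : tm ρ ξ η ε n 1 = (ρ ^ 3 / (ξ - 1)) ^ 2 * eq5 ρ ξ η ε (Gq n 1) := by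
  have h0 := rho_ne hρ
  have h1 := xi_ne hρ h3
  unfold tm
  rw [Nat.factorial_one]
  push_cast
  field_simp

include hρ h3 in
lemma tm2 (n : ℕ) : tm ρ ξ η ε n 2 =
    ρ ^ 3 * ((ρ ^ 3 / (ξ - 1)) ^ 3 * eq5 ρ ξ η ε (Gq n 2)) := by
  have h0 := rho_ne hρ
  have h1 := xi_ne hρ h3
  unfold tm
  rw [show (2 : ℕ).factorial = 2 from rfl]
  push_cast
  rw [← hρ]
  field_simp

include hρ h3 in
lemma tm3 (n : ℕ) : tm ρ ξ η ε n 3 =
    ρ ^ 2 * (3 * ((ρ ^ 3 / (ξ - 1)) ^ 4 * eq5 ρ ξ η ε (Gq n 3))) := by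
  have h0 := rho_ne hρ
  have h1 := xi_ne hρ h3
  unfold tm
  rw [show (3 : ℕ).factorial = 6 from rfl]
  push_cast
  rw [show (6 : ℂ) = 3 * ρ ^ 4 by rw [hρ]; norm_num]
  field_simp

include hρ hr hy hη h3 in
lemma tm_le (n j : ℕ) (hj : 4 ≤ j) : v (tm ρ ξ η ε n j) < v ρ ^ 2 := by
  have hx := hx_of hρ hr h3
  have hT := vT hρ h3
  have hg := eq5_le hr hx hy hη.val.le (Gq n j)
  have hf := v_fac2 hρ hr hj
  unfold tm
  rw [map_mul, map_mul, map_mul, map_pow, map_pow]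
  refine lt_of_le_of_lt (b := v ρ ^ (2 + (j + 1))) ?_ (lt_pow hρ hr (by omega))
  calc v ρ ^ 2 * (v (j.factorial : ℂ) * (v (ρ ^ 2 / (ξ - 1)) ^ (j + 1) *
        v (eq5 ρ ξ η ε (Gq n j))))
      ≤ v ρ ^ 2 * (v ρ ^ (2 * (j + 1)) * (v (ρ ^ 2 / (ξ - 1)) ^ (j + 1) * 1)) := by gcongr
    _ = v ρ ^ (2 + (j + 1)) * (v ρ * v (ρ ^ 2 / (ξ - 1))) ^ (j + 1) := by
        have e : v ρ ^ (2 * (j + 1)) = v ρ ^ (j + 1) * v ρ ^ (j + 1) := by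
          rw [← pow_add]; congr 1; omega
        rw [e, pow_add (v ρ) 2 (j + 1), mul_pow, mul_one]
        simp only [mul_assoc]
    _ = v ρ ^ (2 + (j + 1)) := by rw [hT, one_pow, mul_one]

include hρ hr hy hη h3 in
lemma Sn_le (n : ℕ) : v (Sn ρ ξ η ε n) ≤ 1 :=
  v.map_sum_le fun j _ => (term_le hρ hr hy hη.val.le h3 n j).1

lemma eq5_θ : eq5 ρ ξ η ε qθ = -1 := by
  unfold qθ
  rw [map_sub, map_mul, map_pow, map_ofNat, eq5_B]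
  norm_num

lemma eq5_R4 (hρ : ρ ^ 4 = 2) (a b : Q5) : eq5 ρ ξ η ε (qR ^ 4 * a + 2 * b) =
    ρ ^ 4 * (eq5 ρ ξ η ε a + eq5 ρ ξ η ε b) := by
  rw [map_add, map_mul, map_mul, map_pow, eq5_R, map_ofNat, ← hρ]
  ring

lemma eq5_R2 (hρ : ρ ^ 4 = 2) (a b : Q5) : eq5 ρ ξ η ε (qR ^ 2 * a + 2 * b) =
    ρ ^ 2 * (eq5 ρ ξ η ε a + ρ ^ 2 * eq5 ρ ξ η ε b) := by
  rw [map_add, map_mul, map_mul, map_pow, eq5_R, map_ofNat, ← hρ]
  ring

lemma v_add_le {a b : ℂ} {g : Γ} (ha : v a ≤ g) (hb : v b ≤ g) : v (a + b) ≤ g :=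
  (v.map_add _ _).trans (max_le ha hb)

lemma v_add_lt {a b : ℂ} {g : Γ} (ha : v a < g) (hb : v b < g) : v (a + b) < g :=
  (v.map_add _ _).trans_lt (max_lt ha hb)

lemma v_mul_le {a b : ℂ} (ha : v a ≤ 1) (hb : v b ≤ 1) : v (a * b) ≤ 1 := by
  rw [map_mul]
  exact mul_le_one' ha hb

include hρ hr hy hη h3 in
lemma psi_one : N1 v (eq5 ρ ξ η ε qψ) := by
  have h2 := two_lt hρ hr
  have hx : v (ρ ^ 2 / 2 * (ξ - 1)) < 1 := by
    have hp := rho_pos (v := v) hρ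
    have h : v (ρ ^ 2 / 2 * (ξ - 1)) = v ρ := by
      rw [map_mul, map_div₀, map_pow, v_two hρ, h3]
      field_simp
    rw [h]
    exact hr
  have hu : N1 v (η + ρ ^ 2 / 2 * (ξ - 1) * (ρ ^ 2 * ε)) := by
    refine hη.add ?_
    rw [map_mul]
    exact mul_lt_one_of_lt_of_le hx hy
  unfold qψ
  simp only [map_add, map_mul, map_one, map_pow, eq5_B, eq5_x, eq5_y, eq5_h, one_mul]
  have e : ∀ u : ℂ, 1 + 1 + u = u + 2 := fun u => by ring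
  rw [e]
  exact (hu.pow 2).add h2

include hρ hr hy hη h3 hσ in
/-- the sum of two even terms -/
theorem Sn_even (m : ℕ) :
    v (Sn ρ ξ η ε (4 * m + 2) + Sn ρ ξ η ε (4 * m) - ρ ^ 2) < v ρ ^ 2 := by
  have hx := hx_of hρ hr h3
  have hle : ∀ p : Q5, v (eq5 ρ ξ η ε p) ≤ 1 := eq5_le hr hx hy hη.val.le
  have hσ1 := hσ.val.le
  obtain ⟨a0, b0, e0⟩ := sum0 m
  obtain ⟨a1, b1, e1⟩ := sum1 m
  obtain ⟨a3, b3, e3⟩ := sum3 m
  have f0 := congrArg (eq5 ρ ξ η ε) e0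
  have f1 := congrArg (eq5 ρ ξ η ε) e1
  have f3 := congrArg (eq5 ρ ξ η ε) e3
  rw [map_add, map_add (eq5 ρ ξ η ε) (qR ^ 4 * a0 + 2 * b0), eq5_R4 hρ, map_mul _ (1 + qθ),
    map_add _ 1 qθ, map_one, eq5_θ, add_neg_cancel, zero_mul, add_zero] at f0
  rw [map_add, map_add (eq5 ρ ξ η ε) (qR ^ 4 * a1 + 2 * b1 + _),
    map_add (eq5 ρ ξ η ε) (qR ^ 4 * a1 + 2 * b1), eq5_R4 hρ, map_mul _ (1 + qθ),
    map_add _ 1 qθ, map_one, eq5_θ, add_neg_cancel, zero_mul, add_zero, map_mul _ (qR ^ 2),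
    map_mul _ (qB ^ (2 * m)), map_pow, map_pow, eq5_R, eq5_B, one_pow, one_mul] at f1
  rw [map_add, map_add (eq5 ρ ξ η ε) (qR ^ 2 * a3 + 2 * b3), eq5_R2 hρ, map_mul _ (1 + qθ),
    map_add _ 1 qθ, map_one, eq5_θ, add_neg_cancel, zero_mul, add_zero] at f3
  rw [Sn_split, Sn_split, tm0 hρ h3, tm0 hρ h3, tm1 hρ h3, tm1 hρ h3, tm2 hρ h3, tm2 hρ h3,
    tm3 hρ h3, tm3 hρ h3]
  set σ : ℂ := ρ ^ 3 / (ξ - 1) with hσd
  have big : ∀ n : ℕ, v (∑ j ∈ range n, tm ρ ξ η ε n (j + 4)) < v ρ ^ 2 := fun n =>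
    Valuation.map_sum_lt v (pow_pos (rho_pos hρ) 2).ne'
      fun j _ => tm_le hρ hr hy hη h3 n (j + 4) (by omega)
  have s3 : ∀ x : ℂ, v x ≤ 1 → v (ρ ^ 3 * (σ ^ 3 * x)) < v ρ ^ 2 := fun x hx =>
    (le_mul_of rfl (v_mul_le (by rw [map_pow]; exact pow_le_one' hσ1 3) hx)).trans_lt
      (lt_pow hρ hr (by norm_num))
  have key : (∑ j ∈ range (4 * m + 2), tm ρ ξ η ε (4 * m + 2) (j + 4)) +
      ρ ^ 2 * (3 * (σ ^ 4 * eq5 ρ ξ η ε (Gq (4 * m + 2) 3))) +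
      ρ ^ 3 * (σ ^ 3 * eq5 ρ ξ η ε (Gq (4 * m + 2) 2)) +
      σ ^ 2 * eq5 ρ ξ η ε (Gq (4 * m + 2) 1) + ρ * (σ * eq5 ρ ξ η ε (Gq (4 * m + 2) 0)) +
      ((∑ j ∈ range (4 * m), tm ρ ξ η ε (4 * m) (j + 4)) +
      ρ ^ 2 * (3 * (σ ^ 4 * eq5 ρ ξ η ε (Gq (4 * m) 3))) +
      ρ ^ 3 * (σ ^ 3 * eq5 ρ ξ η ε (Gq (4 * m) 2)) +
      σ ^ 2 * eq5 ρ ξ η ε (Gq (4 * m) 1) + ρ * (σ * eq5 ρ ξ η ε (Gq (4 * m) 0))) - ρ ^ 2 =
      (∑ j ∈ range (4 * m + 2), tm ρ ξ η ε (4 * m + 2) (j + 4)) +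
      (∑ j ∈ range (4 * m), tm ρ ξ η ε (4 * m) (j + 4)) +
      ρ ^ 3 * (σ ^ 3 * eq5 ρ ξ η ε (Gq (4 * m + 2) 2)) +
      ρ ^ 3 * (σ ^ 3 * eq5 ρ ξ η ε (Gq (4 * m) 2)) +
      ρ ^ 4 * (3 * (σ ^ 4 * (eq5 ρ ξ η ε a3 + ρ ^ 2 * eq5 ρ ξ η ε b3))) +
      ρ ^ 5 * (σ * (eq5 ρ ξ η ε a0 + eq5 ρ ξ η ε b0)) +
      ρ ^ 4 * (σ ^ 2 * (eq5 ρ ξ η ε a1 + eq5 ρ ξ η ε b1)) +
      ρ ^ 2 * (σ ^ 2 * eq5 ρ ξ η ε qψ - 1) := by
    linear_combination 3 * ρ ^ 2 * σ ^ 4 * f3 + σ ^ 2 * f1 + ρ * σ * f0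
  rw [key]
  have hρ1 : v (ρ ^ 2) ≤ 1 := by rw [map_pow]; exact pow_le_one' hr.le 2
  have h31 : v (3 : ℂ) ≤ 1 := by exact_mod_cast v_nat v 3
  have hσk : ∀ k : ℕ, v (σ ^ k) ≤ 1 := fun k => by rw [map_pow]; exact pow_le_one' hσ1 k
  refine v_add_lt (v_add_lt (v_add_lt (v_add_lt (v_add_lt (v_add_lt (v_add_lt (big _) (big _))
    (s3 _ (hle _))) (s3 _ (hle _))) ?_) ?_) ?_) ?_
  · refine (le_mul_of rfl ?_).trans_lt (lt_pow hρ hr (by norm_num))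
    exact v_mul_le h31 (v_mul_le (hσk 4) (v_add_le (hle _) (v_mul_le hρ1 (hle _))))
  · refine (le_mul_of rfl ?_).trans_lt (lt_pow hρ hr (by norm_num))
    exact v_mul_le hσ1 (v_add_le (hle _) (hle _))
  · refine (le_mul_of rfl ?_).trans_lt (lt_pow hρ hr (by norm_num))
    exact v_mul_le (hσk 2) (v_add_le (hle _) (hle _))
  · have h1 : N1 v (σ ^ 2 * eq5 ρ ξ η ε qψ) := (hσ.pow 2).mul (psi_one hρ hr hy hη h3)
    rw [map_mul, map_pow]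
    calc v ρ ^ 2 * v (σ ^ 2 * eq5 ρ ξ η ε qψ - 1) < v ρ ^ 2 * 1 :=
          mul_lt_mul_of_pos_left h1 (pow_pos (rho_pos hρ) 2)
      _ = v ρ ^ 2 := mul_one _

include hρ hr hy hη h3 hσ in
/-- the odd terms -/
theorem Sn_odd (k : ℕ) : N1 v (Sn ρ ξ η ε (2 * k + 1)) := by
  have hx := hx_of hρ hr h3
  have hle : ∀ p : Q5, v (eq5 ρ ξ η ε p) ≤ 1 := eq5_le hr hx hy hη.val.le
  have hσ1 := hσ.val.le
  have h1lt : ∀ k : ℕ, k ≠ 0 → v ρ ^ k < 1 := fun k hk => pow_lt_one' hr hk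
  obtain ⟨a1, b1, e1⟩ := odd1 k
  have f1 := congrArg (eq5 ρ ξ η ε) e1
  rw [map_add, eq5_R2 hρ, map_pow, eq5_B, one_pow] at f1
  rw [Sn_split, tm0 hρ h3, tm1 hρ h3, tm2 hρ h3, tm3 hρ h3, f1]
  have hσk : ∀ k : ℕ, v ((ρ ^ 3 / (ξ - 1)) ^ k) ≤ 1 := fun k => by
    rw [map_pow]; exact pow_le_one' hσ1 k
  have hρ1 : v (ρ ^ 2) ≤ 1 := by rw [map_pow]; exact pow_le_one' hr.le 2
  have h31 : v (3 : ℂ) ≤ 1 := by exact_mod_cast v_nat v 3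
  have c1 : N1 v (ρ ^ 2 * (eq5 ρ ξ η ε a1 + ρ ^ 2 * eq5 ρ ξ η ε b1) + 1) := by
    rw [add_comm]
    refine Pool.Agent.Y690.AW.N1.one.add ?_
    exact (le_mul_of rfl (v_add_le (hle _) (v_mul_le hρ1 (hle _)))).trans_lt (h1lt 2 two_ne_zero)
  have c2 := (hσ.pow 2).mul c1
  have e : ∀ a b c d x : ℂ, a + b + c + d + x = d + (a + b + c + x) := fun a b c d x => by ring
  rw [e]
  refine c2.add (v_add_lt (v_add_lt (v_add_lt ?_ ?_) ?_) ?_)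
  · refine lt_trans (Valuation.map_sum_lt v (pow_pos (rho_pos hρ) 2).ne'
      fun j _ => tm_le hρ hr hy hη h3 _ (j + 4) (by omega)) (h1lt 2 two_ne_zero)
  · exact (le_mul_of rfl (v_mul_le h31 (v_mul_le (hσk 4) (hle _)))).trans_lt (h1lt 2 two_ne_zero)
  · exact (le_mul_of rfl (v_mul_le (hσk 3) (hle _))).trans_lt (h1lt 3 (by norm_num))
  · refine (le_mul_of (k := 1) (w := ρ ^ 3 / (ξ - 1) * eq5 ρ ξ η ε (Gq (2 * k + 1) 0))
      (by rw [pow_one]) (v_mul_le hσ1 (hle _))).trans_lt (h1lt 1 one_ne_zero)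

/-! ### the coefficients -/

lemma sq_odd {c : ℕ} (hc : Odd c) : v ((c : ℂ) ^ 2 - 1) ≤ v 2 * v 2 := by
  obtain ⟨k, rfl⟩ := hc
  have e : ((2 * k + 1 : ℕ) : ℂ) ^ 2 - 1 = 2 * (2 * ((k ^ 2 + k : ℕ) : ℂ)) := by push_cast; ring
  rw [e, map_mul, map_mul, ← mul_assoc]
  exact mul_le_of_le_one_right' (v_nat v _)

lemma two_pow_fac3 (j : ℕ) (hj : 8 ≤ j) : ∃ k, 2 ^ k ∣ j.factorial ∧ 2 * j + 3 ≤ 4 * k := by
  induction j using Nat.strong_induction_on with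
  | _ j ih =>
    rcases Nat.lt_or_ge j 10 with h | h
    · refine ⟨7, ?_, by omega⟩
      have h4 : 2 ^ 7 ∣ (8).factorial := by decide
      exact h4.trans (Nat.factorial_dvd_factorial hj)
    · obtain ⟨k, hk, hk2⟩ := ih (j - 2) (by omega) (by omega)
      refine ⟨k + 1, ?_, by omega⟩
      obtain ⟨i, rfl⟩ : ∃ i, j = i + 2 := ⟨j - 2, by omega⟩
      rw [Nat.add_sub_cancel] at hk
      rw [Nat.factorial_succ, Nat.factorial_succ, pow_succ, ← mul_assoc, mul_comm (2 ^ k)]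
      refine mul_dvd_mul ?_ hk
      rw [show (i + 1 + 1) * (i + 1) = (i + 1) * (i + 1 + 1) by ring]
      exact (Nat.even_mul_succ_self (i + 1)).two_dvd

lemma ch_odd_even (m j : ℕ) (hj : Odd j) : 2 ∣ (4 * m + 2).choose j := by
  obtain ⟨i, rfl⟩ := hj
  have h := Nat.add_one_mul_choose_eq (4 * m + 1) (2 * i)
  have h3 : 2 ∣ (4 * m + 2).choose (2 * i + 1) * (2 * i + 1) := by
    rw [show 4 * m + 2 = 4 * m + 1 + 1 from rfl, ← h]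
    exact ⟨(2 * m + 1) * (4 * m + 1).choose (2 * i), by ring⟩
  refine Nat.Coprime.dvd_of_dvd_mul_right ?_ h3
  rw [Nat.coprime_two_left]
  exact ⟨i, rfl⟩

include hρ hr in
lemma v_ca_C (m j : ℕ) (hj : j = 1 ∨ 3 ≤ j) :
    v (ca (4 * m + 2) j : ℂ) ≤ v ρ ^ (2 * j + 3) := by
  have hodd : ∀ k : ℕ, Odd j → 2 ^ k ∣ j.factorial → 2 ^ (k + 2) ∣ ca (4 * m + 2) j := by
    intro k ho hk
    unfold ca
    rw [add_comm k 2, pow_add]
    exact mul_dvd_mul (pow_dvd_pow_of_dvd (ch_odd_even m j ho) 2) hk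
  have hall : ∀ k : ℕ, 2 ^ k ∣ j.factorial → 2 ^ k ∣ ca (4 * m + 2) j := by
    intro k hk
    unfold ca
    exact hk.mul_left _
  rcases Nat.lt_or_ge j 8 with h | h
  · rcases hj with rfl | hj
    · exact (v_tpow hρ (hodd 0 (by decide) (by decide))).trans (rpow_le hr (by norm_num))
    · interval_cases j
      · exact (v_tpow hρ (hodd 1 (by decide) (by decide))).trans (rpow_le hr (by norm_num))
      · exact (v_tpow hρ (hall 3 (by decide))).trans (rpow_le hr (by norm_num))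
      · exact (v_tpow hρ (hodd 3 (by decide) (by decide))).trans (rpow_le hr (by norm_num))
      · exact (v_tpow hρ (hall 4 (by decide))).trans (rpow_le hr (by norm_num))
      · exact (v_tpow hρ (hodd 4 (by decide) (by decide))).trans (rpow_le hr (by norm_num))
  · obtain ⟨k, hk, hk2⟩ := two_pow_fac3 j h
    exact (v_tpow hρ (hall k hk)).trans (rpow_le hr hk2)

lemma ch2C (m : ℕ) : Odd ((4 * m + 2).choose 2) := by
  have h := Nat.choose_succ_right_eq (4 * m + 2) 1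
  rw [Nat.choose_one_right, show 4 * m + 2 - 1 = 4 * m + 1 by omega] at h
  have h2 : (4 * m + 2).choose 2 * 2 = ((2 * m + 1) * (4 * m + 1)) * 2 := by
    rw [show (2 : ℕ) = 1 + 1 from rfl, h]; ring
  rw [Nat.eq_of_mul_eq_mul_right (by norm_num) h2]
  exact Odd.mul ⟨m, rfl⟩ ⟨2 * m, by ring⟩

lemma ch2D (m : ℕ) : Odd ((4 * m + 3).choose 2) := by
  have h := Nat.choose_succ_right_eq (4 * m + 3) 1
  rw [Nat.choose_one_right, show 4 * m + 3 - 1 = 4 * m + 2 by omega] at h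
  have h2 : (4 * m + 3).choose 2 * 2 = ((4 * m + 3) * (2 * m + 1)) * 2 := by
    rw [show (2 : ℕ) = 1 + 1 from rfl, h]; ring
  rw [Nat.eq_of_mul_eq_mul_right (by norm_num) h2]
  exact Odd.mul ⟨2 * m + 1, by ring⟩ ⟨m, rfl⟩

lemma ch3D (m : ℕ) : Odd ((4 * m + 3).choose 3) := by
  have h := Nat.choose_succ_right_eq (4 * m + 3) 2
  rw [show 4 * m + 3 - 2 = 4 * m + 1 by omega] at h
  have h1 : Odd ((4 * m + 3).choose 3 * 3) := by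
    rw [show (3 : ℕ) = 2 + 1 from rfl, h]
    exact (ch2D m).mul ⟨2 * m, by ring⟩
  exact (Nat.odd_mul.mp h1).1

include hρ in
lemma ev_Sn (e : ℕ) : 2 ^ e * eval (pt ξ η ε) (Sg (-aφ) (Mq (2 * aT)) e) =
    ∑ j ∈ range (e + 1), (ca e j : ℂ) * ((ρ ^ 2) ^ (e - j) * Sn ρ ξ η ε (e - j)) := by
  rw [ev_Sg]
  refine sum_congr rfl fun j _ => ?_
  rw [mn_eq hρ]
  rfl

include hρ hr hy hη h3 hσ in
/-- **the estimate** -/
theorem est_three (m e : ℕ) (he : e = 4 * m + 2 ∨ e = 4 * m + 3) :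
    v (2 ^ e * eval (pt ξ η ε) (Sg (-aφ) (Mq (2 * aT)) e) - ρ ^ (8 * m + 6)) <
      v ρ ^ (8 * m + 6) := by
  have h2 := two_lt hρ hr
  have hSn : ∀ n, v (Sn ρ ξ η ε n) ≤ 1 := Sn_le hρ hr hy hη h3
  have heven := Sn_even hρ hr hy hη h3 hσ m
  have hpk : ∀ k : ℕ, 0 < v ρ ^ k := fun k => pow_pos (rho_pos hρ) k
  have hterm : ∀ (c n a b : ℕ), v (c : ℂ) ≤ v ρ ^ a → b < a + 2 * n →
      v ((c : ℂ) * ((ρ ^ 2) ^ n * Sn ρ ξ η ε n)) < v ρ ^ b := by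
    intro c n a b hc hb
    rw [map_mul, map_mul, ← pow_mul, map_pow]
    refine lt_of_le_of_lt (b := v ρ ^ (a + 2 * n)) ?_ (lt_pow hρ hr hb)
    rw [pow_add]
    exact mul_le_mul' hc (mul_le_of_le_one_right' (hSn n))
  rw [ev_Sn hρ]
  have hev : v (ρ ^ (8 * m + 4) * (Sn ρ ξ η ε (4 * m + 2) + Sn ρ ξ η ε (4 * m) - ρ ^ 2)) <
      v ρ ^ (8 * m + 6) := by
    rw [map_mul, map_pow, show 8 * m + 6 = (8 * m + 4) + 2 by ring, pow_add (v ρ) (8 * m + 4) 2]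
    exact mul_lt_mul_of_pos_left heven (hpk _)
  rcases he with rfl | rfl
  · rw [sum_range_succ', sum_range_succ', sum_range_succ']
    have hrest : v (∑ k ∈ range (4 * m), (ca (4 * m + 2) (k + 1 + 1 + 1) : ℂ) *
        ((ρ ^ 2) ^ (4 * m + 2 - (k + 1 + 1 + 1)) * Sn ρ ξ η ε (4 * m + 2 - (k + 1 + 1 + 1)))) <
        v ρ ^ (8 * m + 6) := by
      refine Valuation.map_sum_lt v (hpk _).ne' fun k hk => ?_
      have hk' := mem_range.mp hk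
      exact hterm _ _ _ _ (v_ca_C hρ hr m (k + 1 + 1 + 1) (Or.inr (by omega))) (by omega)
    have h1 : v ((ca (4 * m + 2) (0 + 1) : ℂ) * ((ρ ^ 2) ^ (4 * m + 2 - (0 + 1)) *
        Sn ρ ξ η ε (4 * m + 2 - (0 + 1)))) < v ρ ^ (8 * m + 6) :=
      hterm _ _ _ _ (v_ca_C hρ hr m (0 + 1) (Or.inl rfl)) (by omega)
    set C : ℕ := (4 * m + 2).choose 2 with hC
    have hCo : v ((C : ℂ) ^ 2 - 1) ≤ v 2 * v 2 := sq_odd (ch2C m)
    have hca : (ca (4 * m + 2) (0 + 1 + 1) : ℂ) = ρ ^ 4 * (C : ℂ) ^ 2 := by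
      unfold ca
      rw [hρ, show (0 + 1 + 1 : ℕ) = 2 from rfl, show (2 : ℕ).factorial = 2 from rfl, ← hC]
      push_cast
      ring
    have hc0 : (ca (4 * m + 2) 0 : ℂ) = 1 := by rw [ca_zero, Nat.cast_one]
    rw [hca, hc0, show 4 * m + 2 - (0 + 1 + 1) = 4 * m by omega, Nat.sub_zero, one_mul]
    have key : ∀ A B S2 S0 : ℂ, A + ρ ^ 4 * (C : ℂ) ^ 2 * ((ρ ^ 2) ^ (4 * m) * S0) + B +
        (ρ ^ 2) ^ (4 * m + 2) * S2 - ρ ^ (8 * m + 6) = A + B +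
        ρ ^ (8 * m + 4) * (S2 + S0 - ρ ^ 2) + ρ ^ (8 * m + 4) * (((C : ℂ) ^ 2 - 1) * S0) := by
      intro A B S2 S0
      have e1 : (ρ ^ 2) ^ (4 * m) = ρ ^ (8 * m) := by rw [← pow_mul]; congr 1; ring
      have e2 : (ρ ^ 2) ^ (4 * m + 2) = ρ ^ (8 * m + 4) := by rw [← pow_mul]; congr 1; ring
      rw [e1, e2]
      ring
    rw [key]
    refine v_add_lt (v_add_lt (v_add_lt hrest h1) hev) ?_
    rw [map_mul, map_mul, map_pow]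
    refine lt_of_le_of_lt (b := v ρ ^ (8 * m + 4) * (v 2 * v 2)) ?_ ?_
    · exact mul_le_mul_right ((mul_le_mul' hCo (hSn _)).trans (by rw [mul_one])) _
    · rw [v_two hρ, ← pow_add, ← pow_add]
      exact lt_pow hρ hr (by omega)
  · rw [sum_range_succ', sum_range_succ', sum_range_succ', sum_range_succ']
    have hrest : v (∑ k ∈ range (4 * m), (ca (4 * m + 3) (k + 1 + 1 + 1 + 1) : ℂ) *
        ((ρ ^ 2) ^ (4 * m + 3 - (k + 1 + 1 + 1 + 1)) *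
          Sn ρ ξ η ε (4 * m + 3 - (k + 1 + 1 + 1 + 1)))) < v ρ ^ (8 * m + 6) := by
      refine Valuation.map_sum_lt v (hpk _).ne' fun k hk => ?_
      have hk' := mem_range.mp hk
      exact hterm _ _ _ _ (v_ca_big hρ hr (4 * m + 3) (k + 1 + 1 + 1 + 1) (by omega)) (by omega)
    set C : ℕ := (4 * m + 3).choose 2 with hC
    set D : ℕ := (4 * m + 3).choose 3 with hD
    have hCo : v ((C : ℂ) ^ 2 - 1) ≤ v 2 * v 2 := sq_odd (ch2D m)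
    have hDo : v ((D : ℂ) ^ 2 - 1) ≤ v 2 * v 2 := sq_odd (ch3D m)
    have hEo : v (((4 * m + 3 : ℕ) : ℂ) ^ 2 - 1) ≤ v 2 * v 2 := sq_odd ⟨2 * m + 1, by ring⟩
    set E : ℂ := ((4 * m + 3 : ℕ) : ℂ) with hE
    have hca2 : (ca (4 * m + 3) (0 + 1 + 1) : ℂ) = ρ ^ 4 * (C : ℂ) ^ 2 := by
      unfold ca
      rw [hρ, show (0 + 1 + 1 : ℕ) = 2 from rfl, show (2 : ℕ).factorial = 2 from rfl, ← hC]
      push_cast
      ring
    have hca3 : (ca (4 * m + 3) (0 + 1 + 1 + 1) : ℂ) = ρ ^ 4 * (3 * (D : ℂ) ^ 2) := by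
      unfold ca
      rw [hρ, show (0 + 1 + 1 + 1 : ℕ) = 3 from rfl, show (3 : ℕ).factorial = 6 from rfl, ← hD]
      push_cast
      ring
    have hca1 : (ca (4 * m + 3) (0 + 1) : ℂ) = E ^ 2 := by
      unfold ca
      rw [show (0 + 1 : ℕ) = 1 from rfl, Nat.choose_one_right, Nat.factorial_one, hE]
      push_cast
      ring
    have hc0 : (ca (4 * m + 3) 0 : ℂ) = 1 := by rw [ca_zero, Nat.cast_one]
    rw [hca1, hca2, hca3, hc0, show 4 * m + 3 - (0 + 1 + 1 + 1) = 4 * m by omega,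
      show 4 * m + 3 - (0 + 1 + 1) = 4 * m + 1 by omega,
      show 4 * m + 3 - (0 + 1) = 4 * m + 2 by omega, Nat.sub_zero, one_mul]
    have o3 : N1 v (Sn ρ ξ η ε (4 * m + 3)) := by
      have := Sn_odd hρ hr hy hη h3 hσ (2 * m + 1)
      rwa [show 2 * (2 * m + 1) + 1 = 4 * m + 3 by ring] at this
    have o1 : N1 v (Sn ρ ξ η ε (4 * m + 1)) := by
      have := Sn_odd hρ hr hy hη h3 hσ (2 * m)
      rwa [show 2 * (2 * m) + 1 = 4 * m + 1 by ring] at this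
    have hsum : v (Sn ρ ξ η ε (4 * m + 3) + Sn ρ ξ η ε (4 * m + 1)) < 1 := by
      have e : Sn ρ ξ η ε (4 * m + 3) + Sn ρ ξ η ε (4 * m + 1) = (Sn ρ ξ η ε (4 * m + 3) - 1) +
          (Sn ρ ξ η ε (4 * m + 1) - 1) + 2 := by ring
      rw [e]
      exact v_add_lt (v_add_lt o3 o1) h2
    have key : ∀ A S3 S2 S1 S0 : ℂ, A + ρ ^ 4 * (3 * (D : ℂ) ^ 2) * ((ρ ^ 2) ^ (4 * m) * S0) +
        ρ ^ 4 * (C : ℂ) ^ 2 * ((ρ ^ 2) ^ (4 * m + 1) * S1) + E ^ 2 * ((ρ ^ 2) ^ (4 * m + 2) * S2) +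
        (ρ ^ 2) ^ (4 * m + 3) * S3 - ρ ^ (8 * m + 6) = A +
        ρ ^ (8 * m + 4) * (S2 + S0 - ρ ^ 2) + ρ ^ (8 * m + 6) * (S3 + S1) +
        ρ ^ (8 * m + 4) * ((E ^ 2 - 1) * S2) + ρ ^ (8 * m + 6) * (((C : ℂ) ^ 2 - 1) * S1) +
        ρ ^ (8 * m + 4) * (3 * (((D : ℂ) ^ 2 - 1) * S0)) + ρ ^ (8 * m + 4) * (2 * S0) := by
      intro A S3 S2 S1 S0
      have e1 : (ρ ^ 2) ^ (4 * m) = ρ ^ (8 * m) := by rw [← pow_mul]; congr 1; ring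
      have e2 : (ρ ^ 2) ^ (4 * m + 1) = ρ ^ (8 * m + 2) := by rw [← pow_mul]; congr 1; ring
      have e3 : (ρ ^ 2) ^ (4 * m + 2) = ρ ^ (8 * m + 4) := by rw [← pow_mul]; congr 1; ring
      have e4 : (ρ ^ 2) ^ (4 * m + 3) = ρ ^ (8 * m + 6) := by rw [← pow_mul]; congr 1; ring
      rw [e1, e2, e3, e4]
      ring
    rw [key]
    have h31 : v (3 : ℂ) ≤ 1 := by exact_mod_cast v_nat v 3
    have hsq : ∀ (k : ℕ) (c S w : ℂ), 8 * m + 4 ≤ k → v (c ^ 2 - 1) ≤ v 2 * v 2 → v S ≤ 1 →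
        v w ≤ 1 → v (ρ ^ k * (w * ((c ^ 2 - 1) * S))) < v ρ ^ (8 * m + 6) := by
      intro k c S w hk hc hS hw
      rw [map_mul, map_mul, map_mul, map_pow]
      refine lt_of_le_of_lt (b := v ρ ^ k * (v 2 * v 2)) ?_ ?_
      · refine mul_le_mul_right ?_ _
        calc v w * (v (c ^ 2 - 1) * v S) ≤ 1 * ((v 2 * v 2) * 1) :=
              mul_le_mul' hw (mul_le_mul' hc hS)
          _ = v 2 * v 2 := by rw [one_mul, mul_one]
      · rw [v_two hρ, ← pow_add, ← pow_add]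
        exact lt_pow hρ hr (by omega)
    have h1v : v (1 : ℂ) ≤ 1 := by rw [map_one]
    refine v_add_lt (v_add_lt (v_add_lt (v_add_lt (v_add_lt (v_add_lt hrest hev) ?_) ?_) ?_) ?_) ?_
    · rw [map_mul, map_pow]
      calc v ρ ^ (8 * m + 6) * v (Sn ρ ξ η ε (4 * m + 3) + Sn ρ ξ η ε (4 * m + 1)) <
          v ρ ^ (8 * m + 6) * 1 := mul_lt_mul_of_pos_left hsum (hpk _)
        _ = _ := mul_one _
    · have := hsq (8 * m + 4) E _ 1 le_rfl hEo (hSn (4 * m + 2)) h1v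
      rwa [one_mul] at this
    · have := hsq (8 * m + 6) C _ 1 (by omega) hCo (hSn (4 * m + 1)) h1v
      rwa [one_mul] at this
    · exact hsq (8 * m + 4) D _ 3 le_rfl hDo (hSn (4 * m)) h31
    · rw [map_mul, map_mul, map_pow]
      refine lt_of_le_of_lt (b := v ρ ^ (8 * m + 4) * v 2) ?_ ?_
      · exact mul_le_mul_right (mul_le_of_le_one_right' (hSn _)) _
      · rw [v_two hρ, ← pow_add]
        exact lt_pow hρ hr (by omega)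

end est

end Pool.Agent.Helper26K9.XO
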