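import Pool.Agent.Y690.W.Det

/-!
# The recursion for the rooted determinants
-/

set_option autoImplicit false
set_option linter.unusedSectionVars false

namespace Pool.Agent.Helper26K9.XO

open Matrix Pool.Agent.Y690.AW

variable {α : Type*} [DecidableEq α] (a : α → α → ZMod 2)

/-- the indicator of a root -/
def rt (p0 : α) (p : α) : ZMod 2 := if p = p0 then 1 else 0

/-- the number of spanning trees with a given root, modulo two -/
def kd (p0 : α) (V : Finset α) : ZMod 2 := (Mx (rt p0) a V).det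

/-- the weighted number of spanning trees -/
def tz (z : α → ZMod 2) (V : Finset α) : ZMod 2 := ∑ p0 ∈ V, z p0 * kd a p0 V

lemma kd_notMem {p0 : α} {V : Finset α} (hV : V.Nonempty) (h : p0 ∉ V) : kd a p0 V = 0 := by
  unfold kd
  refine Matrix.exists_mulVec_eq_zero_iff.mp ⟨fun _ => 1, ?_, ?_⟩
  · intro h1
    obtain ⟨x, hx⟩ := hV
    have := congrFun h1 ⟨x, hx⟩
    exact one_ne_zero this
  · ext j
    have h1 : (Mx (rt p0) a V *ᵥ fun _ => 1) j = ∑ k, Mx (rt p0) a V j k * 1 := rfl
    rw [h1]
    have h2 : rt p0 (j : α) = 0 := by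
      unfold rt
      rw [if_neg]
      intro h3
      exact h (h3 ▸ j.2)
    simp only [mul_one, Mx_apply, Finset.sum_add_distrib]
    rw [Finset.sum_ite_eq Finset.univ j, if_pos (Finset.mem_univ _), h2, zero_add,
      ← Finset.sum_coe_sort V (fun k => a j k), two_zero]
    rfl

lemma kd_single (p0 : α) : kd a p0 {p0} = 1 := by
  unfold kd
  have : Mx (rt p0) a {p0} = 1 := by
    ext i j
    have hi : (i : α) = p0 := Finset.mem_singleton.mp i.2
    have hj : (j : α) = p0 := Finset.mem_singleton.mp j.2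
    have hij : i = j := Subtype.ext (hi.trans hj.symm)
    subst hij
    rw [Mx_apply, if_pos rfl, Matrix.one_apply_eq, Finset.sum_singleton, hi, add_assoc, two_zero,
      add_zero]
    unfold rt
    rw [if_pos rfl]
  rw [this, Matrix.det_one]

lemma tz_single (z : α → ZMod 2) (p0 : α) : tz a z {p0} = z p0 := by
  unfold tz
  rw [Finset.sum_singleton, kd_single, mul_one]

/-- the recursion for one root -/
lemma kd_rec {p0 : α} {W : Finset α} (h0 : p0 ∈ W) (hW : 2 ≤ W.card) :
    ∑ V ∈ W.powerset.filter (fun V => p0 ∈ V), (∏ p ∈ W \ V, ∑ l ∈ V, a p l) * kd a p0 V = 0 := by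
  have hne : W.Nonempty := ⟨p0, h0⟩
  have h1 := det_rec (rt p0) a hne
  rw [← Finset.sum_filter_add_sum_filter_not _ (fun V => p0 ∈ V)] at h1
  have h2 : ∑ V ∈ W.powerset.filter (fun V => ¬ p0 ∈ V),
      (∏ p ∈ W \ V, (rt p0 p + ∑ l ∈ V, a p l)) * (Mx (rt p0) a V).det = 0 := by
    refine Finset.sum_eq_zero fun V hV => ?_
    rw [Finset.mem_filter, Finset.mem_powerset] at hV
    rcases V.eq_empty_or_nonempty with rfl | hVne
    · obtain ⟨p, hp, hp0⟩ : ∃ p ∈ W, p ≠ p0 := by
        by_contra hcon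
        push Not at hcon
        have : W ⊆ {p0} := fun x hx => Finset.mem_singleton.mpr (hcon x hx)
        have := Finset.card_le_card this
        rw [Finset.card_singleton] at this
        omega
      rw [Finset.prod_eq_zero (i := p), zero_mul]
      · rw [Finset.sdiff_empty]; exact hp
      · rw [Finset.sum_empty, add_zero]
        unfold rt
        rw [if_neg hp0]
    · have := kd_notMem a hVne hV.2
      unfold kd at this
      rw [this, mul_zero]
  rw [h2, add_zero] at h1
  rw [← h1]
  refine Finset.sum_congr rfl fun V hV => ?_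
  rw [Finset.mem_filter, Finset.mem_powerset] at hV
  unfold kd
  congr 1
  refine Finset.prod_congr rfl fun p hp => ?_
  rw [Finset.mem_sdiff] at hp
  have : rt p0 p = 0 := by
    unfold rt
    rw [if_neg]
    rintro rfl
    exact hp.2 hV.2
  rw [this, zero_add]

/-- the recursion -/
theorem tz_rec (z : α → ZMod 2) {W : Finset α} (hW : 2 ≤ W.card) :
    ∑ V ∈ W.powerset, (∏ p ∈ W \ V, ∑ l ∈ V, a p l) * tz a z V = 0 := by
  have h1 : ∀ V ∈ W.powerset, (∏ p ∈ W \ V, ∑ l ∈ V, a p l) * tz a z V =
      ∑ p0 ∈ W, if p0 ∈ V then z p0 * ((∏ p ∈ W \ V, ∑ l ∈ V, a p l) * kd a p0 V) else 0 := by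
    intro V hV
    rw [Finset.mem_powerset] at hV
    unfold tz
    rw [Finset.mul_sum, ← Finset.sum_filter]
    have e : W.filter (fun p0 => p0 ∈ V) = V := by
      ext x
      rw [Finset.mem_filter]
      exact ⟨fun h => h.2, fun h => ⟨hV h, h⟩⟩
    rw [e]
    refine Finset.sum_congr rfl fun p0 _ => ?_
    ring
  rw [Finset.sum_congr rfl h1, Finset.sum_comm]
  refine Finset.sum_eq_zero fun p0 hp0 => ?_
  rw [← Finset.sum_filter, ← Finset.mul_sum, kd_rec a hp0 hW, mul_zero]

lemma tz_empty (z : α → ZMod 2) : tz a z ∅ = 0 := by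
  unfold tz
  rw [Finset.sum_empty]

end Pool.Agent.Helper26K9.XO
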