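import Pool.Agent.Y690.W.Par
import Pool.Agent.Helper26K9.XO.Rec

/-!
# The exact valuation of the twisted sums of a distribution
-/

set_option autoImplicit false
set_option linter.unusedSectionVars false
set_option linter.unusedSimpArgs false

namespace Pool.Agent.Helper26K9.XO

open Pool.Agent.Y690.NV Pool.Agent.Y690.AW Pool.Agent.W192.HK
open Complex (I)

section par

variable {Γ : Type*} [LinearOrderedCommGroupWithZero Γ] (v : Valuation ℂ Γ)

/-- `x / c` has residue `a` -/
def Pq (c x : ℂ) (a : ZMod 2) : Prop :=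
  ∃ m : ℤ, ((m : ℤ) : ZMod 2) = a ∧ v (x - c * m) < v c

variable {v}
variable (h2 : v 2 < 1)

lemma Pq.pos {c x : ℂ} {a : ZMod 2} (h : Pq v c x a) : 0 < v c := by
  obtain ⟨m, -, hm⟩ := h
  exact zero_le.trans_lt hm

lemma Pq.ne {c x : ℂ} {a : ZMod 2} (h : Pq v c x a) : c ≠ 0 := by
  rintro rfl
  have := h.pos
  rw [map_zero] at this
  exact lt_irrefl _ this

lemma Pq.le {c x : ℂ} {a : ZMod 2} (h : Pq v c x a) : v x ≤ v c := by
  obtain ⟨m, -, hm⟩ := h
  have e : x = (x - c * m) + c * m := by ring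
  rw [e]
  refine (v.map_add _ _).trans (max_le hm.le ?_)
  rw [map_mul]
  exact mul_le_of_le_one_right' (v_int v m)

lemma Pq.add {c x y : ℂ} {a b : ZMod 2} (h : Pq v c x a) (h' : Pq v c y b) :
    Pq v c (x + y) (a + b) := by
  obtain ⟨m, hm1, hm2⟩ := h
  obtain ⟨n, hn1, hn2⟩ := h'
  refine ⟨m + n, by rw [Int.cast_add, hm1, hn1], ?_⟩
  have e : x + y - c * ((m + n : ℤ) : ℂ) = (x - c * m) + (y - c * n) := by
    push_cast; ring
  rw [e]
  exact (v.map_add _ _).trans_lt (max_lt hm2 hn2)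

lemma Pq.neg {c x : ℂ} {a : ZMod 2} (h : Pq v c x a) : Pq v c (-x) a := by
  obtain ⟨m, hm1, hm2⟩ := h
  refine ⟨-m, ?_, ?_⟩
  · rw [Int.cast_neg, hm1]
    exact ZModModule.neg_eq_self a
  · have e : -x - c * ((-m : ℤ) : ℂ) = -(x - c * m) := by push_cast; ring
    rw [e, Valuation.map_neg]
    exact hm2

lemma Pq.sub {c x y : ℂ} {a b : ZMod 2} (h : Pq v c x a) (h' : Pq v c y b) :
    Pq v c (x - y) (a + b) := by
  rw [sub_eq_add_neg]
  exact h.add h'.neg

lemma Pq.mul {c d x y : ℂ} {a b : ZMod 2} (h : Pq v c x a) (h' : Pq v d y b) :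
    Pq v (c * d) (x * y) (a * b) := by
  have hx := h.le
  have hc := h.pos
  have hd := h'.pos
  obtain ⟨m, hm1, hm2⟩ := h
  obtain ⟨n, hn1, hn2⟩ := h'
  refine ⟨m * n, by rw [Int.cast_mul, hm1, hn1], ?_⟩
  have e : x * y - (c * d) * ((m * n : ℤ) : ℂ) = x * (y - d * n) +
      (x - c * m) * (d * n) := by
    push_cast; ring
  rw [e]
  refine (v.map_add _ _).trans_lt (max_lt ?_ ?_)
  · rw [map_mul, map_mul]
    calc v x * v (y - d * n) ≤ v c * v (y - d * n) := mul_le_mul_left hx _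
      _ < v c * v d := mul_lt_mul_of_pos_left hn2 hc
  · rw [map_mul, map_mul, map_mul]
    calc v (x - c * m) * (v d * v (n : ℂ)) ≤ v (x - c * m) * v d :=
          mul_le_mul_right (mul_le_of_le_one_right' (v_int v n)) _
      _ < v c * v d := mul_lt_mul_of_pos_right hm2 hd

lemma Pq.zero {c x : ℂ} (h : v x < v c) : Pq v c x 0 :=
  ⟨0, by simp, by simpa using h⟩

lemma Pq.of_N1 {x : ℂ} (h : N1 v x) : Pq v 1 x 1 := ⟨1, by simp, by
  rw [map_one]
  simpa [N1] using h⟩

lemma Pq.congr {c x y : ℂ} {a : ZMod 2} (h : Pq v c x a) (h' : v (y - x) < v c) :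
    Pq v c y a := by
  have := h.add (Pq.zero h')
  rw [add_zero] at this
  convert this using 1
  ring

lemma Pq.scale {c d x : ℂ} {a : ZMod 2} (h : Pq v c x a) (h' : v (c - d) < v c) :
    Pq v d x a := by
  obtain ⟨m, hm1, hm2⟩ := h
  have hcd : v d = v c := by
    have e : d = c + -(c - d) := by ring
    rw [e, Valuation.map_add_eq_of_lt_left v (by rwa [Valuation.map_neg])]
  refine ⟨m, hm1, ?_⟩
  have e : x - d * m = (x - c * m) + (c - d) * m := by ring
  rw [e, hcd]
  refine (v.map_add _ _).trans_lt (max_lt hm2 ?_)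
  rw [map_mul]
  exact (mul_le_of_le_one_right' (v_int v m)).trans_lt h'

lemma Pq.self {c : ℂ} (hc : c ≠ 0) : Pq v c c 1 := by
  refine ⟨1, by simp, ?_⟩
  rw [Int.cast_one, mul_one, sub_self, map_zero, zero_lt_iff, Ne, map_eq_zero]
  exact hc

lemma Pq.of_Pm {k : ℕ} {x : ℂ} {a : ZMod 2} (h : Pm v k x a) : Pq v (2 ^ k) x a := by
  obtain ⟨m, hm1, hm2⟩ := h
  exact ⟨m, hm1, by rwa [map_pow]⟩

lemma Pq.sum {ι : Type*} {c : ℂ} (hc : c ≠ 0) (s : Finset ι) {x : ι → ℂ} {a : ι → ZMod 2}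
    (h : ∀ i ∈ s, Pq v c (x i) (a i)) : Pq v c (∑ i ∈ s, x i) (∑ i ∈ s, a i) := by
  classical
  induction s using Finset.induction_on with
  | empty =>
    rw [Finset.sum_empty, Finset.sum_empty]
    refine Pq.zero ?_
    rw [map_zero, zero_lt_iff, Ne, map_eq_zero]
    exact hc
  | insert i s hi ih =>
    rw [Finset.sum_insert hi, Finset.sum_insert hi]
    exact (h i (Finset.mem_insert_self _ _)).add
      (ih fun j hj => h j (Finset.mem_insert_of_mem hj))

include h2 in
lemma Pq.val_one {c x : ℂ} (h : Pq v c x 1) : v x = v c := by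
  have hc := h.pos
  obtain ⟨m, hm1, hm2⟩ := h
  have h3 : v (m : ℂ) = 1 := by
    have h4 : Odd m := by
      rw [← Int.not_even_iff_odd]
      intro h5
      have := (ZMod.intCast_zmod_eq_zero_iff_dvd m 2).mpr (by
        obtain ⟨c, hc⟩ := h5
        exact ⟨c, by push_cast; omega⟩)
      rw [this] at hm1
      exact zero_ne_one hm1
    have h6 := v_gauss_odd h2 (a := m) (b := 0) (by
      rw [add_zero]
      intro h7
      obtain ⟨c, hc⟩ := h4
      omega)
    simpa using h6
  have e : x = c * m + (x - c * m) := by ring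
  rw [e, Valuation.map_add_eq_of_lt_left v (by rwa [map_mul, h3, mul_one]), map_mul, h3, mul_one]

include h2 in
lemma Pq.ne_zero {c x : ℂ} (h : Pq v c x 1) : x ≠ 0 := by
  rintro rfl
  have h1 := h.val_one h2
  rw [map_zero] at h1
  exact h.pos.ne h1

end par

section main

variable {R : Subring ℂ} {Γ : Type*} [LinearOrderedCommGroupWithZero Γ] {v : Valuation ℂ Γ}
  (h2 : v 2 < 1) {G : R → R → ℂ} {c : R → ℂ} (h : DS G c) {z : R → ZMod 2}
  (hR : ∀ z : ℂ, z ∈ R ↔ ∃ x y : ℤ, z = x + y * I)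

/-- the twisted sum -/
noncomputable def TT (G : R → R → ℂ) (V : Finset R) : ℂ :=
  Ts G (dd V) (fun r => ((ch V r : ℤ) : ℂ))

include h2 in
lemma fac_zero {U V : Finset R} (hU : ∀ p ∈ U, QC p) (hd : Dst U) (hV : V ⊆ U) {p : R}
    (hp : p ∈ U \ V) (hc : v (c p - 1) < v 2) :
    Pq v 2 (c p - ((ch V p : ℤ) : ℂ)) (∑ l ∈ V, aa p l) := by
  have h1 := fac_par (t := fun _ => 0) h2 hU hd hV hp (c := c) (Pm.zero (by
    rw [pow_one, Valuation.map_sub_swap]
    exact hc))
  rw [zero_add] at h1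
  have := Pq.of_Pm h1
  rwa [pow_one] at this

include h2 in
lemma prod_zero {U V : Finset R} (hU : ∀ p ∈ U, QC p) (hd : Dst U) (hV : V ⊆ U)
    (hc : ∀ p ∈ U, v (c p - 1) < v 2) (W : Finset R) (hW : W ⊆ U \ V) :
    Pq v (2 ^ W.card) (∏ p ∈ W, (c p - ((ch V p : ℤ) : ℂ))) (∏ p ∈ W, ∑ l ∈ V, aa p l) := by
  classical
  induction W using Finset.induction_on with
  | empty =>
    rw [Finset.prod_empty, Finset.prod_empty, Finset.card_empty, pow_zero]
    exact Pq.of_N1 N1.one
  | insert i s hi ih =>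
    rw [Finset.prod_insert hi, Finset.prod_insert hi, Finset.card_insert_of_notMem hi, pow_succ']
    exact (fac_zero h2 hU hd hV (hW (Finset.mem_insert_self _ _))
      (hc i (Finset.sdiff_subset (hW (Finset.mem_insert_self _ _))))).mul
      (ih fun j hj => hW (Finset.mem_insert_of_mem hj))

include h2 h hR in
open Classical in
/-- **the residues of the twisted sums** -/
theorem half_par {U : Finset R} (hU : ∀ p ∈ U, QC p) (hd : Dst U) {β : ℂ} (hβ : β ≠ 0)
    (hc : ∀ p ∈ U, v (c p - 1) < v 2)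
    (h1 : ∀ p ∈ U, Pq v (2 * β) (Ts G (dd {p}) (kap {p}) - (c p - 1) * TT G ∅) (z p))
    (hbig : ∀ W ⊆ U, 2 ≤ W.card →
      v (Ts G (dd W) (kap W) - (∏ p ∈ W, (c p - 1)) * TT G ∅) < v (2 ^ W.card * β)) :
    ∀ W ⊆ U, W.Nonempty → Pq v (2 ^ W.card * β) (TT G W) (tz aa z W) := by
  intro W
  induction W using Finset.strongInduction with
  | _ W ih =>
    intro hW hne
    have hWQ : ∀ p ∈ W, QC p := fun p hp => hU p (hW hp)
    have hWd : Dst W := fun p hp s hs => hd p (hW hp) s (hW hs)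
    have hmem : W ∈ W.powerset := Finset.mem_powerset.mpr (Finset.Subset.refl W)
    have hall := sieve_all hR h hWQ hWd
    have hch : ∀ p : R, ch (∅ : Finset R) p = 1 := fun p => Finset.prod_empty
    have hkap : Ts G (dd W) (fun r => ∏ p ∈ W, ((qs p r : ℂ) + cpI p r)) = Ts G (dd W) (kap W) := rfl
    rw [hkap] at hall
    have hem : (∅ : Finset R) ∈ W.powerset.erase W := by
      rw [Finset.mem_erase]
      exact ⟨hne.ne_empty.symm, Finset.empty_mem_powerset W⟩
    rw [← Finset.add_sum_erase _ _ hmem, ← Finset.add_sum_erase _ _ hem] at hall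
    have e1 : (∏ p ∈ W \ W, (c p - ((ch W p : ℤ) : ℂ))) *
        Ts G (dd W) (fun r => ((ch W r : ℤ) : ℂ)) = TT G W := by
      rw [Finset.sdiff_self, Finset.prod_empty, one_mul]
      rfl
    have e2 : (∏ p ∈ W \ ∅, (c p - ((ch ∅ p : ℤ) : ℂ))) *
        Ts G (dd ∅) (fun r => ((ch ∅ r : ℤ) : ℂ)) = (∏ p ∈ W, (c p - 1)) * TT G ∅ := by
      rw [Finset.sdiff_empty]
      simp only [hch, Int.cast_one]
      unfold TT
      simp only [hch, Int.cast_one]
    rw [e1, e2] at hall
    rcases lt_or_ge W.card 2 with hcard | hcard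
    · obtain ⟨p, rfl⟩ : ∃ p, W = {p} := by
        rw [← Finset.card_eq_one]
        have := hne.card_pos
        omega
      have e3 : (({p} : Finset R).powerset.erase {p}).erase ∅ = ∅ := by
        ext V
        simp only [Finset.mem_erase, Finset.mem_powerset, Finset.subset_singleton_iff,
          Finset.notMem_empty, iff_false]
        tauto
      rw [e3, Finset.sum_empty, add_zero, Finset.prod_singleton] at hall
      have h3 := h1 p (hW (Finset.mem_singleton_self p))
      rw [tz_single, Finset.card_singleton, pow_one]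
      have e4 : TT G {p} = Ts G (dd {p}) (kap {p}) - (c p - 1) * TT G ∅ := by
        rw [hall]
        ring
      rw [e4]
      exact h3
    · have h3 : Pq v (2 ^ W.card * β) (Ts G (dd W) (kap W) - (∏ p ∈ W, (c p - 1)) * TT G ∅) 0 :=
        Pq.zero (hbig W hW hcard)
      have hβ' : (2 : ℂ) ^ W.card * β ≠ 0 := mul_ne_zero (pow_ne_zero _ two_ne_zero) hβ
      have h4 : Pq v (2 ^ W.card * β) (∑ V ∈ (W.powerset.erase W).erase ∅,
          (∏ p ∈ W \ V, (c p - ((ch V p : ℤ) : ℂ))) *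
            Ts G (dd V) (fun r => ((ch V r : ℤ) : ℂ)))
          (∑ V ∈ (W.powerset.erase W).erase ∅, (∏ p ∈ W \ V, ∑ l ∈ V, aa p l) * tz aa z V) := by
        refine Pq.sum hβ' _ fun V hV => ?_
        rw [Finset.mem_erase, Finset.mem_erase, Finset.mem_powerset] at hV
        have hlt : V ⊂ W := ⟨hV.2.2, fun h6 => hV.2.1 (Finset.Subset.antisymm hV.2.2 h6)⟩
        have h5 := ih V hlt (hV.2.2.trans hW) (Finset.nonempty_iff_ne_empty.mpr hV.1)
        have h6 := prod_zero h2 hWQ hWd hV.2.2 (fun p hp => hc p (hW hp)) (W \ V)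
          (Finset.Subset.refl _)
        have h7 := h6.mul h5
        have e5 : (2 : ℂ) ^ (W \ V).card * (2 ^ V.card * β) = 2 ^ W.card * β := by
          rw [← mul_assoc, ← pow_add, Finset.card_sdiff_add_card_eq_card hV.2.2]
        rw [e5] at h7
        exact h7
      have h5 := h3.sub h4
      rw [zero_add] at h5
      have e6 : Ts G (dd W) (kap W) - (∏ p ∈ W, (c p - 1)) * TT G ∅ -
          ∑ V ∈ (W.powerset.erase W).erase ∅, (∏ p ∈ W \ V, (c p - ((ch V p : ℤ) : ℂ))) *
            Ts G (dd V) (fun r => ((ch V r : ℤ) : ℂ)) = TT G W := by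
        rw [hall]
        ring
      rw [e6] at h5
      have h6 := tz_rec aa z hcard
      rw [← Finset.add_sum_erase _ _ hmem, ← Finset.add_sum_erase _ _ hem, tz_empty, mul_zero,
        zero_add, Finset.sdiff_self, Finset.prod_empty, one_mul] at h6
      rw [CharTwo.add_eq_zero.mp h6]
      exact h5

end main

end Pool.Agent.Helper26K9.XO
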