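import Pool.Agent.Y690.W.Inst
import Pool.Agent.Helper26K9.XO.Half
import Pool.Agent.Helper26K9.XO.Est
import Pool.Agent.Helper26K9.XO.Tor
import Pool.Agent.Helper26K9.XO.Root

/-!
# The distribution of the normalised values at the points `T ± Ω r / D`
-/

set_option autoImplicit false
set_option linter.unusedSectionVars false
set_option linter.unusedSimpArgs false

open scoped PeriodPair

namespace Pool.Agent.Helper26K9.XO

open H667R3 Pool.Agent.TH936.CW Pool.Agent.Y690.NV Pool.Agent.Y690.AW Pool.Agent.W192.HK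
open Pool.Agent.TH936.CM (IsLat out_sub)
open Complex (I)

variable {L : PeriodPair} {q Ω : ℂ} {R : Subring ℂ}
  (hR : ∀ z : ℂ, z ∈ R ↔ ∃ x y : ℤ, z = x + y * I)

lemma DS_lin {G G' : R → R → ℂ} {c : R → ℂ} (h : DS G c) (h' : DS G' c) (a b : ℂ) :
    DS (fun D r => a * G D r + b * G' D r) c := by
  refine ⟨h.fin, h.ne, fun D r s hD hrs => ?_, fun D p r hD hp => ?_, fun D p w hD hp => ?_⟩
  · rw [h.per D r s hD hrs, h'.per D r s hD hrs]
  · rw [h.mul D p r hD hp, h'.mul D p r hD hp]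
  · have := h.fin p hp
    have := Fintype.ofFinite (R ⧸ sp p)
    have h1 := h.dist D p w hD hp
    have h2 := h'.dist D p w hD hp
    rw [rs_eq] at h1 h2 ⊢
    rw [Finset.sum_add_distrib, ← Finset.mul_sum, ← Finset.mul_sum, h1, h2]
    ring

include hR in
lemma OT_Q (hL : IsLat L R Ω) {D : R} (h : Pri D) {r : R} (hr : r ∉ sp D) :
    OT L (Ω * r / D) := by
  refine ⟨fun h1 => hr ((lat_dm_iff hL D (h.ne hR) _).1 h1), ?_⟩
  obtain ⟨N, D', h1, h2⟩ := h.nat hR
  refine ⟨N, h1, ?_⟩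
  have h3 := coe_ne (h.ne hR)
  have : (N : ℂ) * (Ω * r / D) = Ω * ((D' * r : R) : ℂ) := by
    rw [h2]
    push_cast
    field_simp
  rw [this]
  exact hL.mem_mul _

include hR in
lemma TD_notMem (hL : IsLat L R Ω) {D : R} (h : Pri D) {s T : ℂ} (hT : TP L q s T) (r : R) :
    T + Ω * r / D ∉ L.lattice := by
  by_cases hr : r ∈ sp D
  · have h1 := (lat_dm_iff hL D (h.ne hR) _).2 hr
    intro h2
    have h3 := sub_mem h2 h1
    rw [add_sub_cancel_right] at h3
    exact two_mul_notMem_of L hT.nm h3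
  · exact hT.add (OT_Q hR hL h hr)

/-- the multiples of the point of order four -/
def Fix (L : PeriodPair) (R : Subring ℂ) (T : ℂ) : Prop :=
  ∀ p : R, Pri p → (p : ℂ) * T - T ∈ L.lattice

lemma Fix.neg {T : ℂ} (h : Fix L R T) : Fix L R (-T) := by
  intro p hp
  have := neg_mem (h p hp)
  convert this using 1
  ring

include hR in
lemma fix_T (hL : IsLat L R Ω) : Fix L R (Ω / (2 + 2 * I)) := by
  intro p hp
  obtain ⟨d, hd⟩ := hp
  have h1 : (p : ℂ) * (Ω / (2 + 2 * I)) - Ω / (2 + 2 * I) = Ω * (d : ℂ) := by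
    have h6 := one_ne
    rw [hd]
    generalize (2 + 2 * I : ℂ) = c at h6 ⊢
    field_simp
    ring
  rw [h1]
  exact hL.mem_mul d

section ds

variable (hL : IsLat L R Ω) (hCM : H667R3.CM L)
  (hq : ∀ l ∈ L.lattice, eta L l = 0 * l + q * (starRingEnd ℂ) l)

include hR hL hCM hq in
theorem ds_ek (hbasic : H_BASIC) (e : ℕ) {s T : ℂ} (hT : TP L q s T) (hF : Fix L R T) :
    DS (fun D r : R => ek L 0 q e (T + Ω * r / D)) (fun p => gm e (p : ℂ)) := by
  obtain ⟨b1, -⟩ := hbasic R I (qr hR)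
  have hfin : ∀ D : R, Pri D → Finite (R ⧸ sp D) := fun D hD =>
    b1 _ (by rw [Ne, Ideal.span_singleton_eq_bot]; exact hD.ne hR)
  refine ⟨hfin, fun D hD => hD.ne hR, fun D r t hD h => ?_, fun D p r hD hp => ?_,
    fun D p w hD hp => ?_⟩
  · refine ek_per hq e (TD_notMem hR hL hD hT t) ?_
    have h1 := (lat_dm_iff hL D (hD.ne hR) _).2 h
    convert h1 using 1
    push_cast
    ring
  · have h1 := coe_ne (hD.ne hR)
    have h2 := coe_ne (hp.ne hR)
    have : Ω * ((p * r : R) : ℂ) / ((D * p : R) : ℂ) = Ω * r / D := by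
      push_cast
      field_simp
    rw [this]
  · have := hfin p hp
    have := Fintype.ofFinite (R ⧸ sp p)
    rw [rs_eq]
    have hp0 := hp.ne hR
    have hpC := coe_ne hp0
    have hDC := coe_ne (hD.ne hR)
    set z : ℂ := T + Ω * w / ((D * p : R) : ℂ) with hz
    have e1 : (p : ℂ) * z = (p : ℂ) * T + Ω * w / D := by
      rw [hz]
      push_cast
      field_simp
    have hTD := TD_notMem hR hL hD hT w
    have e2 : (p : ℂ) * z - (T + Ω * w / D) ∈ L.lattice := by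
      rw [e1]
      have := hF p hp
      convert this using 1
      ring
    have hpz : (p : ℂ) * z ∉ L.lattice := by
      intro h
      apply hTD
      have := sub_mem h e2
      rwa [sub_sub_cancel] at this
    obtain ⟨M, M', hM, hMM⟩ := (hD.mul hR hp).nat hR
    have hDp := coe_ne ((hD.mul hR hp).ne hR)
    have hNz : ((4 * M : ℕ) : ℂ) * z ∈ L.lattice := by
      have h1 := nsmul_mem hT.fo M
      have h2 := hL.mem_mul (4 * (M' * w))
      rw [nsmul_eq_mul] at h1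
      have h3 := add_mem h1 h2
      have h4 : ((4 : R) : ℂ) = 4 := rfl
      convert h3 using 1
      rw [hz, mul_add]
      have e2 : ((4 * M : ℕ) : ℂ) * (Ω * w / ((D * p : R) : ℂ)) = Ω * ((4 * (M' * w) : R) : ℂ) := by
        push_cast at hMM hDp ⊢
        rw [hMM, h4]
        field_simp
      rw [e2]
      push_cast
      ring
    have key := ek_dist hCM hq hL e p hp0 hpz (N := 4 * M) (by
      have := hM.pos
      omega) hNz
    rw [ek_per hq e hTD e2] at key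
    rw [← key]
    refine Finset.sum_congr rfl fun y _ => ?_
    congr 1
    rw [hz]
    push_cast
    field_simp
    ring

/-- the normalised values -/
noncomputable def Gx (K : ℂ) (L : PeriodPair) (q Ω : ℂ) (e : ℕ) (D r : R) : ℂ :=
  K * ek L 0 q e (Ω / (2 + 2 * I) + Ω * r / D) + -K * ek L 0 q e (-(Ω / (2 + 2 * I)) + Ω * r / D)

variable (hT : TP L q 1 (Ω / (2 + 2 * I)))

include hR hL hCM hq hT in
theorem ds_Gx (hbasic : H_BASIC) (K : ℂ) (e : ℕ) :
    DS (fun D r : R => Gx K L q Ω e D r) (fun p => gm e (p : ℂ)) :=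
  DS_lin (ds_ek hR hL hCM hq hbasic e hT (fix_T hR hL))
    (ds_ek hR hL hCM hq hbasic e hT.neg (fix_T hR hL).neg) K (-K)

include hR hL hCM hT in
lemma Gx_pair (K : ℂ) (e : ℕ) {D : R} (hD : Pri D) (r : R) : Gx K L q Ω e D r =
    K * (ek L 0 q e (Ω / (2 + 2 * I) + Ω * r / D) + ek L 0 q e (Ω / (2 + 2 * I) - Ω * r / D)) := by
  have h1 := TD_notMem hR hL hD hT.neg r
  have h2 := ek_neg (q := q) hCM e h1
  have h3 : -(-(Ω / (2 + 2 * I)) + Ω * r / D) = Ω / (2 + 2 * I) - Ω * r / D := by ring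
  rw [h3] at h2
  unfold Gx
  rw [h2]
  ring

include hR hL hCM hT in
lemma Gx_neg (K : ℂ) (e : ℕ) {D : R} (hD : Pri D) (r : R) :
    Gx K L q Ω e D (-r) = Gx K L q Ω e D r := by
  rw [Gx_pair hR hL hCM hT K e hD, Gx_pair hR hL hCM hT K e hD]
  have h1 : Ω / (2 + 2 * I) + Ω * ((-r : R) : ℂ) / D = Ω / (2 + 2 * I) - Ω * r / D := by
    push_cast; ring
  have h2 : Ω / (2 + 2 * I) - Ω * ((-r : R) : ℂ) / D = Ω / (2 + 2 * I) + Ω * r / D := by
    push_cast; ring
  rw [h1, h2]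
  ring

include hR hL hCM hq hT in
lemma Gx_mem (K : ℂ) (e : ℕ) {D : R} (hD : Pri D) {r : R} (hr : r ∈ sp D) :
    Gx K L q Ω e D r = 2 * K * ek L 0 q e (Ω / (2 + 2 * I)) := by
  have hTL : Ω / (2 + 2 * I) ∉ L.lattice := two_mul_notMem_of L hT.nm
  have h1 := (lat_dm_iff hL D (hD.ne hR) _).2 hr
  rw [Gx_pair hR hL hCM hT K e hD,
    ek_per hq e hTL (w := Ω / (2 + 2 * I) + Ω * r / D) (by rwa [add_sub_cancel_left]),
    ek_per hq e hTL (w := Ω / (2 + 2 * I) - Ω * r / D) (by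
      rw [sub_sub_cancel_left]; exact neg_mem h1)]
  ring

section val

variable (g2 : L.g₂ = -1) {Γ : Type*} [LinearOrderedCommGroupWithZero Γ] {v : Valuation ℂ Γ} {ρ : ℂ}
  (hρ : ρ ^ 4 = 2) (hr : v ρ < 1)

include hR hL hCM hq hT g2 hρ hr in
/-- the values in the first two weight classes -/
theorem Gx_A (m e : ℕ) (he : e = 4 * m ∨ e = 4 * m + 1) : ∃ K : ℂ, K ≠ 0 ∧
    (∀ D r : R, Pri D → r ∈ sp D → Gx K L q Ω e D r = 1) ∧
    (∀ D r : R, Pri D → N1 v (Gx K L q Ω e D r)) := by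
  have hp := rho_pos (v := v) hρ
  set A0 : ℂ := 2 ^ (e + 1) * ((e.factorial : ℂ) * ek L 0 q e (Ω / (2 + 2 * I))) with hA0
  have hb := est_base (v := v) hρ hr g2 hT m e he
  rw [← hA0] at hb
  have hA : A0 ≠ 0 := by
    intro h
    rw [h, map_zero] at hb
    exact (pow_pos hp _).ne hb
  have hfac : (e.factorial : ℂ) ≠ 0 := by exact_mod_cast e.factorial_ne_zero
  refine ⟨2 ^ e * (e.factorial : ℂ) / A0, ?_, ?_, ?_⟩
  · exact div_ne_zero (mul_ne_zero (pow_ne_zero _ two_ne_zero) hfac) hA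
  · intro D r hD hr'
    rw [Gx_mem hR hL hCM hq hT _ e hD hr']
    have h1 : 2 * (2 ^ e * (e.factorial : ℂ) / A0) * ek L 0 q e (Ω / (2 + 2 * I)) = A0 / A0 := by
      rw [mul_div_assoc', div_mul_eq_mul_div]
      congr 1
      rw [hA0]
      ring
    rw [h1, div_self hA]
  · intro D r hD
    by_cases hr' : r ∈ sp D
    · rw [Gx_mem hR hL hCM hq hT _ e hD hr']
      have h1 : 2 * (2 ^ e * (e.factorial : ℂ) / A0) * ek L 0 q e (Ω / (2 + 2 * I)) = A0 / A0 := by
        rw [mul_div_assoc', div_mul_eq_mul_div]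
        congr 1
        rw [hA0]
        ring
      rw [h1, div_self hA]
      exact N1.one
    · have hQ := OT_Q hR hL hD hr'
      have h1 := est_pair hρ hr hCM g2 hq hT hQ m e he
      rw [Gx_pair hR hL hCM hT _ e hD]
      unfold N1
      have e1 : 2 ^ e * (e.factorial : ℂ) / A0 * (ek L 0 q e (Ω / (2 + 2 * I) + Ω * r / D) +
          ek L 0 q e (Ω / (2 + 2 * I) - Ω * r / D)) - 1 =
          (2 ^ e * ((e.factorial : ℂ) * (ek L 0 q e (Ω / (2 + 2 * I) + Ω * r / D) +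
          ek L 0 q e (Ω / (2 + 2 * I) - Ω * r / D))) - A0) / A0 := by
        field_simp
      rw [e1, map_div₀, hb, div_lt_one₀ (pow_pos hp _)]
      refine h1.trans_lt ?_
      exact pow_lt_pow_right_of_lt_one₀ hp hr (by omega)

include hR hL hCM hq hT g2 hρ hr in
/-- the values in the last two weight classes -/
theorem Gx_B (hbasic : H_BASIC) (hfp : H_FP) (hcnt : H_CNT) (hdec : H_DEC) (hafe : H_AFE)
    (m e : ℕ) (he : e = 4 * m + 2 ∨ e = 4 * m + 3) : ∃ K : ℂ, K ≠ 0 ∧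
    (∀ D r : R, Pri D → r ∈ sp D → Gx K L q Ω e D r = 0) ∧
    (∀ D r : R, Pri D → r ∉ sp D → N1 v (Gx K L q Ω e D r)) := by
  have hp := rho_pos (v := v) hρ
  have h0 := ek_T_zero hR hbasic hfp hcnt hdec hafe hL hCM hq hT he
  have hρ0 := rho_ne hρ
  have hfac : (e.factorial : ℂ) ≠ 0 := by exact_mod_cast e.factorial_ne_zero
  refine ⟨2 ^ e * (e.factorial : ℂ) / ρ ^ (8 * m + 6), ?_, ?_, ?_⟩
  · exact div_ne_zero (mul_ne_zero (pow_ne_zero _ two_ne_zero) hfac) (pow_ne_zero _ hρ0)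
  · intro D r hD hr'
    rw [Gx_mem hR hL hCM hq hT _ e hD hr', h0, mul_zero]
  · intro D r hD hr'
    have hQ := OT_Q hR hL hD hr'
    have h1 := val_pair hCM g2 hT hQ.1 (hT.add hQ) (hT.sub hQ) e
    have h2 := val_T g2 hT (Xi L (Ω * r / D)) (℘'[L] (Ω * r / D)) (E1 L 0 q (Ω * r / D)) e
    rw [h0, mul_zero, mul_zero] at h2
    rw [← h2, zero_add] at h1
    have h3 := est_three hρ hr (E1_le hCM g2 hρ hr hq hQ) (N1_eta hCM g2 hρ hr hQ)
      (Xi_sub hCM g2 hρ hr hQ) (N1_sig hCM g2 hρ hr hQ) m e he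
    rw [← h1] at h3
    rw [Gx_pair hR hL hCM hT _ e hD]
    unfold N1
    have e1 : 2 ^ e * (e.factorial : ℂ) / ρ ^ (8 * m + 6) *
        (ek L 0 q e (Ω / (2 + 2 * I) + Ω * r / D) +
        ek L 0 q e (Ω / (2 + 2 * I) - Ω * r / D)) - 1 =
        (2 ^ e * ((e.factorial : ℂ) * (ek L 0 q e (Ω / (2 + 2 * I) + Ω * r / D) +
        ek L 0 q e (Ω / (2 + 2 * I) - Ω * r / D))) - ρ ^ (8 * m + 6)) / ρ ^ (8 * m + 6) := by
      have := pow_ne_zero (8 * m + 6) hρ0
      field_simp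
    rw [e1, map_div₀, map_pow, div_lt_one₀ (pow_pos hp _)]
    exact h3

end val

end ds

end Pool.Agent.Helper26K9.XO
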