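import Pool.Agent.Y690.W.Main1
import Pool.Agent.Helper26K9.XO.Cp

/-!
# The Hecke characters of the elliptic curves `D y² = x³ - x`
-/

set_option autoImplicit false
set_option linter.unusedSectionVars false

namespace Pool.Agent.Helper26K9.XO

open H667R3 Pool.Agent.TH936.CW Pool.Agent.Y690.NV Pool.Agent.Y690.AW Pool.Agent.W192.HK
open Pool.Agent.TH936.CM (IsLat out_sub)
open Complex (I)

variable {R : Subring ℂ} (hR : ∀ z : ℂ, z ∈ R ↔ ∃ x y : ℤ, z = x + y * I)

open Classical in
/-- the twisted character -/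
noncomputable def tw0 (n : ℕ) (S : Finset R) (J : Ideal R) : ℂ :=
  if h : ∃ α : R, J = sp α ∧ α - 1 ∈ sp (ff hR) then
    ((ch S (Classical.choose h) : ℤ) : ℂ) * ((Classical.choose h : R) : ℂ) ^ n else 0

lemma tw0_gen (n : ℕ) (S : Finset R) {α : R} (hα : α - 1 ∈ sp (ff hR)) :
    tw0 hR n S (sp α) = ((ch S α : ℤ) : ℂ) * (α : ℂ) ^ n := by
  have h : ∃ β : R, sp α = sp β ∧ β - 1 ∈ sp (ff hR) := ⟨α, rfl, hα⟩
  unfold tw0
  rw [dif_pos h]
  obtain ⟨h1, h2⟩ := Classical.choose_spec h
  rw [← gen_uni hR h1 hα h2]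

lemma tw0_zero' (n : ℕ) (S : Finset R) {J : Ideal R} (h : ¬ (J ≠ ⊥ ∧ IsCoprime J (sp (ff hR)))) :
    tw0 hR n S J = 0 := by
  rw [← gen_iff hR] at h
  unfold tw0
  rw [dif_neg h]

lemma tw0_zero (S : Finset R) (n : ℕ) {J : Ideal R}
    (hJ : ¬ ∃ α : R, α - 1 ∈ sp (ff hR) ∧ J = sp α) : tw0 hR n S J = 0 := by
  refine tw0_zero' hR n S fun h => hJ ?_
  obtain ⟨α, h2, h3⟩ := (gen_iff hR J).mpr h
  exact ⟨α, h3, h2⟩

include hR in
lemma cop_ff_pri {p : R} (h : Pri p) : IsCoprime p (ff hR) :=
  (cop_f2_pri hR h).of_isCoprime_of_dvd_right ⟨2, by unfold f2; ring⟩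

lemma ch_neg {S : Finset R} (hS : ∀ p ∈ S, QC p) (α : R) : ch S (-α) = ch S α := by
  unfold ch
  refine Finset.prod_congr rfl fun p hp => ?_
  have h5 := (hS p hp).mul (-1) α
  rwa [(hS p hp).neg, one_mul, neg_one_mul] at h5

open Classical in
theorem hc_tw0 (hbasic : H_BASIC) {n : ℕ} (hn : Odd n) (S : Finset R)
    (hS : ∀ p ∈ S, Prime p ∧ Pri p) (hd : Dst S) :
    HC n (sp (ff hR * dd S)) (tw0 hR n S) := by
  have := pid hR
  have hQ : ∀ p ∈ S, QC p := fun p hp => mkQC hR hbasic (hS p hp).1 (hS p hp).2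
  have hdd := dd_od hR hQ
  have hsp : sp (ff hR * dd S) = sp (ff hR) * sp (dd S) :=
    (Ideal.span_singleton_mul_span_singleton _ _).symm
  refine ⟨?_, ?_, ?_, ?_, ?_⟩
  · rw [Ne, Ideal.span_singleton_eq_bot]
    exact mul_ne_zero (ffn hR) (hdd.ne hR)
  · intro A B
    by_cases hA : A ≠ ⊥ ∧ IsCoprime A (sp (ff hR))
    · by_cases hB : B ≠ ⊥ ∧ IsCoprime B (sp (ff hR))
      · obtain ⟨α, rfl, hα⟩ := (gen_iff hR A).mpr hA
        obtain ⟨β, rfl, hβ⟩ := (gen_iff hR B).mpr hB
        rw [Ideal.span_singleton_mul_span_singleton, tw0_gen hR n S hα, tw0_gen hR n S hβ, tw0_gen,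
          ch_mul hQ]
        · push_cast
          rw [mul_pow]
          ring
        · have h := (sp (ff hR)).add_mem ((sp (ff hR)).mul_mem_left α hβ) hα
          convert h using 1
          ring
      · rw [tw0_zero' hR n S hB, mul_zero]
        refine tw0_zero' hR n S fun h => hB ⟨?_, h.2.of_mul_left_right⟩
        rintro rfl
        exact h.1 (by rw [Ideal.mul_bot])
    · rw [tw0_zero' hR n S hA, zero_mul]
      refine tw0_zero' hR n S fun h => hA ⟨?_, h.2.of_mul_left_left⟩
      rintro rfl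
      exact h.1 (by rw [Ideal.bot_mul])
  · intro A
    rw [hsp, IsCoprime.mul_right_iff]
    by_cases hA : A ≠ ⊥ ∧ IsCoprime A (sp (ff hR))
    · obtain ⟨α, rfl, hα⟩ := (gen_iff hR A).mpr hA
      rw [tw0_gen hR n S hα, cop_dd hQ]
      have h1 : (α : ℂ) ^ n ≠ 0 := pow_ne_zero _ (coe_ne (((pri_iff hR α).mp hα).ne hR))
      have h2 : (((ch S α : ℤ) : ℂ) * (α : ℂ) ^ n = 0) ↔ ch S α = 0 := by
        constructor
        · intro h
          have h3 := (mul_eq_zero.mp h).resolve_right h1
          exact_mod_cast h3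
        · intro h
          rw [h, Int.cast_zero, zero_mul]
      rw [h2, ch_zero hQ]
      constructor
      · rintro ⟨p, hp, h3⟩
        exact Or.inr fun h4 => h4.2 p hp h3
      · rintro (h | h)
        · exact absurd h hA.1
        · by_contra hcon
          push Not at hcon
          exact h ⟨hA.2, hcon⟩
    · rw [tw0_zero' hR n S hA]
      simp only [true_iff]
      tauto
  · intro α _ hα
    rw [tw0_gen hR n S (mem_sp_mul_left hα), ch_per hQ (mem_sp_mul_right hα), ch_one hQ,
      Int.cast_one, one_mul]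
  · intro q' hq'
    obtain ⟨δ, rfl⟩ := (IsPrincipalIdealRing.principal q').principal
    have hle : ff hR * dd S ∈ (Submodule.span R {δ} : Ideal R) :=
      hq'.le (Ideal.mem_span_singleton_self _)
    have hle' : ff hR * dd S ∈ sp δ := hle
    rw [Ideal.mem_span_singleton] at hle'
    obtain ⟨ε, hε⟩ := hle'
    have hδq : δ ∈ (Submodule.span R {δ} : Ideal R) := Submodule.mem_span_singleton_self δ
    have hεu : ¬ IsUnit ε := by
      intro hu
      obtain ⟨w, hw⟩ := hu.exists_right_inv
      apply not_le_of_gt hq'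
      have h1 : δ ∈ sp (ff hR * dd S) := by
        rw [Ideal.mem_span_singleton]
        exact ⟨w, by rw [hε, mul_assoc, hw, mul_one]⟩
      exact (Ideal.span_singleton_le_iff_mem _).mpr h1
    by_cases hcase : ∃ p ∈ S, p ∣ ε
    · obtain ⟨p, hp, ε', hε'⟩ := hcase
      obtain ⟨u, hu⟩ := nonres hR hbasic (hS p hp).1 (hS p hp).2
      set m := ff hR * dd (S.erase p) with hm
      have hp0 := (hS p hp).2.ne hR
      have hmm : ff hR * dd S = m * p := by
        rw [hm]
        unfold dd
        rw [← Finset.mul_prod_erase S (fun x => x) hp]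
        ring
      have hmδ : m = δ * ε' := by
        refine mul_right_cancel₀ hp0 ?_
        rw [← hmm, hε, hε']
        ring
      have hcop : IsCoprime m p := by
        rw [hm]
        refine IsCoprime.mul_left (cop_ff_pri hR (hS p hp).2).symm ?_
        refine IsCoprime.prod_left fun s hs => ?_
        rw [Finset.mem_erase] at hs
        rw [← Ideal.isCoprime_span_singleton_iff]
        have h5 := (cop_dd (S := {p}) (fun x hx => by
          rw [Finset.mem_singleton] at hx
          rw [hx]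
          exact hQ p hp) s).mpr (fun x hx => by
          rw [Finset.mem_singleton] at hx
          rw [hx]
          exact hd s hs.2 p hp hs.1)
        have h6 : dd ({p} : Finset R) = p := Finset.prod_singleton _ _
        rwa [h6] at h5
      obtain ⟨a, b, hab⟩ := hcop
      set α := 1 + m * (a * (u - 1)) with hα
      have h1 : α - 1 ∈ sp m := by
        rw [hα, add_sub_cancel_left]
        exact (sp m).mul_mem_right _ (Ideal.mem_span_singleton_self m)
      have h2 : α - u ∈ sp p := by
        have : α - u = p * (-(b * (u - 1))) := by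
          rw [hα]
          linear_combination (u - 1) * hab
        rw [this]
        exact (sp p).mul_mem_right _ (Ideal.mem_span_singleton_self p)
      have h4 : α - 1 ∈ sp (ff hR) := mem_sp_mul_left h1
      have hup : u ∉ sp p := by
        intro h5
        rw [((hQ p hp).zero u).mpr h5] at hu
        norm_num at hu
      have hPα := (pri_iff hR α).mp h4
      have hch : ch S α = -1 := by
        unfold ch
        rw [← Finset.mul_prod_erase S (fun x => qs x α) hp, (hQ p hp).per α u h2, hu,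
          Finset.prod_eq_one, mul_one]
        intro s hs
        rw [(hQ s (Finset.mem_of_mem_erase hs)).per α 1 (mem_dd hs (mem_sp_mul_right h1)),
          (hQ s (Finset.mem_of_mem_erase hs)).one]
      refine ⟨α, hPα.ne hR, ?_, ?_, ?_⟩
      · have h5 : δ * (ε' * (a * (u - 1))) ∈ (Submodule.span R {δ} : Ideal R) :=
          Ideal.mul_mem_right _ _ hδq
        convert h5 using 1
        rw [hα, hmδ]
        ring
      · rw [hsp, IsCoprime.mul_right_iff, cop_dd hQ, Ideal.isCoprime_span_singleton_iff]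
        refine ⟨cop_ff_pri hR hPα, ?_⟩
        intro s hs h5
        by_cases hsp' : s = p
        · rw [hsp'] at h5
          have := (sp p).sub_mem h5 h2
          rw [sub_sub_cancel] at this
          exact hup this
        · have h6 : α - 1 ∈ sp s := mem_dd (Finset.mem_erase.mpr ⟨hsp', hs⟩) (mem_sp_mul_right h1)
          have := (sp s).sub_mem h5 h6
          rw [sub_sub_cancel] at this
          exact (hQ s hs).max.ne_top ((Ideal.eq_top_iff_one _).mpr this)
      · rw [tw0_gen hR n S h4, hch, Int.cast_neg, Int.cast_one, neg_one_mul]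
        intro h5
        have h6 : (α : ℂ) ^ n = 0 := by linear_combination (-1 / 2) * h5
        exact pow_ne_zero n (coe_ne (hPα.ne hR)) h6
    · push Not at hcase
      have hεdd : IsCoprime ε (dd S) := by
        rw [← Ideal.isCoprime_span_singleton_iff, cop_dd hQ]
        intro p hp h5
        exact hcase p hp (Ideal.mem_span_singleton.mp h5)
      have hεf : ε ∣ ff hR := hεdd.dvd_of_dvd_mul_right ⟨δ, by rw [hε]; ring⟩
      rcases even_or hR ε with ⟨a, b, hab, hmk⟩ | ⟨z, hz⟩
      · exfalso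
        obtain ⟨j, -, hj⟩ := odd_unit hR a b hab
        rw [← hmk] at hj
        have h5 := cop_ff_pri hR ((pri_iff hR _).mp hj)
        have h6 : IsCoprime ε (ff hR) := h5.of_mul_left_right
        exact hεu (h6.isUnit_of_dvd' dvd_rfl hεf)
      · obtain ⟨d, hdd'⟩ := hdd.form hR
        -- `1 + 2 D` is congruent to `-1`
        set α := 1 + 2 * dd S with hα
        have h1 : -α - 1 ∈ sp (ff hR) := by
          rw [Ideal.mem_span_singleton']
          refine ⟨-((1 - ii hR) + 2 * d), ?_⟩
          rw [hα, hdd']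
          unfold ff
          linear_combination (2 : R) * ii_sq hR
        have h2 : 2 * dd S = δ * z := by
          have h3 : (1 + ii hR) ≠ 0 := by
            intro h4
            apply ffn hR
            rw [ff_eq, h4, zero_mul]
          refine mul_left_cancel₀ h3 ?_
          have h4 : ff hR * dd S = (1 + ii hR) * (2 * dd S) := by unfold ff; ring
          rw [← h4, hε, hz]
          ring
        have h3 : α - 1 ∈ sp (dd S) := by
          rw [hα, add_sub_cancel_left]
          exact (sp (dd S)).mul_mem_left 2 (Ideal.mem_span_singleton_self _)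
        have hPα := (pri_iff hR (-α)).mp h1
        have hα0 : α ≠ 0 := neg_ne_zero.mp (hPα.ne hR)
        refine ⟨α, hα0, ?_, ?_, ?_⟩
        · rw [hα, add_sub_cancel_left, h2]
          exact Ideal.mul_mem_right _ _ hδq
        · rw [hsp, IsCoprime.mul_right_iff, cop_dd hQ, Ideal.isCoprime_span_singleton_iff]
          refine ⟨(IsCoprime.neg_left_iff α (ff hR)).mp (cop_ff_pri hR hPα), ?_⟩
          intro s hs h5
          have := (sp s).sub_mem h5 (mem_dd hs h3)
          rw [sub_sub_cancel] at this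
          exact (hQ s hs).max.ne_top ((Ideal.eq_top_iff_one _).mpr this)
        · have h5 : sp α = sp (-α) := (Ideal.span_singleton_neg α).symm
          rw [h5, tw0_gen hR n S h1, ch_neg hQ, ch_per hQ h3, ch_one hQ, Int.cast_one, one_mul]
          push_cast
          rw [hn.neg_pow]
          intro h6
          have h7 : (α : ℂ) ^ n = 0 := by linear_combination (-1 / 2) * h6
          exact pow_ne_zero n (coe_ne hα0) h7

/-- the character sum with the normalisation of the elliptic curve -/
lemma sum_shift {S : Finset R} (hS : ∀ p ∈ S, QC p) (r : R) :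
    ch S (dd S + ff hR * r) = ch S (ff hR) * ch S r := by
  rw [← ch_mul hS]
  refine ch_per hS ?_
  rw [add_sub_cancel_right]
  exact Ideal.mem_span_singleton_self _

open Classical in
/-- an admissible set of primes -/
def Adm0 (S : Finset R) : Prop :=
  (∀ p ∈ S, Prime p ∧ Pri p) ∧ S.Nonempty ∧ tz aa zn S = 1

include hR in
lemma ch_ff_ne {S : Finset R} (hQ : ∀ p ∈ S, QC p) : ch S (ff hR) ≠ 0 := by
  unfold ch
  refine Finset.prod_ne_zero_iff.mpr fun p hp => ?_
  rw [Ne, (hQ p hp).zero]
  intro h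
  obtain ⟨a, b, hab⟩ := cop_ff_pri hR (hQ p hp).od
  apply (hQ p hp).max.ne_top
  rw [Ideal.eq_top_iff_one, ← hab]
  exact (sp p).add_mem ((sp p).mul_mem_left a (Ideal.mem_span_singleton_self p))
    ((sp p).mul_mem_left b h)

open Classical in
theorem tw0_main (hbasic : H_BASIC) (hfp : H_FP) (hcnt : H_CNT) (hdec : H_DEC) (hafe : H_AFE)
    {S : Finset R} (hS : Adm0 S) (hd : Dst S) (e : ℕ) :
    HC (2 * e + 1) (sp (ff hR * dd S)) (tw0 hR (2 * e + 1) S) ∧
      NVan e (tw0 hR (2 * e + 1) S) := by
  obtain ⟨L, Ω, q, hL, hCM, g2, hq, hT⟩ := exists_base (qr hR)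
  have hQ : ∀ p ∈ S, QC p := fun p hp => mkQC hR hbasic (hS.1 p hp).1 (hS.1 p hp).2
  have hHC := hc_tw0 hR hbasic (n := 2 * e + 1) ⟨e, rfl⟩ S hS.1 hd
  have hod := dd_od hR hQ
  obtain ⟨b1, -⟩ := hbasic R I (qr hR)
  have := b1 (sp (dd S)) (by rw [Ne, Ideal.span_singleton_eq_bot]; exact hod.ne hR)
  have := Fintype.ofFinite (R ⧸ sp (dd S))
  have hsum := sum_ne0 hR hL hCM g2 hq hT hbasic hfp hcnt hdec hafe e hQ hd hS.2.1 hS.2.2
  rw [rs_eq] at hsum
  refine ⟨hHC, nonvan hR hbasic hfp hcnt hdec hafe hL hCM hq (hod.ne hR) (hod.ff hR) hHC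
    (χ := fun r => ((ch S r : ℤ) : ℂ)) (fun r hr => by rw [tw0_gen hR _ S hr, mul_comm])
    (fun r => map_intCast _ _) ?_⟩
  have h1 : ∑ w : R ⧸ sp (dd S), ((ch S (dd S + ff hR * w.out) : ℤ) : ℂ) *
      ek L 0 q e (Ω / (2 + 2 * I) + Qw Ω (dd S) w) = ((ch S (ff hR) : ℤ) : ℂ) *
      ∑ w : R ⧸ sp (dd S), ((ch S w.out : ℤ) : ℂ) *
        ek L 0 q e (Ω / (2 + 2 * I) + Ω * w.out / dd S) := by
    rw [Finset.mul_sum]
    refine Finset.sum_congr rfl fun w _ => ?_
    rw [sum_shift hR hQ]
    push_cast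
    unfold Qw
    ring
  rw [h1]
  refine mul_ne_zero ?_ hsum
  exact_mod_cast ch_ff_ne hR hQ

end Pool.Agent.Helper26K9.XO
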