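import Pool.Agent.Helper26K9.XO.DSx

/-!
# The sums over the classes with all symbols equal to one
-/

set_option autoImplicit false
set_option linter.unusedSectionVars false
set_option linter.unusedSimpArgs false

namespace Pool.Agent.Helper26K9.XO

open Pool.Agent.Y690.NV Pool.Agent.Y690.AW Pool.Agent.W192.HK
open Pool.Agent.TH936.CM (IsLat out_sub)
open Complex (I)

/-- sums over pairs, strict form -/
theorem sum_pairs_lt {F : Type*} [AddGroup F] [Fintype F] (h : F → ℂ)
    (hneg : ∀ w, h (-w) = h w) (h0 : ∀ w, -w = w → h w = 0) {Γ : Type*}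
    [LinearOrderedCommGroupWithZero Γ] {v : Valuation ℂ Γ} {g : Γ} (hg : ∀ w, v (h w) < g) :
    v (∑ w, h w) < v 2 * g := by
  classical
  obtain ⟨w0, -, hw0⟩ := Finset.exists_max_image (Finset.univ : Finset F) (fun w => v (h w))
    ⟨0, Finset.mem_univ _⟩
  have h1 := sum_pairs (v := v) h hneg h0 (g := v (h w0)) (fun w => hw0 w (Finset.mem_univ _))
  exact h1.trans_lt (mul_lt_mul_of_pos_left (hg w0) v2_pos)

variable {R : Subring ℂ} {Γ : Type*} [LinearOrderedCommGroupWithZero Γ] {v : Valuation ℂ Γ}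
  (h2 : v 2 < 1) {G : R → R → ℂ} {c : R → ℂ} (h : DS G c)
  (hR : ∀ z : ℂ, z ∈ R ↔ ∃ x y : ℤ, z = x + y * I)
  (hs : ∀ D r : R, Pri D → G D (-r) = G D r)

lemma neg_out {D : R} (w : R ⧸ sp D) : (-w).out - (-w.out) ∈ sp D := by
  have := out_sub (sp D) (-w.out)
  rwa [map_neg, Ideal.Quotient.mk_out] at this

lemma zero_out {D : R} : (0 : R ⧸ sp D).out ∈ sp D := by
  rw [← Ideal.Quotient.eq_zero_iff_mem, Ideal.Quotient.mk_out]

include h hR hs in
/-- the bound for values in the ring of integers -/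
lemma bigA (hG : ∀ D r : R, Pri D → v (G D r) ≤ 1) {U : Finset R} (hU : ∀ p ∈ U, QC p)
    (hne : U.Nonempty) : v (Ts G (dd U) (kap U)) ≤ v 2 * v 2 ^ U.card := by
  have hod := dd_od hR hU
  have := h.fin _ hod
  have := Fintype.ofFinite (R ⧸ sp (dd U))
  unfold Ts
  rw [rs_eq]
  refine sum_pairs _ (fun w => ?_) (fun w hw => ?_) (fun w => ?_)
  · rw [← kap_neg hU w.out, ← hs _ w.out hod, kap_per hU (neg_out w),
      h.per _ _ _ hod (neg_out w)]
  · obtain ⟨p, hp⟩ := hne
    rw [kap_zero hU hp (mem_dd hp ?_), zero_mul]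
    rw [Pri.two_cancel hR hod w hw]
    exact zero_out
  · rw [map_mul]
    calc v (kap U w.out) * v (G (dd U) w.out) ≤ v 2 ^ U.card * 1 :=
          mul_le_mul' (kap_le hU _) (hG _ _ hod)
      _ = _ := mul_one _

include h hR hs in
/-- the bound for values congruent to one -/
lemma bigB (hG : ∀ D r : R, Pri D → r ∉ sp D → N1 v (G D r)) {U : Finset R}
    (hU : ∀ p ∈ U, QC p) (hne : U.Nonempty) :
    v (Ts G (dd U) (kap U) - rs (dd U) (kap U)) < v 2 * v 2 ^ U.card := by
  have hod := dd_od hR hU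
  have := h.fin _ hod
  have := Fintype.ofFinite (R ⧸ sp (dd U))
  unfold Ts
  rw [rs_eq, rs_eq, ← Finset.sum_sub_distrib]
  obtain ⟨p, hp⟩ := hne
  have hz : ∀ r : R, r ∈ sp (dd U) → kap U r = 0 := fun r hr => kap_zero hU hp (mem_dd hp hr)
  refine sum_pairs_lt _ (fun w => ?_) (fun w hw => ?_) (fun w => ?_)
  · rw [← kap_neg hU w.out, ← hs _ w.out hod, kap_per hU (neg_out w),
      h.per _ _ _ hod (neg_out w)]
  · rw [hz, zero_mul, sub_zero]
    rw [Pri.two_cancel hR hod w hw]
    exact zero_out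
  · have hpos : 0 < v 2 ^ U.card := pow_pos (v2_pos (v := v)) _
    by_cases hw : w.out ∈ sp (dd U)
    · rw [hz _ hw, zero_mul, sub_zero, map_zero]
      exact hpos
    · have e : kap U w.out * G (dd U) w.out - kap U w.out =
          kap U w.out * (G (dd U) w.out - 1) := by ring
      rw [e, map_mul]
      calc v (kap U w.out) * v (G (dd U) w.out - 1) ≤ v 2 ^ U.card * v (G (dd U) w.out - 1) :=
            mul_le_mul_left (kap_le hU _) _
        _ < v 2 ^ U.card * 1 := mul_lt_mul_of_pos_left (hG _ _ hod hw) hpos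
        _ = _ := mul_one _

/-! ### the number of classes -/

lemma two_bij {p D : R} (hm : (sp p).IsMaximal) [Fintype (R ⧸ sp p)] (hD : D ∉ sp p) (w : R)
    (f : R → ℂ) (hf : ∀ r s : R, r - s ∈ sp p → f r = f s) :
    ∑ y : R ⧸ sp p, f (w + D * y.out) = ∑ y : R ⧸ sp p, f y.out := by
  have hpr := hm.isPrime
  have hinj : Function.Injective (fun y : R ⧸ sp p => Ideal.Quotient.mk (sp p) (w + D * y.out)) := by
    intro y y' hyy
    have h1 : (w + D * y.out) - (w + D * y'.out) ∈ sp p :=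
      (Ideal.Quotient.mk_eq_mk_iff_sub_mem _ _).mp hyy
    refine eq_of_out ?_
    have h2 : D * (y.out - y'.out) ∈ sp p := by
      convert h1 using 1
      ring
    exact (hpr.mem_or_mem h2).resolve_left hD
  refine Fintype.sum_bijective _ (Finite.injective_iff_bijective.mp hinj) _ _ fun y => ?_
  refine hf _ _ ?_
  have := (sp p).neg_mem (mk_out_sub p (w + D * y.out))
  rwa [neg_sub] at this

include hR in
lemma card_form {p : R} (hbasic : H_BASIC) (h : Pri p) {a b : ℤ}
    (hab : (p : ℂ) = 1 + (2 + 2 * I) * ((a : ℂ) + b * I)) :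
    ((Nat.card (R ⧸ sp p) : ℕ) : ℤ) = 1 + 4 * (a - b + (a - b) ^ 2 + (a + b) ^ 2) := by
  obtain ⟨-, -, -, -, b5, -⟩ := hbasic R I (qr hR)
  have hc : (Nat.card (R ⧸ sp p) : ℝ) = Complex.normSq (p : ℂ) := b5 p
  have h1 : Complex.normSq (p : ℂ) =
      ((1 + 4 * (a - b + (a - b) ^ 2 + (a + b) ^ 2) : ℤ) : ℝ) := by
    have h2 : (p : ℂ) = ((1 + 2 * a - 2 * b : ℤ) : ℂ) + ((2 * a + 2 * b : ℤ) : ℂ) * I := by
      rw [hab]
      push_cast
      linear_combination (2 * (b : ℂ)) * Complex.I_sq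
    rw [h2, Complex.normSq_apply]
    simp
    ring
  rw [h1] at hc
  exact_mod_cast hc

include hR in
lemma card_odd {p : R} (hbasic : H_BASIC) (h : Pri p) : Odd (Nat.card (R ⧸ sp p)) := by
  obtain ⟨a, b, hab⟩ := h.coe hR
  have h3 := card_form hR hbasic h hab
  rw [← Int.odd_coe_nat, h3]
  exact ⟨2 * (a - b + (a - b) ^ 2 + (a + b) ^ 2), by ring⟩

include hR in
lemma sum_one_kap (hbasic : H_BASIC) {p : R} (hp : QC p) [Fintype (R ⧸ sp p)] :
    ∑ y : R ⧸ sp p, (((qs p y.out : ℤ) : ℂ) + cpI p y.out) = (Nat.card (R ⧸ sp p) : ℂ) - 1 := by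
  classical
  have := hp.max
  have hodd := card_odd hR hbasic hp.od
  rw [Nat.card_eq_fintype_card] at hodd ⊢
  rw [Finset.sum_add_distrib]
  have h1 := qs_sum p hodd
  have h3 : ∑ w : R ⧸ sp p, ((qs p w.out : ℤ) : ℂ) = 0 := by exact_mod_cast h1
  rw [h3, zero_add]
  have h4 : ∀ y : R ⧸ sp p, cpI p y.out = 1 - if y = 0 then 1 else 0 := by
    intro y
    unfold cpI
    have h5 : y.out ∈ sp p ↔ y = 0 := by
      rw [← Ideal.Quotient.eq_zero_iff_mem, Ideal.Quotient.mk_out]
    by_cases hy : y = 0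
    · rw [if_pos (h5.mpr hy), if_pos hy, sub_self]
    · rw [if_neg (fun h => hy (h5.mp h)), if_neg hy, sub_zero]
  rw [Finset.sum_congr rfl (fun y _ => h4 y), Finset.sum_sub_distrib, Finset.sum_ite_eq' Finset.univ,
    if_pos (Finset.mem_univ _), Finset.sum_const, Finset.card_univ, nsmul_eq_mul, mul_one]

include hR in
open Classical in
theorem rs_kap (hbasic : H_BASIC) (hfin : ∀ D : R, Pri D → Finite (R ⧸ sp D)) (U : Finset R) :
    (∀ p ∈ U, QC p) → Dst U → rs (dd U) (kap U) = ∏ p ∈ U, ((Nat.card (R ⧸ sp p) : ℂ) - 1) := by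
  induction U using Finset.induction_on with
  | empty =>
    intro hU _
    have := hfin _ (dd_od hR hU)
    have := Fintype.ofFinite (R ⧸ sp (dd (∅ : Finset R)))
    have hsub : ∀ w : R ⧸ sp (dd (∅ : Finset R)), w = 0 := by
      intro w
      refine eq_of_out ?_
      have h1 : sp (dd (∅ : Finset R)) = ⊤ := by
        unfold dd
        rw [Finset.prod_empty]
        exact Ideal.span_singleton_one
      generalize w.out - (0 : R ⧸ sp (dd (∅ : Finset R))).out = x
      rw [h1]
      exact Submodule.mem_top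
    rw [rs_eq, Fintype.sum_eq_single (0 : R ⧸ sp (dd (∅ : Finset R)))
      (fun w hw => absurd (hsub w) hw), Finset.prod_empty]
    exact Finset.prod_empty
  | insert p V hp ih =>
    intro hU hd
    have hV : ∀ x ∈ V, QC x := fun x hx => hU x (Finset.mem_insert_of_mem hx)
    have hdV : Dst V := fun x hx y hy => hd x (Finset.mem_insert_of_mem hx) y
      (Finset.mem_insert_of_mem hy)
    have hpQ := hU p (Finset.mem_insert_self _ _)
    have e1 : dd (insert p V) = dd V * p := by
      unfold dd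
      rw [Finset.prod_insert hp, mul_comm]
    have := hfin _ (dd_od hR hV)
    have := Fintype.ofFinite (R ⧸ sp (dd V))
    have := hfin _ hpQ.od
    have := Fintype.ofFinite (R ⧸ sp p)
    have := hfin _ ((dd_od hR hV).mul hR hpQ.od)
    have := Fintype.ofFinite (R ⧸ sp (dd V * p))
    have hkap : ∀ r : R, kap (insert p V) r = (((qs p r : ℤ) : ℂ) + cpI p r) * kap V r := by
      intro r
      unfold kap
      rw [Finset.prod_insert hp]
    have hDp : dd V ∉ sp p := by
      have hpr := hpQ.max.isPrime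
      unfold dd
      intro h1
      rw [Ideal.IsPrime.prod_mem_iff] at h1
      obtain ⟨s, hs, h3⟩ := h1
      exact hd s (Finset.mem_insert_of_mem hs) p (Finset.mem_insert_self _ _)
        (fun h4 => hp (h4 ▸ hs)) h3
    rw [e1, rs_eq, rs_fib ((dd_od hR hV).ne hR) (kap (insert p V)) (fun r s hrs => by
      rw [kap_per hU (by rw [e1]; exact hrs)])]
    have h5 : ∀ w : R ⧸ sp (dd V), ∑ y : R ⧸ sp p, kap (insert p V) (w.out + dd V * y.out) =
        ((Nat.card (R ⧸ sp p) : ℂ) - 1) * kap V w.out := by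
      intro w
      have h6 : ∀ y : R ⧸ sp p, kap (insert p V) (w.out + dd V * y.out) =
          (((qs p (w.out + dd V * y.out) : ℤ) : ℂ) + cpI p (w.out + dd V * y.out)) *
            kap V w.out := by
        intro y
        rw [hkap, kap_per hV (s := w.out)]
        rw [add_sub_cancel_left]
        exact (sp (dd V)).mul_mem_right _ (Ideal.mem_span_singleton_self _)
      rw [Finset.sum_congr rfl (fun y _ => h6 y), ← Finset.sum_mul,
        two_bij hpQ.max hDp w.out (fun r => ((qs p r : ℤ) : ℂ) + cpI p r) (fun r s hrs => by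
          rw [hpQ.per r s hrs, cpI_per hrs]), sum_one_kap hR hbasic hpQ]
    have h7 := ih hV hdV
    rw [rs_eq] at h7
    rw [Finset.sum_congr rfl (fun w _ => h5 w), ← Finset.mul_sum, h7, Finset.prod_insert hp]

end Pool.Agent.Helper26K9.XO
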